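/-
MP_9f7f62_lc : the forall-exists theory (language of lattices) of the Medvedev degrees of nonempty
effectively closed subsets of Cantor space is undecidable.  Definitions used in the statement:
effectively closed sets, Medvedev reducibility, formulas.  (The lattice of degrees is in Base.lean.)
-/
import Mathlib

namespace Pool.Agent.Lib.MUD

/-! ### Cantor space, trees, functionals, Medvedev reducibility -/

/-- initial segment of length `n` of an infinite binary sequence -/
def pre (f : ℕ → Bool) (n : ℕ) : List Bool := (List.range n).map f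

/-- a computable tree of finite binary strings (closed under initial segments) -/
structure CompTree where
  mem : List Bool → Bool
  computable : Computable mem
  closed : ∀ σ τ : List Bool, σ <+: τ → mem τ = true → mem σ = true

/-- the set of infinite paths through a computable tree -/
def CompTree.paths (T : CompTree) : Set (ℕ → Bool) := {f | ∀ n, T.mem (pre f n) = true}

/-- effectively closed (`Π⁰₁`) subsets of Cantor space -/
def IsPi01 (P : Set (ℕ → Bool)) : Prop := ∃ T : CompTree, P = T.paths

/-- a Turing functional, presented by a computable map on finite strings which is monotone for the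
initial segment relation: on oracle `g` it produces the union of the strings `map (pre g k)` -/
structure Functional where
  map : List Bool → List Bool
  computable : Computable map
  mono : ∀ σ τ : List Bool, σ <+: τ → map σ <+: map τ

/-- `Φ^g` is total and equal to `f` -/
def Functional.Computes (Φ : Functional) (g f : ℕ → Bool) : Prop :=
  (∀ k, ∃ n, Φ.map (pre g k) = pre f n) ∧ ∀ n, ∃ k, n ≤ (Φ.map (pre g k)).length

/-- Medvedev reducibility `P ≤_M Q` -/
def Med (P Q : Set (ℕ → Bool)) : Prop :=
  ∃ Φ : Functional, ∀ g ∈ Q, ∃ f ∈ P, Φ.Computes g f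

/-- nonempty effectively closed subsets of Cantor space -/
structure ECl where
  carrier : Set (ℕ → Bool)
  pi01 : IsPi01 carrier
  nonempty : carrier.Nonempty

/-! ### lattice terms, quantifier-free formulas, the forall-exists theory -/

/-- lattice terms in the universally quantified variables `x 0, x 1, …` and the existentially
quantified variables `y 0, y 1, …` -/
inductive Tm : Type
  | x (i : ℕ) : Tm
  | y (i : ℕ) : Tm
  | sup (s t : Tm) : Tm
  | inf (s t : Tm) : Tm

/-- quantifier-free formulas in the signature `{∨, ∧}` -/
inductive Fm : Type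
  | eq (s t : Tm) : Fm
  | neg (φ : Fm) : Fm
  | and (φ ψ : Fm) : Fm
  | or (φ ψ : Fm) : Fm

/-- value of a term -/
def Tm.eval {L : Type} [Lattice L] (x y : ℕ → L) : Tm → L
  | .x i => x i
  | .y i => y i
  | .sup s t => s.eval x y ⊔ t.eval x y
  | .inf s t => s.eval x y ⊓ t.eval x y

/-- satisfaction -/
def Fm.Sat {L : Type} [Lattice L] (x y : ℕ → L) : Fm → Prop
  | .eq s t => s.eval x y = t.eval x y
  | .neg φ => ¬ φ.Sat x y
  | .and φ ψ => φ.Sat x y ∧ ψ.Sat x y
  | .or φ ψ => φ.Sat x y ∨ ψ.Sat x y

/-- the sentence `∀ x₀ x₁ … ∃ y₀ y₁ … φ` holds in the lattice `L` (only finitely many variables occur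
in `φ`) -/
def Holds (L : Type) [Lattice L] (φ : Fm) : Prop :=
  ∀ x : ℕ → L, ∃ y : ℕ → L, φ.Sat x y

/-- Gödel numbers of terms -/
def Tm.code : Tm → ℕ
  | .x i => 4 * i
  | .y i => 4 * i + 1
  | .sup s t => 4 * Nat.pair s.code t.code + 2
  | .inf s t => 4 * Nat.pair s.code t.code + 3

/-- Gödel numbers of formulas -/
def Fm.code : Fm → ℕ
  | .eq s t => 4 * Nat.pair s.code t.code
  | .neg φ => 4 * φ.code + 1
  | .and φ ψ => 4 * Nat.pair φ.code ψ.code + 2
  | .or φ ψ => 4 * Nat.pair φ.code ψ.code + 3

end Pool.Agent.Lib.MUD
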