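/-
MP_9f7f62_lc : the forall-exists theory (language of lattices) of the Medvedev degrees of nonempty
effectively closed subsets of Cantor space is undecidable.  Shared definitions used in the proof
(not in the statement).
-/
import Pool.Agent.Lib.MP_9f7f62_lc.Core

namespace Pool.Agent.Lib.MUD

/-! ### abstract lattice properties used in the proof -/

section Abstract

variable {L : Type} [Lattice L]

/-- (possibly improper) prime ideals, as sets -/
structure IsPId (I : Set L) : Prop where
  nonempty : I.Nonempty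
  lower : ∀ a b, a ≤ b → b ∈ I → a ∈ I
  sup : ∀ a b, a ∈ I → b ∈ I → a ⊔ b ∈ I
  prime : ∀ a b, a ⊓ b ∈ I → a ∈ I ∨ b ∈ I

/-- filters, as sets (possibly empty or improper) -/
structure IsFilt (F : Set L) : Prop where
  upper : ∀ a b, a ≤ b → a ∈ F → b ∈ F
  inf : ∀ a b, a ∈ F → b ∈ F → a ⊓ b ∈ F

/-- the ideal generated by two ideals -/
def JoinId (I J : Set L) : Set L := {c | ∃ a ∈ I, ∃ b ∈ J, c ≤ a ⊔ b}

variable (L) in
/-- property (G): there are many prime ideals whose joins are prime -/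
def GoodPts : Prop :=
  ∃ 𝒢 : Set (Set L), (∀ I ∈ 𝒢, IsPId I) ∧ (∀ I ∈ 𝒢, ∀ J ∈ 𝒢, JoinId I J ∈ 𝒢) ∧
    ∀ (q : L) (F : Set L), IsFilt F → q ∉ F → ∃ I ∈ 𝒢, q ∈ I ∧ ∀ z ∈ I, z ∉ F

variable (L) in
/-- property (H): an infinite join-independent family of elements all of whose finite joins are
meet-prime -/
def IndepFam : Prop :=
  ∃ a : Finset ℕ → L, (∀ U W, a (U ∪ W) = a U ⊔ a W) ∧
    (∀ U x y, x ⊓ y ≤ a U → x ≤ a U ∨ y ≤ a U) ∧ (∀ U W, a U ≤ a W → U ⊆ W)

/-- `(y, y')` is a split of `z` -/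
def Split (z y y' : L) : Prop := y ⊓ y' ≤ z ∧ ¬ y' ≤ z

end Abstract

/-! ### local systems (two-dimensional domino systems with classes) -/

/-- a local system: classes of columns and of rows, edges between classes, allowed labels at the
crossing of a column and a row, forbidden pairs of labels along edges -/
structure Sys where
  EC : ℕ → ℕ → Prop
  ER : ℕ → ℕ → Prop
  KC : ℕ → Prop
  KR : ℕ → Prop
  i0 : ℕ
  l0 : ℕ
  Lab : ℕ → ℕ → Finset ℕ
  /-- `FC i i' l t t'` : labels `t, t'` are forbidden in adjacent columns of classes `i, i'`, in a row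
  of class `l` -/
  FC : ℕ → ℕ → ℕ → ℕ → ℕ → Prop
  /-- `FR l l' i t t'` : labels `t, t'` are forbidden in adjacent rows of classes `l, l'`, in a column
  of class `i` -/
  FR : ℕ → ℕ → ℕ → ℕ → ℕ → Prop

/-- side conditions on a local system -/
structure Sys.Good (S : Sys) : Prop where
  ec : ∀ i i', S.EC i i' → S.KC i ∧ S.KC i'
  er : ∀ l l', S.ER l l' → S.KR l ∧ S.KR l'
  ecAnti : ∀ i i', S.EC i i' → ¬ S.EC i' i
  erAnti : ∀ l l', S.ER l l' → ¬ S.ER l' l
  i0 : S.KC S.i0
  l0 : S.KR S.l0
  disj : ∀ i, S.KC i → ¬ S.KR i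
  lab : ∀ i l, S.KC i → S.KR l → (S.Lab i l).Nonempty

/-- models of a local system: a set `X` of columns, a set `Y` of rows -/
structure Sys.Model (S : Sys) (X Y : Type) where
  clX : X → ℕ
  clY : Y → ℕ
  clX_mem : ∀ x, S.KC (clX x)
  clY_mem : ∀ y, S.KR (clY y)
  x0 : X
  y0 : Y
  clX_x0 : clX x0 = S.i0
  clY_y0 : clY y0 = S.l0
  adjX : X → X → Prop
  adjY : Y → Y → Prop
  succX : ∀ x i', S.EC (clX x) i' → ∃ x', clX x' = i' ∧ adjX x x'
  succY : ∀ y l', S.ER (clY y) l' → ∃ y', clY y' = l' ∧ adjY y y'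
  lab : X → Y → ℕ
  lab_mem : ∀ x y, lab x y ∈ S.Lab (clX x) (clY y)
  conC : ∀ x x' y, S.EC (clX x) (clX x') → adjX x x' →
    ¬ S.FC (clX x) (clX x') (clY y) (lab x y) (lab x' y)
  conR : ∀ y y' x, S.ER (clY y) (clY y') → adjY y y' →
    ¬ S.FR (clY y) (clY y') (clX x) (lab x y) (lab x y')

/-- the lattice axioms attached to a local system -/
structure Sys.Ax (S : Sys) {L : Type} [Lattice L] (A N D : L) (Z : ℕ → L) (T : ℕ → ℕ → ℕ → L) :
    Prop where
  start_i : ¬ D ≤ Z S.i0
  start_l : ¬ D ≤ Z S.l0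
  succC : ∀ i i', S.EC i i' → ∀ y y', Split (Z i) y y' → ¬ N ≤ y ⊔ Z i'
  succR : ∀ l l', S.ER l l' → ∀ y y', Split (Z l) y y' → ¬ N ≤ y ⊔ Z l'
  adjC : ∀ i i', S.EC i i' → A ⊓ N ≤ Z i ⊔ Z i'
  adjR : ∀ l l', S.ER l l' → A ⊓ N ≤ Z l ⊔ Z l'
  labs : ∀ i l, S.KC i → S.KR l → ∀ z, (∀ t ∈ S.Lab i l, z ≤ T i l t) → z ≤ Z i ⊔ Z l
  forC : ∀ i i' l t t', S.EC i i' → S.KR l → t ∈ S.Lab i l → t' ∈ S.Lab i' l →
    S.FC i i' l t t' → D ≤ T i l t ⊔ T i' l t' ⊔ A
  forR : ∀ l l' i t t', S.ER l l' → S.KC i → t ∈ S.Lab i l → t' ∈ S.Lab i l' →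
    S.FR l l' i t t' → D ≤ T i l t ⊔ T i l' t' ⊔ A
  indC : ∀ i i' l, S.EC i i' → S.KR l → ∀ a a' b b' c c', Split (Z i) a a' → Split (Z i') b b' →
    Split (Z l) c c' → ¬ D ≤ a ⊔ b ⊔ c
  indR : ∀ l l' i, S.ER l l' → S.KC i → ∀ a a' b b' c c', Split (Z l) a a' → Split (Z l') b b' →
    Split (Z i) c c' → ¬ D ≤ a ⊔ b ⊔ c

/-! ### machines -/

/-- actions of a Turing machine -/
inductive Act (Γ : Type) : Type
  | write (a : Γ) : Act Γ
  | left : Act Γ
  | right : Act Γ

/-- configurations with absolute positions: state, position of the head, tape -/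
structure ACfg (Γ Λ : Type) where
  q : Λ
  h : ℤ
  tape : ℤ → Γ

/-- one step -/
def astep {Γ Λ : Type} (M : Λ → Γ → Option (Λ × Act Γ)) (c : ACfg Γ Λ) : Option (ACfg Γ Λ) :=
  match M c.q (c.tape c.h) with
  | none => none
  | some (q', .write a) => some ⟨q', c.h, Function.update c.tape c.h a⟩
  | some (q', .left) => some ⟨q', c.h - 1, c.tape⟩
  | some (q', .right) => some ⟨q', c.h + 1, c.tape⟩

/-- the configuration after `n` steps -/
def arun {Γ Λ : Type} (M : Λ → Γ → Option (Λ × Act Γ)) (c : ACfg Γ Λ) : ℕ → Option (ACfg Γ Λ)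
  | 0 => some c
  | n + 1 => (arun M c n).bind (astep M)

/-- a fixed machine with its conventions about inputs and outputs -/
structure TMData where
  Γ : Type
  Λ : Type
  finΓ : Fintype Γ
  finΛ : Fintype Λ
  M : Λ → Γ → Option (Λ × Act Γ)
  q0 : Λ
  blank : Γ
  s0 : Γ
  s1 : Γ
  s2 : Γ
  bad : Γ

/-- initial configuration for input `m` -/
def TMData.init (d : TMData) (m : ℕ) : ACfg d.Γ d.Λ :=
  ⟨d.q0, 0, fun p => open Classical in if p = 0 then d.s0 else if p = 1 then d.s1
    else if 2 ≤ p ∧ p ≤ m + 1 then d.s2 else d.blank⟩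

/-- the machine halts on input `m` and the symbol at the right of the head is not `bad` -/
def TMData.HaltsGood (d : TMData) (m : ℕ) : Prop :=
  ∃ n c, arun d.M (d.init m) n = some c ∧ astep d.M c = none ∧ c.tape (c.h + 1) ≠ d.bad

/-- the machine halts on input `m` and the symbol at the right of the head is `bad` -/
def TMData.HaltsBad (d : TMData) (m : ℕ) : Prop :=
  ∃ n c, arun d.M (d.init m) n = some c ∧ astep d.M c = none ∧ c.tape (c.h + 1) = d.bad

/-- no computable function separates the two halting sets -/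
def TMData.Insep (d : TMData) : Prop :=
  ¬ ∃ D : ℕ → Bool, Computable D ∧ (∀ m, d.HaltsGood m → D m = false) ∧
    ∀ m, d.HaltsBad m → D m = true

/-! ### the local system of a machine and an input -/

/-- status of a cell: no head, head in state `q`, head arrives from the left / right in state `q` in
the next row -/
inductive St (Λ : Type) : Type
  | idle : St Λ
  | head (q : Λ) : St Λ
  | fromL (q : Λ) : St Λ
  | fromR (q : Λ) : St Λ
  deriving Fintype

/-- cells of the space-time diagram; `none` is the dead cell -/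
abbrev Cell (Γ Λ : Type) : Type := Option (Γ × St Λ)

section Cells

variable (d : TMData)

noncomputable instance : Fintype (Cell d.Γ d.Λ) :=
  open Classical in
  haveI := d.finΓ
  haveI := d.finΛ
  inferInstance

/-- numbers of cells -/
noncomputable def TMData.num (c : Cell d.Γ d.Λ) : ℕ := (Fintype.equivFin (Cell d.Γ d.Λ) c : ℕ)

/-- the symbol of the initial tape in a column of class `i` -/
def TMData.initSym (i : ℕ) : d.Γ :=
  if i < 10 then d.blank else if i = 10 then d.s0 else if i = 11 then d.s1 else d.s2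

/-- cells allowed in a column of class `i` and a row of class `l` (`6` is the class of row `0`,
`10 + p` is the class of column `p`, `0 ≤ p ≤ m + 1`) -/
def TMData.Allowed (i l : ℕ) (c : Cell d.Γ d.Λ) : Prop :=
  l = 6 → (i = 10 ∧ c = some (d.initSym i, St.head d.q0)) ∨
    (i ≠ 10 ∧ ∃ st, c = some (d.initSym i, st) ∧ ∀ q, st ≠ St.head q)

/-- `a` may be the left neighbour of `b` -/
def TMData.HOK : Cell d.Γ d.Λ → Cell d.Γ d.Λ → Prop
  | none, none => True
  | none, some _ => False
  | some _, none => False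
  | some (s, st), some (s', st') =>
    (∀ q', st' = St.fromL q' ↔ ∃ q, st = St.head q ∧ d.M q s = some (q', Act.right)) ∧
    (∀ q', st = St.fromR q' ↔ ∃ q, st' = St.head q ∧ d.M q s' = some (q', Act.left)) ∧
    ∀ q, st = St.head q → d.M q s = none → s' ≠ d.bad

/-- `b` may be the upper neighbour (next time step) of `a` -/
def TMData.VOK : Cell d.Γ d.Λ → Cell d.Γ d.Λ → Prop
  | none, b => b = none
  | some (s, .idle), b => b = none ∨ ∃ st, b = some (s, st) ∧ ∀ q, st ≠ St.head q
  | some (s, .fromL q), b => b = some (s, St.head q)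
  | some (s, .fromR q), b => b = some (s, St.head q)
  | some (s, .head q), b =>
    match d.M q s with
    | none => b = none
    | some (q', .write s') => b = some (s', St.head q')
    | some (_, .left) => ∃ st, b = some (s, st) ∧ ∀ q, st ≠ St.head q
    | some (_, .right) => ∃ st, b = some (s, st) ∧ ∀ q, st ≠ St.head q

/-- the local system.  Column classes: `10 + p` for column `p ∈ [0, m+1]`, `0, 1, 2` cyclically for
the columns to the right of these, `3, 4, 5` cyclically (going left) for the negative columns.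
Row classes: `6` for row `0`, `7, 8, 9` cyclically for the other rows. -/
noncomputable def TMData.sys (m : ℕ) : Sys where
  EC i i' := (i = 0 ∧ i' = 1) ∨ (i = 1 ∧ i' = 2) ∨ (i = 2 ∧ i' = 0) ∨ (i = 3 ∧ i' = 4) ∨
    (i = 4 ∧ i' = 5) ∨ (i = 5 ∧ i' = 3) ∨ (i = 10 ∧ i' = 3) ∨
    (10 ≤ i ∧ i ≤ m + 10 ∧ i' = i + 1) ∨ (i = m + 11 ∧ i' = 0)
  ER l l' := (l = 6 ∧ l' = 7) ∨ (l = 7 ∧ l' = 8) ∨ (l = 8 ∧ l' = 9) ∨ (l = 9 ∧ l' = 7)
  KC i := i < 6 ∨ (10 ≤ i ∧ i ≤ m + 11)
  KR l := 6 ≤ l ∧ l ≤ 9
  i0 := 10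
  l0 := 6
  Lab i l := open Classical in
    (Finset.univ.filter (fun c : Cell d.Γ d.Λ => d.Allowed i l c)).image d.num
  FC _ i' _ t t' := ∃ a b : Cell d.Γ d.Λ, d.num a = t ∧ d.num b = t' ∧
    ((3 ≤ i' ∧ i' ≤ 5 ∧ ¬ d.HOK b a) ∨ (¬ (3 ≤ i' ∧ i' ≤ 5) ∧ ¬ d.HOK a b))
  FR _ _ _ t t' := ∃ a b : Cell d.Γ d.Λ, d.num a = t ∧ d.num b = t' ∧ ¬ d.VOK a b

end Cells

/-! ### the stage construction (finite injury) -/

/-- entries of the state: (requirement, stage, position, forced value) -/
abbrev Entry : Type := ℕ × ℕ × ℕ × Bool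

/-- one plus the last stage at which a requirement smaller than `r` has acted (`0` if none) -/
def lastHigher (r : ℕ) (L : List Entry) : ℕ :=
  L.foldr (fun e m => if e.1 < r then max (e.2.1 + 1) m else m) 0

/-- requirement `r` has acted at some stage `≥ t` -/
def acted (r t : ℕ) (L : List Entry) : Bool :=
  L.foldr (fun e b => b || (decide (e.1 = r) && decide (t ≤ e.2.1))) false

/-- current value at position `p` of the oracle in which column `i` is erased -/
def zval (i : ℕ) (L : List Entry) (p : ℕ) : Bool :=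
  !(decide (p.unpair.1 = i)) && L.foldr (fun e b => b || (decide (e.2.2.1 = p) && e.2.2.2)) false

/-- initial segment of length `k` of that oracle -/
def zpre (i : ℕ) (L : List Entry) (k : ℕ) : List Bool := (List.range k).map (zval i L)

/-- run program `e` with fuel `u` on the string `σ`; if the result is a string of length `> n`, return
its entry number `n` -/
def query (e u n : ℕ) (σ : List Bool) : Option Bool :=
  (Nat.Partrec.Code.evaln u (Denumerable.ofNat Nat.Partrec.Code e) (Encodable.encode σ)).bind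
    fun m => (Encodable.decode (α := List Bool) m).bind fun τ => τ[n]?

/-- the position used by requirement `r` in state `L` -/
def posn (r : ℕ) (L : List Entry) : ℕ := Nat.pair r.unpair.1 (Nat.pair r (lastHigher r L))

/-- one stage of the construction; stage `s` is a code for `(r, k, u, w)`: requirement, length of the
oracle string, fuel, dummy -/
def stepE (s : ℕ) (L : List Entry) : List Entry :=
  if acted s.unpair.1 (lastHigher s.unpair.1 L) L then L
  else
    match query s.unpair.1.unpair.2 s.unpair.2.unpair.2.unpair.1 (posn s.unpair.1 L)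
      (zpre s.unpair.1.unpair.1 L s.unpair.2.unpair.1) with
    | none => L
    | some v => (s.unpair.1, s, posn s.unpair.1 L, !v) :: L

/-- the state before stage `s` -/
def stage : ℕ → List Entry
  | 0 => []
  | s + 1 => stepE s (stage s)

end Pool.Agent.Lib.MUD
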