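/-
MP_9f7f62_lc, module A1: the distributive lattice of Medvedev degrees of nonempty effectively closed
subsets of Cantor space.
-/
import Pool.Agent.Lib.MP_9f7f62_lc.Defs

namespace Pool.Agent.Lib.MUD

/-! ### initial segments -/

theorem pre_length (f : ℕ → Bool) (n : ℕ) : (pre f n).length = n := by simp [pre]

theorem pre_mono (f : ℕ → Bool) {m n : ℕ} (h : m ≤ n) : pre f m <+: pre f n := by
  obtain ⟨k, rfl⟩ := Nat.exists_eq_add_of_le h
  rw [pre, pre, List.range_add, List.map_append]
  exact List.prefix_append _ _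

theorem pre_getD (f : ℕ → Bool) {n i : ℕ} (h : i < n) : (pre f n).getD i false = f i := by
  simp [pre, List.getD, h]

theorem pre_ext {f : ℕ → Bool} {n : ℕ} {σ : List Bool} (h1 : σ.length = n)
    (h2 : ∀ i < n, σ.getD i false = f i) : σ = pre f n := by
  apply List.ext_getElem (by rw [h1, pre_length])
  intro i hi hi'
  have := h2 i (h1 ▸ hi)
  rw [List.getD_eq_getElem _ _ hi] at this
  rw [this]
  simp [pre]

theorem prefix_getD {σ τ : List Bool} (h : σ <+: τ) {i : ℕ} (hi : i < σ.length) :
    σ.getD i false = τ.getD i false := by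
  obtain ⟨ρ, rfl⟩ := h
  rw [List.getD_append _ _ _ _ hi]

/-! ### building functionals -/

theorem comp_rangeMap {α : Type} [Primcodable α] {len : α → ℕ} {h : α → ℕ → Bool}
    (hl : Computable len) (hh : Computable₂ h) :
    Computable (fun a => (List.range (len a)).map (h a)) := by
  have h1 : ∀ a n, (List.range n).map (h a) =
      Nat.rec ([] : List Bool) (fun y IH => IH ++ [h a y]) n := by
    intro a n
    induction n with
    | zero => rfl
    | succ n ih => rw [List.range_succ, List.map_append, ih]; rfl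
  simp_rw [h1]
  refine Computable.nat_rec (h := fun a (p : ℕ × List Bool) => p.2 ++ [h a p.1]) hl
    (Computable.const []) ?_
  have h2 : Computable (fun q : α × (ℕ × List Bool) => q.2.2 ++ [h q.1 q.2.1]) :=
    Computable.list_concat.comp (Computable.snd.comp Computable.snd)
      (hh.comp Computable.fst (Computable.fst.comp Computable.snd))
  exact h2.to₂

/-- the functional given by a length function and an entry function -/
def mkFun (len : List Bool → ℕ) (h : List Bool → ℕ → Bool) (hl : Computable len)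
    (hh : Computable₂ h) (h1 : ∀ σ τ : List Bool, σ <+: τ → len σ ≤ len τ)
    (h2 : ∀ σ τ : List Bool, σ <+: τ → ∀ n < len σ, h σ n = h τ n) : Functional where
  map σ := (List.range (len σ)).map (h σ)
  computable := comp_rangeMap hl hh
  mono σ τ hst := by
    obtain ⟨k, hk⟩ := Nat.exists_eq_add_of_le (h1 σ τ hst)
    have : (List.range (len σ)).map (h σ) = (List.range (len σ)).map (h τ) := by
      apply List.map_congr_left
      intro n hn
      exact h2 σ τ hst n (List.mem_range.1 hn)
    rw [this, hk, List.range_add, List.map_append]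
    exact List.prefix_append _ _

theorem mkFun_computes (len : List Bool → ℕ) (h : List Bool → ℕ → Bool) (hl : Computable len)
    (hh : Computable₂ h) (h1 : ∀ σ τ : List Bool, σ <+: τ → len σ ≤ len τ)
    (h2 : ∀ σ τ : List Bool, σ <+: τ → ∀ n < len σ, h σ n = h τ n) (g f : ℕ → Bool)
    (h3 : ∀ n, ∃ k, n ≤ len (pre g k)) (h4 : ∀ k, ∀ n < len (pre g k), h (pre g k) n = f n) :
    (mkFun len h hl hh h1 h2).Computes g f := by
  refine ⟨fun k => ⟨len (pre g k), ?_⟩, fun n => ?_⟩
  · change (List.range (len (pre g k))).map (h (pre g k)) = (List.range (len (pre g k))).map f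
    apply List.map_congr_left
    intro n hn
    exact h4 k n (List.mem_range.1 hn)
  · obtain ⟨k, hk⟩ := h3 n
    exact ⟨k, by simpa [mkFun] using hk⟩

/-- composition with a computable index function -/
def idxFun (idx len : ℕ → ℕ) (hi : Computable idx) (hl : Computable len)
    (h1 : Monotone len) (h2 : ∀ k, ∀ n < len k, idx n < k) : Functional :=
  mkFun (fun σ => len σ.length) (fun σ n => σ.getD (idx n) false)
    (hl.comp Computable.list_length)
    ((((Primrec.list_getD false).to_comp.comp Computable.fst (hi.comp Computable.snd) :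
      Computable (fun p : List Bool × ℕ => p.1.getD (idx p.2) false))).to₂)
    (fun _ _ h => h1 h.length_le)
    (fun σ _ h n hn => prefix_getD h (h2 σ.length n hn))

theorem idxFun_computes (idx len : ℕ → ℕ) (hi : Computable idx) (hl : Computable len)
    (h1 : Monotone len) (h2 : ∀ k, ∀ n < len k, idx n < k) (h3 : ∀ n, ∃ k, n ≤ len k)
    (g : ℕ → Bool) : (idxFun idx len hi hl h1 h2).Computes g (fun n => g (idx n)) := by
  refine mkFun_computes _ _ _ _ _ _ _ _ ?_ ?_
  · intro n
    obtain ⟨k, hk⟩ := h3 n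
    exact ⟨k, by rwa [pre_length]⟩
  · intro k n hn
    rw [pre_length] at hn
    exact pre_getD g (h2 k n hn)

theorem med_of_idx (idx len : ℕ → ℕ) (hi : Computable idx) (hl : Computable len)
    (h1 : Monotone len) (h2 : ∀ k, ∀ n < len k, idx n < k) (h3 : ∀ n, ∃ k, n ≤ len k)
    {P Q : Set (ℕ → Bool)} (h : ∀ g ∈ Q, (fun n => g (idx n)) ∈ P) : Med P Q :=
  ⟨idxFun idx len hi hl h1 h2, fun g hg => ⟨_, h g hg, idxFun_computes idx len hi hl h1 h2 h3 g⟩⟩

/-- a subset of a class is Medvedev above it -/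
theorem med_of_subset {P Q : Set (ℕ → Bool)} (h : Q ⊆ P) : Med P Q :=
  med_of_idx id id Computable.id Computable.id monotone_id (fun _ _ h => h) (fun n => ⟨n, le_rfl⟩)
    (fun _ hg => h hg)

theorem med_refl (P : Set (ℕ → Bool)) : Med P P := med_of_subset subset_rfl

/-- the output is determined -/
theorem Functional.Computes.length_eq {Φ : Functional} {g f : ℕ → Bool} (h : Φ.Computes g f)
    (k : ℕ) : Φ.map (pre g k) = pre f (Φ.map (pre g k)).length := by
  obtain ⟨n, hn⟩ := h.1 k
  rw [hn, pre_length]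

/-- composition of functionals -/
def Functional.comp (Φ Ψ : Functional) : Functional where
  map σ := Φ.map (Ψ.map σ)
  computable := Φ.computable.comp Ψ.computable
  mono _ _ h := Φ.mono _ _ (Ψ.mono _ _ h)

theorem Functional.comp_computes {Φ Ψ : Functional} {g f e : ℕ → Bool} (h : Ψ.Computes g f)
    (h' : Φ.Computes f e) : (Φ.comp Ψ).Computes g e := by
  refine ⟨fun k => ?_, fun n => ?_⟩
  · obtain ⟨n, hn⟩ := h.1 k
    obtain ⟨m, hm⟩ := h'.1 n
    exact ⟨m, by rw [← hm, ← hn]; rfl⟩
  · obtain ⟨k, hk⟩ := h'.2 n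
    obtain ⟨j, hj⟩ := h.2 k
    refine ⟨j, hk.trans ?_⟩
    change _ ≤ (Φ.map (Ψ.map (pre g j))).length
    rw [h.length_eq j]
    exact (Φ.mono _ _ (pre_mono f hj)).length_le

theorem med_trans {P Q R : Set (ℕ → Bool)} (h : Med P Q) (h' : Med Q R) : Med P R := by
  obtain ⟨Φ, hΦ⟩ := h
  obtain ⟨Ψ, hΨ⟩ := h'
  refine ⟨Φ.comp Ψ, fun g hg => ?_⟩
  obtain ⟨f, hf, h1⟩ := hΨ g hg
  obtain ⟨e, he, h2⟩ := hΦ f hf
  exact ⟨e, he, Functional.comp_computes h1 h2⟩

instance : Preorder ECl where
  le P Q := Med P.carrier Q.carrier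
  le_refl P := med_refl _
  le_trans _ _ _ h h' := med_trans h h'

/-- the Medvedev degrees of nonempty effectively closed subsets of Cantor space -/
abbrev MedDeg : Type := Antisymmetrization ECl (· ≤ ·)

/-- the degree of a class -/
def ECl.deg (P : ECl) : MedDeg := toAntisymmetrization (· ≤ ·) P

theorem deg_le {P Q : ECl} : P.deg ≤ Q.deg ↔ Med P.carrier Q.carrier := Iff.rfl

theorem deg_surj (x : MedDeg) : ∃ P : ECl, P.deg = x := by
  induction x using Quotient.inductionOn with
  | h P => exact ⟨P, rfl⟩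

/-! ### closure properties of effectively closed classes -/

theorem isPi01_inter {P Q : Set (ℕ → Bool)} (hP : IsPi01 P) (hQ : IsPi01 Q) :
    IsPi01 (P ∩ Q) := by
  obtain ⟨S, rfl⟩ := hP
  obtain ⟨T, rfl⟩ := hQ
  refine ⟨⟨fun σ => S.mem σ && T.mem σ, ?_, ?_⟩, ?_⟩
  · exact (Primrec.and.to_comp).comp S.computable T.computable
  · intro σ τ h hτ
    rw [Bool.and_eq_true] at hτ ⊢
    exact ⟨S.closed σ τ h hτ.1, T.closed σ τ h hτ.2⟩
  · ext f
    simp only [CompTree.paths, Set.mem_inter_iff, Set.mem_ofPred_eq, Bool.and_eq_true]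
    exact forall_and.symm

theorem isPi01_union {P Q : Set (ℕ → Bool)} (hP : IsPi01 P) (hQ : IsPi01 Q) :
    IsPi01 (P ∪ Q) := by
  obtain ⟨S, rfl⟩ := hP
  obtain ⟨T, rfl⟩ := hQ
  refine ⟨⟨fun σ => S.mem σ || T.mem σ, ?_, ?_⟩, ?_⟩
  · exact (Primrec.or.to_comp).comp S.computable T.computable
  · intro σ τ h hτ
    rw [Bool.or_eq_true] at hτ ⊢
    exact hτ.imp (S.closed σ τ h) (T.closed σ τ h)
  · ext f
    simp only [CompTree.paths, Set.mem_union, Set.mem_ofPred_eq, Bool.or_eq_true]
    constructor
    · rintro (h | h) n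
      · exact Or.inl (h n)
      · exact Or.inr (h n)
    · intro h
      by_contra hcon
      push Not at hcon
      obtain ⟨⟨m, hm⟩, ⟨n, hn⟩⟩ := hcon
      rcases h (max m n) with h | h
      · exact hm (S.closed _ _ (pre_mono f (le_max_left m n)) h)
      · exact hn (T.closed _ _ (pre_mono f (le_max_right m n)) h)

theorem isPi01_preimage (Φ : Functional) (F : (ℕ → Bool) → ℕ → Bool)
    (hF : ∀ g, Φ.Computes g (F g)) {P : Set (ℕ → Bool)} (hP : IsPi01 P) :
    IsPi01 {g | F g ∈ P} := by
  obtain ⟨T, rfl⟩ := hP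
  refine ⟨⟨fun σ => T.mem (Φ.map σ), T.computable.comp Φ.computable,
    fun σ τ h => T.closed _ _ (Φ.mono σ τ h)⟩, ?_⟩
  ext g
  simp only [CompTree.paths, Set.mem_ofPred_eq]
  constructor
  · intro h n
    rw [(hF g).length_eq n]
    exact h _
  · intro h n
    obtain ⟨k, hk⟩ := (hF g).2 n
    have := h k
    rw [(hF g).length_eq k] at this
    exact T.closed _ _ (pre_mono _ hk) this

theorem pre_take (f : ℕ → Bool) (m n : ℕ) : (pre f n).take m = pre f (min m n) := by
  rw [pre, pre, ← List.map_take, List.take_range]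

theorem isPi01_above (σ : List Bool) : IsPi01 {f | pre f σ.length = σ} := by
  refine ⟨⟨fun τ => decide (τ.take σ.length = σ.take τ.length), ?_, ?_⟩, ?_⟩
  · have h1 : Primrec (fun τ : List Bool => τ.take σ.length) :=
      Primrec.list_take.comp (Primrec.const _) Primrec.id
    have h2 : Primrec (fun τ : List Bool => σ.take τ.length) :=
      Primrec.list_take.comp Primrec.list_length (Primrec.const _)
    exact (Primrec.eq.decide.comp h1 h2).to_comp
  · intro τ τ' h h'
    rw [decide_eq_true_eq] at h' ⊢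
    obtain ⟨ρ, rfl⟩ := h
    have h2 := congrArg (List.take τ.length) h'
    rw [List.take_take, List.take_take, List.length_append, min_eq_left (Nat.le_add_right _ _),
      Nat.min_comm, ← List.take_take, List.take_left] at h2
    exact h2
  · ext f
    simp only [CompTree.paths, Set.mem_ofPred_eq, decide_eq_true_eq, pre_length]
    constructor
    · intro h n
      rw [pre_take]
      have : σ.take n = pre f (min n σ.length) := by
        conv_lhs => rw [← h]
        rw [pre_take]
      rw [this, Nat.min_comm]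
    · intro h
      have := h σ.length
      rwa [List.take_of_length_le (by simp [pre_length]), List.take_length] at this

/-- the part of a set above a string -/
def cyl (P : Set (ℕ → Bool)) (σ : List Bool) : Set (ℕ → Bool) := {f ∈ P | pre f σ.length = σ}

theorem isPi01_cyl {P : Set (ℕ → Bool)} (hP : IsPi01 P) (σ : List Bool) : IsPi01 (cyl P σ) :=
  isPi01_inter hP (isPi01_above σ)

/-! ### the lattice operations -/

/-- the product class -/
def joinSet (P Q : Set (ℕ → Bool)) : Set (ℕ → Bool) :=
  {h | (fun n => h (2 * n)) ∈ P ∧ (fun n => h (2 * n + 1)) ∈ Q}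

/-- the disjoint union -/
def meetSet (P Q : Set (ℕ → Bool)) : Set (ℕ → Bool) :=
  {h | (h 0 = false ∧ (fun n => h (n + 1)) ∈ P) ∨ (h 0 = true ∧ (fun n => h (n + 1)) ∈ Q)}

theorem comp_double : Computable (fun n : ℕ => 2 * n) :=
  (Primrec.nat_mul.comp (Primrec.const 2) Primrec.id).to_comp

theorem comp_double_succ : Computable (fun n : ℕ => 2 * n + 1) :=
  (Primrec.succ.comp (Primrec.nat_mul.comp (Primrec.const 2) Primrec.id)).to_comp

theorem comp_half : Computable (fun n : ℕ => n / 2) :=
  (Primrec.nat_div.comp Primrec.id (Primrec.const 2)).to_comp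

theorem comp_pred : Computable (fun n : ℕ => n - 1) :=
  (Primrec.nat_sub.comp Primrec.id (Primrec.const 1)).to_comp

/-- the functional `h ↦ h(2·)` -/
def evenF : Functional := idxFun (fun n => 2 * n) (fun n => n / 2) comp_double comp_half
  (fun _ _ h => Nat.div_le_div_right h) (fun k n h => by omega)

theorem evenF_computes (g : ℕ → Bool) : evenF.Computes g (fun n => g (2 * n)) :=
  idxFun_computes _ _ _ _ _ _ (fun n => ⟨2 * n, by simp⟩) g

/-- the functional `h ↦ h(2·+1)` -/
def oddF : Functional := idxFun (fun n => 2 * n + 1) (fun n => n / 2) comp_double_succ comp_half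
  (fun _ _ h => Nat.div_le_div_right h) (fun k n h => by omega)

theorem oddF_computes (g : ℕ → Bool) : oddF.Computes g (fun n => g (2 * n + 1)) :=
  idxFun_computes _ _ _ _ _ _ (fun n => ⟨2 * n, by simp⟩) g

/-- the functional `h ↦ h(·+1)` -/
def tailF : Functional := idxFun (fun n => n + 1) (fun n => n - 1) Primrec.succ.to_comp comp_pred
  (fun _ _ h => Nat.sub_le_sub_right h 1) (fun k n h => by omega)

theorem tailF_computes (g : ℕ → Bool) : tailF.Computes g (fun n => g (n + 1)) :=
  idxFun_computes _ _ _ _ _ _ (fun n => ⟨n + 1, by simp⟩) g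

theorem isPi01_join {P Q : Set (ℕ → Bool)} (hP : IsPi01 P) (hQ : IsPi01 Q) :
    IsPi01 (joinSet P Q) :=
  isPi01_inter (isPi01_preimage evenF _ evenF_computes hP)
    (isPi01_preimage oddF _ oddF_computes hQ)

theorem isPi01_meet {P Q : Set (ℕ → Bool)} (hP : IsPi01 P) (hQ : IsPi01 Q) :
    IsPi01 (meetSet P Q) := by
  have h1 := isPi01_union
    (isPi01_inter (isPi01_above [false]) (isPi01_preimage tailF _ tailF_computes hP))
    (isPi01_inter (isPi01_above [true]) (isPi01_preimage tailF _ tailF_computes hQ))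
  convert h1 using 1
  ext f
  simp [meetSet, pre, List.range_succ]

/-- interleaving two sequences -/
def zipSeq (f g : ℕ → Bool) : ℕ → Bool := fun n => if n % 2 = 0 then f (n / 2) else g (n / 2)

@[simp] theorem zipSeq_even (f g : ℕ → Bool) (n : ℕ) : zipSeq f g (2 * n) = f n := by
  simp [zipSeq]

@[simp] theorem zipSeq_odd (f g : ℕ → Bool) (n : ℕ) : zipSeq f g (2 * n + 1) = g n := by
  have h1 : (2 * n + 1) % 2 = 1 := by omega
  have h2 : (2 * n + 1) / 2 = n := by omega
  simp [zipSeq, h1, h2]

/-- adding an entry in front -/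
def consSeq (b : Bool) (f : ℕ → Bool) : ℕ → Bool
  | 0 => b
  | n + 1 => f n

theorem pre_consSeq (b : Bool) (f : ℕ → Bool) (n : ℕ) :
    pre (consSeq b f) (n + 1) = b :: pre f n := by
  simp [pre, List.range_succ_eq_map, Function.comp_def, consSeq]

theorem consSeq_tail {g : ℕ → Bool} {b : Bool} (h : g 0 = b) :
    consSeq b (fun n => g (n + 1)) = g := by
  funext n
  cases n with
  | zero => exact h.symm
  | succ n => rfl

theorem joinSet_nonempty {P Q : Set (ℕ → Bool)} (hP : P.Nonempty) (hQ : Q.Nonempty) :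
    (joinSet P Q).Nonempty := by
  obtain ⟨f, hf⟩ := hP
  obtain ⟨g, hg⟩ := hQ
  exact ⟨zipSeq f g, by simpa [joinSet] using ⟨hf, hg⟩⟩

theorem meetSet_nonempty {P Q : Set (ℕ → Bool)} (hP : P.Nonempty) :
    (meetSet P Q).Nonempty := by
  obtain ⟨f, hf⟩ := hP
  exact ⟨consSeq false f, Or.inl ⟨rfl, hf⟩⟩

def ECl.join (P Q : ECl) : ECl :=
  ⟨joinSet P.carrier Q.carrier, isPi01_join P.pi01 Q.pi01, joinSet_nonempty P.nonempty Q.nonempty⟩

def ECl.meet (P Q : ECl) : ECl :=
  ⟨meetSet P.carrier Q.carrier, isPi01_meet P.pi01 Q.pi01, meetSet_nonempty P.nonempty⟩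

theorem med_join_left (P Q : Set (ℕ → Bool)) : Med P (joinSet P Q) :=
  ⟨evenF, fun g hg => ⟨_, hg.1, evenF_computes g⟩⟩

theorem med_join_right (P Q : Set (ℕ → Bool)) : Med Q (joinSet P Q) :=
  ⟨oddF, fun g hg => ⟨_, hg.2, oddF_computes g⟩⟩

/-- interleaving two functionals -/
def zipF (Φ Ψ : Functional) : Functional :=
  mkFun (fun σ => 2 * min (Φ.map σ).length (Ψ.map σ).length)
    (fun σ n => bif decide (n % 2 = 0) then (Φ.map σ).getD (n / 2) false
      else (Ψ.map σ).getD (n / 2) false)
    (comp_double.comp ((Primrec.nat_min.to_comp).comp (Computable.list_length.comp Φ.computable)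
      (Computable.list_length.comp Ψ.computable)))
    (by
      have h1 : Computable (fun p : List Bool × ℕ => decide (p.2 % 2 = 0)) :=
        ((Primrec.eq.decide.comp (Primrec.nat_mod.comp Primrec.id (Primrec.const 2))
          (Primrec.const 0)).to_comp).comp Computable.snd
      have h2 : Computable (fun p : List Bool × ℕ => (Φ.map p.1).getD (p.2 / 2) false) :=
        (Primrec.list_getD false).to_comp.comp (Φ.computable.comp Computable.fst)
          (comp_half.comp Computable.snd)
      have h3 : Computable (fun p : List Bool × ℕ => (Ψ.map p.1).getD (p.2 / 2) false) :=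
        (Primrec.list_getD false).to_comp.comp (Ψ.computable.comp Computable.fst)
          (comp_half.comp Computable.snd)
      exact (Computable.cond h1 h2 h3).to₂)
    (fun σ τ h => by
      have h1 := (Φ.mono σ τ h).length_le
      have h2 := (Ψ.mono σ τ h).length_le
      omega)
    (fun σ τ h n hn => by
      rw [prefix_getD (Φ.mono σ τ h) (by omega), prefix_getD (Ψ.mono σ τ h) (by omega)])

theorem zipF_computes {Φ Ψ : Functional} {g f e : ℕ → Bool} (h : Φ.Computes g f)
    (h' : Ψ.Computes g e) : (zipF Φ Ψ).Computes g (zipSeq f e) := by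
  refine mkFun_computes _ _ _ _ _ _ _ _ ?_ ?_
  · intro n
    obtain ⟨k, hk⟩ := h.2 n
    obtain ⟨j, hj⟩ := h'.2 n
    have h1 := (Φ.mono _ _ (pre_mono g (le_max_left k j))).length_le
    have h2 := (Ψ.mono _ _ (pre_mono g (le_max_right k j))).length_le
    exact ⟨max k j, by omega⟩
  · intro k n hn
    rw [h.length_eq k, h'.length_eq k, pre_getD f (by omega), pre_getD e (by omega)]
    by_cases h0 : n % 2 = 0 <;> simp [zipSeq, h0]

theorem med_join_least {P Q R : Set (ℕ → Bool)} (h : Med P R) (h' : Med Q R) :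
    Med (joinSet P Q) R := by
  obtain ⟨Φ, hΦ⟩ := h
  obtain ⟨Ψ, hΨ⟩ := h'
  refine ⟨zipF Φ Ψ, fun g hg => ?_⟩
  obtain ⟨f, hf, h1⟩ := hΦ g hg
  obtain ⟨e, he, h2⟩ := hΨ g hg
  exact ⟨zipSeq f e, by simpa [joinSet] using ⟨hf, he⟩, zipF_computes h1 h2⟩

/-- adding an entry in front -/
def consF (b : Bool) : Functional where
  map σ := b :: σ
  computable := (Primrec.list_cons.comp (Primrec.const b) Primrec.id).to_comp
  mono _ _ h := List.cons_prefix_cons.2 ⟨rfl, h⟩

theorem consF_computes (b : Bool) (g : ℕ → Bool) : (consF b).Computes g (consSeq b g) :=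
  ⟨fun k => ⟨k + 1, (pre_consSeq b g k).symm⟩, fun n => ⟨n, by simp [consF, pre_length]⟩⟩

theorem med_meet_left (P Q : Set (ℕ → Bool)) : Med (meetSet P Q) P :=
  ⟨consF false, fun g hg => ⟨_, Or.inl ⟨rfl, hg⟩, consF_computes false g⟩⟩

theorem med_meet_right (P Q : Set (ℕ → Bool)) : Med (meetSet P Q) Q :=
  ⟨consF true, fun g hg => ⟨_, Or.inr ⟨rfl, hg⟩, consF_computes true g⟩⟩

/-- case distinction on the first entry -/
def caseF (Φ Ψ : Functional) : Functional where
  map σ := Option.casesOn σ.head? [] fun b => bif b then Ψ.map σ.tail else Φ.map σ.tail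
  computable := by
    refine Computable.option_casesOn Primrec.list_head?.to_comp (Computable.const []) ?_
    have ht : Computable (fun p : List Bool × Bool => p.1.tail) :=
      (Primrec.list_tail.comp Primrec.fst).to_comp
    exact (Computable.cond Computable.snd (Ψ.computable.comp ht) (Φ.computable.comp ht)).to₂
  mono σ τ h := by
    cases σ with
    | nil => exact List.nil_prefix
    | cons b s =>
      cases τ with
      | nil => simp at h
      | cons c t =>
        obtain ⟨h1, h2⟩ := List.cons_prefix_cons.1 h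
        subst h1
        cases b
        · exact Φ.mono _ _ h2
        · exact Ψ.mono _ _ h2

theorem caseF_computes_false {Φ Ψ : Functional} {g f : ℕ → Bool} (h : Φ.Computes g f) :
    (caseF Φ Ψ).Computes (consSeq false g) f := by
  refine ⟨fun k => ?_, fun n => ?_⟩
  · cases k with
    | zero => exact ⟨0, rfl⟩
    | succ k => rw [pre_consSeq]; exact h.1 k
  · obtain ⟨k, hk⟩ := h.2 n
    exact ⟨k + 1, by rw [pre_consSeq]; exact hk⟩

theorem caseF_computes_true {Φ Ψ : Functional} {g f : ℕ → Bool} (h : Ψ.Computes g f) :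
    (caseF Φ Ψ).Computes (consSeq true g) f := by
  refine ⟨fun k => ?_, fun n => ?_⟩
  · cases k with
    | zero => exact ⟨0, rfl⟩
    | succ k => rw [pre_consSeq]; exact h.1 k
  · obtain ⟨k, hk⟩ := h.2 n
    exact ⟨k + 1, by rw [pre_consSeq]; exact hk⟩

theorem med_meet_greatest {P Q R : Set (ℕ → Bool)} (h : Med R P) (h' : Med R Q) :
    Med R (meetSet P Q) := by
  obtain ⟨Φ, hΦ⟩ := h
  obtain ⟨Ψ, hΨ⟩ := h'
  refine ⟨caseF Φ Ψ, ?_⟩
  rintro g (⟨h0, hg⟩ | ⟨h0, hg⟩)
  · obtain ⟨f, hf, h1⟩ := hΦ _ hg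
    refine ⟨f, hf, ?_⟩
    rw [← consSeq_tail h0]
    exact caseF_computes_false h1
  · obtain ⟨f, hf, h1⟩ := hΨ _ hg
    refine ⟨f, hf, ?_⟩
    rw [← consSeq_tail h0]
    exact caseF_computes_true h1

theorem med_distrib (P Q R : Set (ℕ → Bool)) :
    Med (meetSet (joinSet P Q) (joinSet P R)) (joinSet P (meetSet Q R)) := by
  refine med_of_idx (fun n => if n = 0 then 1 else if n % 2 = 1 then n - 1 else n + 1)
    (fun k => k - 1) ?_ comp_pred (fun _ _ h => Nat.sub_le_sub_right h 1) ?_ ?_ ?_
  · refine Primrec.to_comp ?_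
    refine Primrec.ite (Primrec.eq.comp Primrec.id (Primrec.const 0)) (Primrec.const 1) ?_
    refine Primrec.ite (Primrec.eq.comp (Primrec.nat_mod.comp Primrec.id (Primrec.const 2))
      (Primrec.const 1)) ?_ ?_
    · exact Primrec.nat_sub.comp Primrec.id (Primrec.const 1)
    · exact Primrec.succ
  · intro k n hn
    split_ifs <;> omega
  · intro n
    exact ⟨n + 1, by simp⟩
  · rintro g ⟨h1, h2⟩
    have e0 : ∀ n, (if 2 * n + 1 = 0 then 1 else if (2 * n + 1) % 2 = 1 then 2 * n + 1 - 1
        else 2 * n + 1 + 1) = 2 * n := by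
      intro n
      rw [if_neg (by omega), if_pos (by omega)]
      omega
    have e1 : ∀ n, (if 2 * n + 1 + 1 = 0 then 1 else if (2 * n + 1 + 1) % 2 = 1
        then 2 * n + 1 + 1 - 1 else 2 * n + 1 + 1 + 1) = 2 * (n + 1) + 1 := by
      intro n
      rw [if_neg (by omega), if_neg (by omega)]
      omega
    rcases h2 with ⟨h0, h2⟩ | ⟨h0, h2⟩
    · refine Or.inl ⟨h0, ?_, ?_⟩
      · simpa only [e0] using h1
      · simpa only [e1] using h2
    · refine Or.inr ⟨h0, ?_, ?_⟩
      · simpa only [e0] using h1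
      · simpa only [e1] using h2

/-- join of degrees -/
def supDeg (x y : MedDeg) : MedDeg :=
  Quotient.map₂ (sc := AntisymmRel.setoid ECl (· ≤ ·)) ECl.join (by
    intro P P' hP Q Q' hQ
    exact ⟨med_join_least (med_trans hP.1 (med_join_left _ _)) (med_trans hQ.1 (med_join_right _ _)),
      med_join_least (med_trans hP.2 (med_join_left _ _)) (med_trans hQ.2 (med_join_right _ _))⟩)
    x y

/-- meet of degrees -/
def infDeg (x y : MedDeg) : MedDeg :=
  Quotient.map₂ (sc := AntisymmRel.setoid ECl (· ≤ ·)) ECl.meet (by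
    intro P P' hP Q Q' hQ
    exact ⟨med_meet_greatest (med_trans (med_meet_left _ _) hP.1)
        (med_trans (med_meet_right _ _) hQ.1),
      med_meet_greatest (med_trans (med_meet_left _ _) hP.2)
        (med_trans (med_meet_right _ _) hQ.2)⟩) x y

/-- the lattice structure; the order is Medvedev reducibility -/
instance : DistribLattice MedDeg where
  sup := supDeg
  inf := infDeg
  le_sup_left x y := by
    obtain ⟨P, rfl⟩ := deg_surj x
    obtain ⟨Q, rfl⟩ := deg_surj y
    exact med_join_left _ _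
  le_sup_right x y := by
    obtain ⟨P, rfl⟩ := deg_surj x
    obtain ⟨Q, rfl⟩ := deg_surj y
    exact med_join_right _ _
  sup_le x y z h h' := by
    obtain ⟨P, rfl⟩ := deg_surj x
    obtain ⟨Q, rfl⟩ := deg_surj y
    obtain ⟨R, rfl⟩ := deg_surj z
    exact med_join_least h h'
  inf_le_left x y := by
    obtain ⟨P, rfl⟩ := deg_surj x
    obtain ⟨Q, rfl⟩ := deg_surj y
    exact med_meet_left _ _
  inf_le_right x y := by
    obtain ⟨P, rfl⟩ := deg_surj x
    obtain ⟨Q, rfl⟩ := deg_surj y
    exact med_meet_right _ _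
  le_inf x y z h h' := by
    obtain ⟨P, rfl⟩ := deg_surj x
    obtain ⟨Q, rfl⟩ := deg_surj y
    obtain ⟨R, rfl⟩ := deg_surj z
    exact med_meet_greatest h h'
  le_sup_inf x y z := by
    obtain ⟨P, rfl⟩ := deg_surj x
    obtain ⟨Q, rfl⟩ := deg_surj y
    obtain ⟨R, rfl⟩ := deg_surj z
    exact med_distrib _ _ _

theorem deg_sup (P Q : ECl) : P.deg ⊔ Q.deg = (P.join Q).deg := rfl

theorem deg_inf (P Q : ECl) : P.deg ⊓ Q.deg = (P.meet Q).deg := rfl

end Pool.Agent.Lib.MUD
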