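/-
MP_9f7f62_lc, module E: from a finite model of the local system to the lattice axioms.
-/
import Pool.Agent.Lib.MP_9f7f62_lc.Defs

namespace Pool.Agent.Lib.MUD

/-- finite meets of elements `b U`, with `v` as top -/
theorem compl_mm_aux {L : Type} [DistribLattice L] {P : Type} [DecidableEq P]
    (b : Finset P → L) (v : L) (hprime : ∀ U x y, x ⊓ y ≤ b U → x ≤ b U ∨ y ≤ b U)
    (hsub : ∀ U W, b U ≤ b W → U ⊆ W) (hv' : ∀ U, ¬ v ≤ b U) (s : Finset (Finset P)) :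
    ∃ z : L, z ≤ v ∧ (∀ U, U ∈ s → z ≤ b U) ∧
      (∀ w z', z' ≤ v ⊔ w → (∀ U, U ∈ s → z' ≤ b U ⊔ w) → z' ≤ z ⊔ w) ∧
      ∀ W, z ≤ b W → ∃ U, U ∈ s ∧ U ⊆ W := by
  classical
  induction s using Finset.induction_on with
  | empty =>
    refine ⟨v, le_rfl, by simp, fun w z' h _ => h, fun W h => absurd h (hv' W)⟩
  | insert U s _ ih =>
    obtain ⟨z, h1, h2, h3, h4⟩ := ih
    refine ⟨b U ⊓ z, inf_le_right.trans h1, ?_, ?_, ?_⟩
    · intro U' hU'
      rcases Finset.mem_insert.1 hU' with rfl | h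
      · exact inf_le_left
      · exact inf_le_right.trans (h2 U' h)
    · intro w z' hw hU
      rw [sup_inf_right]
      exact le_inf (hU U (Finset.mem_insert_self _ _))
        (h3 w z' hw fun U' hU' => hU U' (Finset.mem_insert_of_mem hU'))
    · intro W hW
      rcases hprime W _ _ hW with h | h
      · exact ⟨U, Finset.mem_insert_self _ _, hsub _ _ h⟩
      · obtain ⟨U', hU', hsub'⟩ := h4 W h
        exact ⟨U', Finset.mem_insert_of_mem hU', hsub'⟩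

theorem compl_mm {L : Type} [DistribLattice L] {P : Type} [Fintype P] [DecidableEq P]
    (b : Finset P → L) (v : L) (hprime : ∀ U x y, x ⊓ y ≤ b U → x ≤ b U ∨ y ≤ b U)
    (hsub : ∀ U W, b U ≤ b W → U ⊆ W) (hv' : ∀ U, ¬ v ≤ b U) (Q : Finset P → Prop) :
    ∃ z : L, z ≤ v ∧ (∀ U, Q U → z ≤ b U) ∧
      (∀ w z', z' ≤ v ⊔ w → (∀ U, Q U → z' ≤ b U ⊔ w) → z' ≤ z ⊔ w) ∧
      ∀ W, z ≤ b W → ∃ U, Q U ∧ U ⊆ W := by
  classical
  obtain ⟨z, h1, h2, h3, h4⟩ := compl_mm_aux b v hprime hsub hv' (Finset.univ.filter Q)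
  refine ⟨z, h1, fun U hU => h2 U (by simpa using hU), fun w z' hw hU => h3 w z' hw
    fun U hU' => hU U (by simpa using hU'), fun W hW => ?_⟩
  obtain ⟨U, hU, hUW⟩ := h4 W hW
  exact ⟨U, by simpa using hU, hUW⟩

theorem compl {L : Type} [DistribLattice L] (hH : IndepFam L) (S : Sys) (hS : S.Good)
    (X Y : Type) [Finite X] [Finite Y] (m : S.Model X Y) (hX : ∀ i, S.KC i → ∃ x, m.clX x = i)
    (hY : ∀ l, S.KR l → ∃ y, m.clY y = l) :
    ∃ (A N D : L) (Z : ℕ → L) (T : ℕ → ℕ → ℕ → L), S.Ax A N D Z T := by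
  classical
  obtain ⟨a, haU, hap, hasub⟩ := hH
  have _ : Fintype X := Fintype.ofFinite X
  have _ : Fintype Y := Fintype.ofFinite Y
  have hamono : ∀ U W : Finset ℕ, U ⊆ W → a U ≤ a W := by
    intro U W h
    rw [← Finset.union_eq_right.2 h, haU]
    exact le_sup_left
  -- the nodes
  obtain ⟨e, he⟩ : ∃ e : X ⊕ Y ↪ ℕ, ∀ p, e p < Fintype.card (X ⊕ Y) :=
    ⟨(Fintype.equivFin (X ⊕ Y)).toEmbedding.trans Fin.valEmbedding, fun p =>
      (Fintype.equivFin (X ⊕ Y) p).2⟩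
  obtain ⟨b, hb⟩ : ∃ b : Finset (X ⊕ Y) → L, ∀ U, b U = a (U.map e) := ⟨_, fun _ => rfl⟩
  obtain ⟨v, hvdef⟩ : ∃ v : L, v = a (Finset.range (Fintype.card (X ⊕ Y) + 1)) := ⟨_, rfl⟩
  have hbU : ∀ U W, b (U ∪ W) = b U ⊔ b W := by
    intro U W
    rw [hb, hb, hb, Finset.map_union, haU]
  have hprime : ∀ U x y, x ⊓ y ≤ b U → x ≤ b U ∨ y ≤ b U := by
    intro U x y h
    rw [hb] at h ⊢
    exact hap _ x y h
  have hsub : ∀ U W, b U ≤ b W → U ⊆ W := by
    intro U W h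
    rw [hb, hb] at h
    exact Finset.map_subset_map.1 (hasub _ _ h)
  have hbmono : ∀ U W, U ⊆ W → b U ≤ b W := by
    intro U W h
    rw [hb, hb]
    exact hamono _ _ (Finset.map_subset_map.2 h)
  have hv : ∀ U, b U ≤ v := by
    intro U
    rw [hb, hvdef]
    apply hamono
    intro n hn
    obtain ⟨p, _, rfl⟩ := Finset.mem_map.1 hn
    exact Finset.mem_range.2 ((he p).trans (Nat.lt_succ_self _))
  have hv' : ∀ U, ¬ v ≤ b U := by
    intro U h
    rw [hb, hvdef] at h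
    have h1 := hasub _ _ h (Finset.mem_range.2 (Nat.lt_succ_self _))
    obtain ⟨p, _, hp⟩ := Finset.mem_map.1 h1
    exact absurd hp (he p).ne
  clear hb hvdef he e hasub hap haU hamono a
  -- meets of families of sets of nodes
  have hmm := compl_mm b v hprime hsub hv'
  choose M hMv hMle hMd hMe using hmm
  have le2 : ∀ (Q1 Q2 : Finset (X ⊕ Y) → Prop) (z : L), z ≤ v →
      (∀ U W, Q1 U → Q2 W → z ≤ b (U ∪ W)) → z ≤ M Q1 ⊔ M Q2 := by
    intro Q1 Q2 z hz h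
    apply hMd Q1 _ _ (hz.trans le_sup_left)
    intro U hU
    rw [sup_comm]
    apply hMd Q2 _ _ (hz.trans le_sup_left)
    intro W hW
    rw [sup_comm, ← hbU]
    exact h U W hU hW
  have le3 : ∀ (Q1 Q2 Q3 : Finset (X ⊕ Y) → Prop) (z : L), z ≤ v →
      (∀ U W R, Q1 U → Q2 W → Q3 R → z ≤ b (U ∪ W ∪ R)) → z ≤ M Q1 ⊔ M Q2 ⊔ M Q3 := by
    intro Q1 Q2 Q3 z hz h
    rw [sup_assoc]
    apply hMd Q1 _ _ (hz.trans le_sup_left)
    intro U hU
    rw [sup_left_comm]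
    apply hMd Q2 _ _ (hz.trans le_sup_left)
    intro W hW
    rw [← sup_assoc, sup_comm]
    apply hMd Q3 _ _ (hz.trans le_sup_left)
    intro R hR
    have := h U W R hU hW hR
    rw [hbU, hbU] at this
    rwa [sup_comm, sup_comm (b W) (b U)]
  -- the families
  obtain ⟨QZ, hQZ⟩ : ∃ Q : ℕ → Finset (X ⊕ Y) → Prop, ∀ i U, Q i U ↔
      ((∃ x, m.clX x = i ∧ U = {Sum.inl x}) ∨ (∃ y, m.clY y = i ∧ U = {Sum.inr y})) :=
    ⟨_, fun _ _ => Iff.rfl⟩
  obtain ⟨QA, hQA⟩ : ∃ Q : Finset (X ⊕ Y) → Prop, ∀ U, Q U ↔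
      ((∃ x x', S.EC (m.clX x) (m.clX x') ∧ m.adjX x x' ∧ U = {Sum.inl x, Sum.inl x'}) ∨
        (∃ y y', S.ER (m.clY y) (m.clY y') ∧ m.adjY y y' ∧ U = {Sum.inr y, Sum.inr y'})) :=
    ⟨_, fun _ => Iff.rfl⟩
  obtain ⟨QN, hQN⟩ : ∃ Q : Finset (X ⊕ Y) → Prop, ∀ U, Q U ↔
      ((∃ x x', S.EC (m.clX x) (m.clX x') ∧ ¬ m.adjX x x' ∧ U = {Sum.inl x, Sum.inl x'}) ∨
        (∃ y y', S.ER (m.clY y) (m.clY y') ∧ ¬ m.adjY y y' ∧ U = {Sum.inr y, Sum.inr y'})) :=
    ⟨_, fun _ => Iff.rfl⟩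
  obtain ⟨QT, hQT⟩ : ∃ Q : ℕ → ℕ → ℕ → Finset (X ⊕ Y) → Prop, ∀ i l t U, Q i l t U ↔
      (∃ x y, m.clX x = i ∧ m.clY y = l ∧ m.lab x y = t ∧ U = {Sum.inl x, Sum.inr y}) :=
    ⟨_, fun _ _ _ _ => Iff.rfl⟩
  obtain ⟨QD, hQD⟩ : ∃ Q : Finset (X ⊕ Y) → Prop, ∀ U, Q U ↔
      ((∃ x x', x ≠ x' ∧ m.clX x = m.clX x' ∧ Sum.inl x ∈ U ∧ Sum.inl x' ∈ U) ∨
       (∃ y y', y ≠ y' ∧ m.clY y = m.clY y' ∧ Sum.inr y ∈ U ∧ Sum.inr y' ∈ U) ∨
       (∃ x x' x'', x ≠ x' ∧ x ≠ x'' ∧ x' ≠ x'' ∧ Sum.inl x ∈ U ∧ Sum.inl x' ∈ U ∧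
          Sum.inl x'' ∈ U) ∨
       (∃ y y' y'', y ≠ y' ∧ y ≠ y'' ∧ y' ≠ y'' ∧ Sum.inr y ∈ U ∧ Sum.inr y' ∈ U ∧
          Sum.inr y'' ∈ U) ∨
       (∃ x x' y y', x ≠ x' ∧ y ≠ y' ∧ Sum.inl x ∈ U ∧ Sum.inl x' ∈ U ∧ Sum.inr y ∈ U ∧
          Sum.inr y' ∈ U)) := ⟨_, fun _ => Iff.rfl⟩
  -- classes
  have ecne : ∀ {i i'}, S.EC i i' → i ≠ i' := by
    rintro i i' h rfl
    exact hS.ecAnti _ _ h h
  have erne : ∀ {i i'}, S.ER i i' → i ≠ i' := by
    rintro i i' h rfl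
    exact hS.erAnti _ _ h h
  have hZc : ∀ i, S.KC i → ∀ U, QZ i U → ∃ x, m.clX x = i ∧ U = {Sum.inl x} := by
    intro i hi U hU
    rw [hQZ] at hU
    rcases hU with h | ⟨y, hy, _⟩
    · exact h
    · exact absurd (hy ▸ m.clY_mem y) (hS.disj i hi)
  have hZr : ∀ i, S.KR i → ∀ U, QZ i U → ∃ y, m.clY y = i ∧ U = {Sum.inr y} := by
    intro i hi U hU
    rw [hQZ] at hU
    rcases hU with ⟨x, hx, _⟩ | h
    · exact absurd hi (hS.disj i (hx ▸ m.clX_mem x))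
    · exact h
  have hZcle : ∀ x, M (QZ (m.clX x)) ≤ b {Sum.inl x} := fun x =>
    hMle _ _ ((hQZ _ _).2 (Or.inl ⟨x, rfl, rfl⟩))
  have hZrle : ∀ y, M (QZ (m.clY y)) ≤ b {Sum.inr y} := fun y =>
    hMle _ _ ((hQZ _ _).2 (Or.inr ⟨y, rfl, rfl⟩))
  -- splits
  have splitZ : ∀ i, (∃ U, QZ i U) → ∀ y y', Split (M (QZ i)) y y' → ∃ U, QZ i U ∧ y ≤ b U := by
    rintro i ⟨U0, hU0⟩ y y' ⟨h1, h2⟩
    by_contra hcon
    push Not at hcon
    have h3 : ∀ U, QZ i U → y' ≤ b U := by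
      intro U hU
      rcases hprime U y y' (h1.trans (hMle _ _ hU)) with h | h
      · exact absurd h (hcon U hU)
      · exact h
    apply h2
    have h4 := hMd (QZ i) (M (QZ i)) y' (((h3 U0 hU0).trans (hv U0)).trans le_sup_left)
      (fun U hU => (h3 U hU).trans le_sup_left)
    rwa [sup_idem] at h4
  have splitC : ∀ i, S.KC i → ∀ y y', Split (M (QZ i)) y y' →
      ∃ x, m.clX x = i ∧ y ≤ b {Sum.inl x} := by
    intro i hi y y' h
    obtain ⟨x0, hx0⟩ := hX i hi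
    obtain ⟨U, hU, hyU⟩ := splitZ i ⟨{Sum.inl x0}, (hQZ _ _).2 (Or.inl ⟨x0, hx0, rfl⟩)⟩ y y' h
    obtain ⟨x, hx, rfl⟩ := hZc i hi U hU
    exact ⟨x, hx, hyU⟩
  have splitR : ∀ i, S.KR i → ∀ y y', Split (M (QZ i)) y y' →
      ∃ x, m.clY x = i ∧ y ≤ b {Sum.inr x} := by
    intro i hi y y' h
    obtain ⟨x0, hx0⟩ := hY i hi
    obtain ⟨U, hU, hyU⟩ := splitZ i ⟨{Sum.inr x0}, (hQZ _ _).2 (Or.inr ⟨x0, hx0, rfl⟩)⟩ y y' h
    obtain ⟨x, hx, rfl⟩ := hZr i hi U hU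
    exact ⟨x, hx, hyU⟩
  refine ⟨M QA, M QN, M QD, fun i => M (QZ i), fun i l t => M (QT i l t), ?_, ?_, ?_, ?_, ?_, ?_,
    ?_, ?_, ?_, ?_, ?_⟩
  · -- start_i
    intro h
    obtain ⟨U, hU, hsubU⟩ := hMe _ _ (h.trans (m.clX_x0 ▸ hZcle m.x0))
    rw [hQD] at hU
    rcases hU with ⟨x, x', hne, _, h1, h2⟩ | ⟨y, y', hne, _, h1, h2⟩ |
      ⟨x, x', _, hne, _, _, h1, h2, _⟩ | ⟨y, y', _, hne, _, _, h1, h2, _⟩ |
      ⟨x, x', _, _, hne, _, h1, h2, _, _⟩
    all_goals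
      have g1 := hsubU h1
      have g2 := hsubU h2
      simp only [Finset.mem_singleton, Sum.inl.injEq, reduceCtorEq] at g1 g2
    all_goals exact hne (g1.trans g2.symm)
  · -- start_l
    intro h
    obtain ⟨U, hU, hsubU⟩ := hMe _ _ (h.trans (m.clY_y0 ▸ hZrle m.y0))
    rw [hQD] at hU
    rcases hU with ⟨x, x', hne, _, h1, h2⟩ | ⟨y, y', hne, _, h1, h2⟩ |
      ⟨x, x', _, hne, _, _, h1, h2, _⟩ | ⟨y, y', _, hne, _, _, h1, h2, _⟩ |
      ⟨x, x', _, _, hne, _, h1, h2, _, _⟩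
    all_goals
      have g1 := hsubU h1
      have g2 := hsubU h2
      simp only [Finset.mem_singleton, Sum.inr.injEq, reduceCtorEq] at g1 g2
    all_goals exact hne (g1.trans g2.symm)
  · -- succC
    intro i i' hi y y' hsp hN
    obtain ⟨x, hx, hyx⟩ := splitC i (hS.ec _ _ hi).1 y y' hsp
    subst hx
    obtain ⟨x', hx', hadj⟩ := m.succX x i' hi
    subst hx'
    have h1 : M QN ≤ b ({Sum.inl x} ∪ {Sum.inl x'}) := by
      rw [hbU]
      exact hN.trans (sup_le_sup hyx (hZcle x'))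
    obtain ⟨U, hU, hsubU⟩ := hMe _ _ h1
    rw [hQN] at hU
    rcases hU with ⟨u, u', hE, hnadj, rfl⟩ | ⟨u, u', hE, hnadj, rfl⟩
    · have g1 := hsubU (Finset.mem_insert_self _ _)
      have g2 := hsubU (Finset.mem_insert_of_mem (Finset.mem_singleton_self _))
      simp only [Finset.mem_union, Finset.mem_singleton, Sum.inl.injEq] at g1 g2
      rcases g1 with rfl | rfl <;> rcases g2 with rfl | rfl
      · exact ecne hE rfl
      · exact hnadj hadj
      · exact hS.ecAnti _ _ hi hE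
      · exact ecne hE rfl
    · have g1 := hsubU (Finset.mem_insert_self _ _)
      simp at g1
  · -- succR
    intro i i' hi y y' hsp hN
    obtain ⟨x, hx, hyx⟩ := splitR i (hS.er _ _ hi).1 y y' hsp
    subst hx
    obtain ⟨x', hx', hadj⟩ := m.succY x i' hi
    subst hx'
    have h1 : M QN ≤ b ({Sum.inr x} ∪ {Sum.inr x'}) := by
      rw [hbU]
      exact hN.trans (sup_le_sup hyx (hZrle x'))
    obtain ⟨U, hU, hsubU⟩ := hMe _ _ h1
    rw [hQN] at hU
    rcases hU with ⟨u, u', hE, hnadj, rfl⟩ | ⟨u, u', hE, hnadj, rfl⟩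
    · have g1 := hsubU (Finset.mem_insert_self _ _)
      simp at g1
    · have g1 := hsubU (Finset.mem_insert_self _ _)
      have g2 := hsubU (Finset.mem_insert_of_mem (Finset.mem_singleton_self _))
      simp only [Finset.mem_union, Finset.mem_singleton, Sum.inr.injEq] at g1 g2
      rcases g1 with rfl | rfl <;> rcases g2 with rfl | rfl
      · exact erne hE rfl
      · exact hnadj hadj
      · exact hS.erAnti _ _ hi hE
      · exact erne hE rfl
  · -- adjC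
    intro i i' hi
    apply le2 _ _ _ (inf_le_left.trans (hMv _))
    intro U W hU hW
    obtain ⟨x, rfl, rfl⟩ := hZc i (hS.ec _ _ hi).1 U hU
    obtain ⟨x', rfl, rfl⟩ := hZc i' (hS.ec _ _ hi).2 W hW
    by_cases hadj : m.adjX x x'
    · exact inf_le_left.trans (hMle _ _ ((hQA _).2 (Or.inl ⟨x, x', hi, hadj, rfl⟩)))
    · exact inf_le_right.trans (hMle _ _ ((hQN _).2 (Or.inl ⟨x, x', hi, hadj, rfl⟩)))
  · -- adjR
    intro i i' hi
    apply le2 _ _ _ (inf_le_left.trans (hMv _))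
    intro U W hU hW
    obtain ⟨x, rfl, rfl⟩ := hZr i (hS.er _ _ hi).1 U hU
    obtain ⟨x', rfl, rfl⟩ := hZr i' (hS.er _ _ hi).2 W hW
    by_cases hadj : m.adjY x x'
    · exact inf_le_left.trans (hMle _ _ ((hQA _).2 (Or.inr ⟨x, x', hi, hadj, rfl⟩)))
    · exact inf_le_right.trans (hMle _ _ ((hQN _).2 (Or.inr ⟨x, x', hi, hadj, rfl⟩)))
  · -- labs
    intro i l hi hl z hz
    obtain ⟨t0, ht0⟩ := hS.lab i l hi hl
    apply le2 _ _ _ ((hz t0 ht0).trans (hMv _))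
    intro U W hU hW
    obtain ⟨x, rfl, rfl⟩ := hZc i hi U hU
    obtain ⟨y, rfl, rfl⟩ := hZr l hl W hW
    exact (hz _ (m.lab_mem x y)).trans (hMle _ _ ((hQT _ _ _ _).2 ⟨x, y, rfl, rfl, rfl, rfl⟩))
  · -- forC
    intro i i' l t t' hE hl _ _ hF
    apply le3 _ _ _ _ (hMv _)
    intro U W R hU hW hR
    rw [hQT] at hU hW
    rw [hQA] at hR
    obtain ⟨c, r, rfl, rfl, rfl, rfl⟩ := hU
    obtain ⟨c', r', rfl, hr', rfl, rfl⟩ := hW
    apply hMle
    rw [hQD]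
    have hcc : c ≠ c' := by
      rintro rfl
      exact ecne hE rfl
    by_cases hrr : r = r'
    swap
    · exact Or.inr (Or.inl ⟨r, r', hrr, hr'.symm, by simp, by simp⟩)
    subst hrr
    rcases hR with ⟨p, p', hE', hadj, rfl⟩ | ⟨p, p', hE', hadj, rfl⟩
    · have hpp : p ≠ p' := by
        rintro rfl
        exact ecne hE' rfl
      by_cases h1 : p = c ∨ p = c'
      swap
      · push Not at h1
        exact Or.inr (Or.inr (Or.inl ⟨c, c', p, hcc, h1.1.symm, h1.2.symm, by simp, by simp,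
          by simp⟩))
      by_cases h2 : p' = c ∨ p' = c'
      swap
      · push Not at h2
        exact Or.inr (Or.inr (Or.inl ⟨c, c', p', hcc, h2.1.symm, h2.2.symm, by simp, by simp,
          by simp⟩))
      exfalso
      rcases h1 with rfl | rfl <;> rcases h2 with rfl | rfl
      · exact hpp rfl
      · exact m.conC _ _ _ hE hadj hF
      · exact hS.ecAnti _ _ hE hE'
      · exact hpp rfl
    · have hpp : p ≠ p' := by
        rintro rfl
        exact erne hE' rfl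
      exact Or.inr (Or.inr (Or.inr (Or.inr ⟨c, c', p, p', hcc, hpp, by simp, by simp, by simp,
        by simp⟩)))
  · -- forR
    intro l l' i t t' hE hi _ _ hF
    apply le3 _ _ _ _ (hMv _)
    intro U W R hU hW hR
    rw [hQT] at hU hW
    rw [hQA] at hR
    obtain ⟨c, r, rfl, rfl, rfl, rfl⟩ := hU
    obtain ⟨c', r', hc', rfl, rfl, rfl⟩ := hW
    apply hMle
    rw [hQD]
    have hrr : r ≠ r' := by
      rintro rfl
      exact erne hE rfl
    by_cases hcc : c = c'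
    swap
    · exact Or.inl ⟨c, c', hcc, hc'.symm, by simp, by simp⟩
    subst hcc
    rcases hR with ⟨p, p', hE', hadj, rfl⟩ | ⟨p, p', hE', hadj, rfl⟩
    · have hpp : p ≠ p' := by
        rintro rfl
        exact ecne hE' rfl
      exact Or.inr (Or.inr (Or.inr (Or.inr ⟨p, p', r, r', hpp, hrr, by simp, by simp, by simp,
        by simp⟩)))
    · have hpp : p ≠ p' := by
        rintro rfl
        exact erne hE' rfl
      by_cases h1 : p = r ∨ p = r'
      swap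
      · push Not at h1
        exact Or.inr (Or.inr (Or.inr (Or.inl ⟨r, r', p, hrr, h1.1.symm, h1.2.symm, by simp,
          by simp, by simp⟩)))
      by_cases h2 : p' = r ∨ p' = r'
      swap
      · push Not at h2
        exact Or.inr (Or.inr (Or.inr (Or.inl ⟨r, r', p', hrr, h2.1.symm, h2.2.symm, by simp,
          by simp, by simp⟩)))
      exfalso
      rcases h1 with rfl | rfl <;> rcases h2 with rfl | rfl
      · exact hpp rfl
      · exact m.conR _ _ _ hE hadj hF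
      · exact hS.erAnti _ _ hE hE'
      · exact hpp rfl
  · -- indC
    intro i i' l hE hl a a' c c' d d' ha hc hd hD
    obtain ⟨x, rfl, hx⟩ := splitC i (hS.ec _ _ hE).1 a a' ha
    obtain ⟨x', rfl, hx'⟩ := splitC i' (hS.ec _ _ hE).2 c c' hc
    obtain ⟨r, rfl, hr⟩ := splitR l hl d d' hd
    have h1 : M QD ≤ b ({Sum.inl x} ∪ {Sum.inl x'} ∪ {Sum.inr r}) := by
      rw [hbU, hbU]
      exact hD.trans (sup_le_sup (sup_le_sup hx hx') hr)
    obtain ⟨U, hU, hsubU⟩ := hMe _ _ h1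
    have hl1 : ∀ z, Sum.inl z ∈ U → z = x ∨ z = x' := by
      intro z hz
      have := hsubU hz
      simpa using this
    have hr1 : ∀ z, Sum.inr z ∈ U → z = r := by
      intro z hz
      have := hsubU hz
      simpa using this
    rw [hQD] at hU
    rcases hU with ⟨z, z', hne, hcl, h1, h2⟩ | ⟨y, y', hne, _, h1, h2⟩ |
      ⟨z, z', z'', hne, hne', hne'', h1, h2, h3⟩ | ⟨y, y', _, hne, _, _, h1, h2, _⟩ |
      ⟨_, _, y, y', _, hne, _, _, h1, h2⟩
    · rcases hl1 z h1 with rfl | rfl <;> rcases hl1 z' h2 with rfl | rfl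
      · exact hne rfl
      · exact ecne hE hcl
      · exact ecne hE hcl.symm
      · exact hne rfl
    · exact hne ((hr1 y h1).trans (hr1 y' h2).symm)
    · rcases hl1 z h1 with e1 | e1 <;> rcases hl1 z' h2 with e2 | e2
      · exact hne (e1.trans e2.symm)
      · rcases hl1 z'' h3 with e3 | e3
        · exact hne' (e1.trans e3.symm)
        · exact hne'' (e2.trans e3.symm)
      · rcases hl1 z'' h3 with e3 | e3
        · exact hne'' (e2.trans e3.symm)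
        · exact hne' (e1.trans e3.symm)
      · exact hne (e1.trans e2.symm)
    · exact hne ((hr1 y h1).trans (hr1 y' h2).symm)
    · exact hne ((hr1 y h1).trans (hr1 y' h2).symm)
  · -- indR
    intro i i' l hE hl a a' c c' d d' ha hc hd hD
    obtain ⟨x, rfl, hx⟩ := splitR i (hS.er _ _ hE).1 a a' ha
    obtain ⟨x', rfl, hx'⟩ := splitR i' (hS.er _ _ hE).2 c c' hc
    obtain ⟨r, rfl, hr⟩ := splitC l hl d d' hd
    have h1 : M QD ≤ b ({Sum.inr x} ∪ {Sum.inr x'} ∪ {Sum.inl r}) := by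
      rw [hbU, hbU]
      exact hD.trans (sup_le_sup (sup_le_sup hx hx') hr)
    obtain ⟨U, hU, hsubU⟩ := hMe _ _ h1
    have hl1 : ∀ z, Sum.inr z ∈ U → z = x ∨ z = x' := by
      intro z hz
      have := hsubU hz
      simpa using this
    have hr1 : ∀ z, Sum.inl z ∈ U → z = r := by
      intro z hz
      have := hsubU hz
      simpa using this
    rw [hQD] at hU
    rcases hU with ⟨y, y', hne, _, h1, h2⟩ | ⟨z, z', hne, hcl, h1, h2⟩ |
      ⟨y, y', _, hne, _, _, h1, h2, _⟩ | ⟨z, z', z'', hne, hne', hne'', h1, h2, h3⟩ |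
      ⟨y, y', _, _, hne, _, h1, h2, _, _⟩
    · exact hne ((hr1 y h1).trans (hr1 y' h2).symm)
    · rcases hl1 z h1 with rfl | rfl <;> rcases hl1 z' h2 with rfl | rfl
      · exact hne rfl
      · exact erne hE hcl
      · exact erne hE hcl.symm
      · exact hne rfl
    · exact hne ((hr1 y h1).trans (hr1 y' h2).symm)
    · rcases hl1 z h1 with e1 | e1 <;> rcases hl1 z' h2 with e2 | e2
      · exact hne (e1.trans e2.symm)
      · rcases hl1 z'' h3 with e3 | e3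
        · exact hne' (e1.trans e3.symm)
        · exact hne'' (e2.trans e3.symm)
      · rcases hl1 z'' h3 with e3 | e3
        · exact hne'' (e2.trans e3.symm)
        · exact hne' (e1.trans e3.symm)
      · exact hne (e1.trans e2.symm)
    · exact hne ((hr1 y h1).trans (hr1 y' h2).symm)

end Pool.Agent.Lib.MUD
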