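/-
MP_9f7f62_lc, module H: the formulas expressing the conditions; their codes are computable.
-/
import Pool.Agent.Lib.MP_9f7f62_lc.Defs

namespace Pool.Agent.Lib.MUD

/-! ### primitive recursive families of terms and formulas -/

section Fam

variable {α : Type} [Primcodable α]

/-- primitive recursive families of terms -/
def FormPT (f : α → Tm) : Prop := Primrec fun a => (f a).code

/-- primitive recursive families of formulas -/
def FormPF (f : α → Fm) : Prop := Primrec fun a => (f a).code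

theorem form_x {h : α → ℕ} (hh : Primrec h) : FormPT fun a => Tm.x (h a) :=
  Primrec.nat_mul.comp (Primrec.const 4) hh

theorem form_constT (t : Tm) : FormPT fun _ : α => t := Primrec.const _

theorem form_sup {f g : α → Tm} (hf : FormPT f) (hg : FormPT g) :
    FormPT fun a => Tm.sup (f a) (g a) :=
  Primrec.nat_add.comp (Primrec.nat_mul.comp (Primrec.const 4) (Primrec₂.natPair.comp hf hg))
    (Primrec.const 2)

theorem form_inf {f g : α → Tm} (hf : FormPT f) (hg : FormPT g) :
    FormPT fun a => Tm.inf (f a) (g a) :=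
  Primrec.nat_add.comp (Primrec.nat_mul.comp (Primrec.const 4) (Primrec₂.natPair.comp hf hg))
    (Primrec.const 3)

theorem form_eq {f g : α → Tm} (hf : FormPT f) (hg : FormPT g) :
    FormPF fun a => Fm.eq (f a) (g a) :=
  Primrec.nat_mul.comp (Primrec.const 4) (Primrec₂.natPair.comp hf hg)

theorem form_constF (φ : Fm) : FormPF fun _ : α => φ := Primrec.const _

theorem form_neg {f : α → Fm} (hf : FormPF f) : FormPF fun a => Fm.neg (f a) :=
  Primrec.nat_add.comp (Primrec.nat_mul.comp (Primrec.const 4) hf) (Primrec.const 1)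

theorem form_and {f g : α → Fm} (hf : FormPF f) (hg : FormPF g) :
    FormPF fun a => Fm.and (f a) (g a) :=
  Primrec.nat_add.comp (Primrec.nat_mul.comp (Primrec.const 4) (Primrec₂.natPair.comp hf hg))
    (Primrec.const 2)

theorem form_or {f g : α → Fm} (hf : FormPF f) (hg : FormPF g) :
    FormPF fun a => Fm.or (f a) (g a) :=
  Primrec.nat_add.comp (Primrec.nat_mul.comp (Primrec.const 4) (Primrec₂.natPair.comp hf hg))
    (Primrec.const 3)

/-- a true formula -/
def formTru : Fm := .eq (.x 0) (.x 0)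

open Classical in
/-- guarded formula -/
noncomputable def formIf (c : Prop) (φ : Fm) : Fm := if c then φ else formTru

theorem form_if {c : α → Prop} {f : α → Fm} (hc : PrimrecPred c) (hf : FormPF f) :
    FormPF fun a => formIf (c a) (f a) := by
  classical
  have h : Primrec fun a => if c a then (f a).code else formTru.code :=
    Primrec.ite hc hf (Primrec.const _)
  refine h.of_eq fun a => ?_
  show _ = (formIf (c a) (f a)).code
  unfold formIf
  by_cases h : c a
  · rw [if_pos h, if_pos h]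
  · rw [if_neg h, if_neg h]

/-- conjunction of `f 0, …, f (n-1)` -/
def formConj (f : ℕ → Fm) : ℕ → Fm
  | 0 => formTru
  | n + 1 => .and (formConj f n) (f n)

theorem form_conj {F : α → ℕ → Fm} {B : α → ℕ} (hB : Primrec B)
    (hF : FormPF fun p : α × ℕ => F p.1 p.2) : FormPF fun a => formConj (F a) (B a) := by
  have h : Primrec fun a : α => (B a).rec (motive := fun _ => ℕ) formTru.code
      fun n IH => 4 * Nat.pair IH (F a n).code + 2 := by
    refine Primrec.nat_rec' (h := fun a (p : ℕ × ℕ) => 4 * Nat.pair p.2 (F a p.1).code + 2)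
      hB (Primrec.const _) ?_
    have h1 : Primrec fun q : α × (ℕ × ℕ) => (F q.1 q.2.1).code :=
      Primrec.comp (f := fun p : α × ℕ => (F p.1 p.2).code) hF
        (Primrec.pair Primrec.fst (Primrec.fst.comp Primrec.snd))
    exact Primrec.nat_add.comp (Primrec.nat_mul.comp (Primrec.const 4)
      (Primrec₂.natPair.comp (Primrec.snd.comp Primrec.snd) h1)) (Primrec.const 2)
  refine h.of_eq fun a => ?_
  show _ = (formConj (F a) (B a)).code
  induction B a with
  | zero => rfl
  | succ n ih =>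
    show 4 * Nat.pair _ _ + 2 = _
    rw [ih]
    rfl

end Fam

section Sat

variable {L : Type} [Lattice L] (x y : ℕ → L)

theorem form_sat_tru : formTru.Sat x y := rfl

theorem form_sat_if (c : Prop) (φ : Fm) : (formIf c φ).Sat x y ↔ (c → φ.Sat x y) := by
  unfold formIf
  by_cases h : c
  · rw [if_pos h]
    exact ⟨fun a _ => a, fun a => a h⟩
  · rw [if_neg h]
    exact ⟨fun _ b => absurd b h, fun _ => rfl⟩

theorem form_sat_conj (f : ℕ → Fm) (n : ℕ) :
    (formConj f n).Sat x y ↔ ∀ i < n, (f i).Sat x y := by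
  induction n with
  | zero => exact ⟨fun _ i hi => absurd hi (Nat.not_lt_zero _), fun _ => rfl⟩
  | succ n ih =>
    show (formConj f n).Sat x y ∧ (f n).Sat x y ↔ _
    rw [ih]
    constructor
    · rintro ⟨h1, h2⟩ i hi
      rcases Nat.lt_succ_iff_lt_or_eq.1 hi with h | h
      · exact h1 i h
      · exact h ▸ h2
    · intro h
      exact ⟨fun i hi => h i (Nat.lt_succ_of_lt hi), h n (Nat.lt_succ_self n)⟩

/-- inequality -/
def formLe (s t : Tm) : Fm := .eq (.sup s t) t

theorem form_sat_le (s t : Tm) : (formLe s t).Sat x y ↔ s.eval x y ≤ t.eval x y := by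
  show s.eval x y ⊔ t.eval x y = t.eval x y ↔ _
  exact sup_eq_right

/-- splits -/
def formSplit (z a b : Tm) : Fm := .and (formLe (.inf a b) z) (.neg (formLe b z))

theorem form_sat_split (z a b : Tm) :
    (formSplit z a b).Sat x y ↔ Split (z.eval x y) (a.eval x y) (b.eval x y) := by
  show (formLe _ _).Sat x y ∧ ¬ (formLe _ _).Sat x y ↔ _
  rw [form_sat_le, form_sat_le]
  rfl

/-- implication -/
def formImp (φ ψ : Fm) : Fm := .or (.neg φ) ψ

theorem form_sat_imp (φ ψ : Fm) : (formImp φ ψ).Sat x y ↔ (φ.Sat x y → ψ.Sat x y) := by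
  show ¬ φ.Sat x y ∨ ψ.Sat x y ↔ _
  exact imp_iff_not_or.symm

theorem form_sat_and (φ ψ : Fm) : (Fm.and φ ψ).Sat x y ↔ (φ.Sat x y ∧ ψ.Sat x y) := Iff.rfl

theorem form_sat_neg (φ : Fm) : (Fm.neg φ).Sat x y ↔ ¬ φ.Sat x y := Iff.rfl

end Sat

section Fam2

variable {α : Type} [Primcodable α]

theorem form_le {f g : α → Tm} (hf : FormPT f) (hg : FormPT g) :
    FormPF fun a => formLe (f a) (g a) := form_eq (form_sup hf hg) hg

theorem form_split {f g h : α → Tm} (hf : FormPT f) (hg : FormPT g) (hh : FormPT h) :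
    FormPF fun a => formSplit (f a) (g a) (h a) :=
  form_and (form_le (form_inf hg hh) hf) (form_neg (form_le hh hf))

theorem form_imp {f g : α → Fm} (hf : FormPF f) (hg : FormPF g) :
    FormPF fun a => formImp (f a) (g a) := form_or (form_neg hf) hg

/-- the variable for `Z i` -/
def formZ (i : ℕ) : Tm := .x (2 * i + 3)

/-- the variable for `T i l t` -/
def formT (i l t : ℕ) : Tm := .x (2 * Nat.pair i (Nat.pair l t) + 4)

theorem form_Z {h : α → ℕ} (hh : Primrec h) : FormPT fun a => formZ (h a) :=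
  form_x (Primrec.nat_add.comp (Primrec.nat_mul.comp (Primrec.const 2) hh) (Primrec.const 3))

theorem form_T {h k t : α → ℕ} (hh : Primrec h) (hk : Primrec k) (ht : Primrec t) :
    FormPT fun a => formT (h a) (k a) (t a) :=
  form_x (Primrec.nat_add.comp (Primrec.nat_mul.comp (Primrec.const 2)
    (Primrec₂.natPair.comp hh (Primrec₂.natPair.comp hk ht))) (Primrec.const 4))

/-- successor condition -/
def formSucc (i i' : ℕ) : Fm :=
  formImp (formSplit (formZ i) (.y 0) (.y 1)) (.neg (formLe (.x 1) (.sup (.y 0) (formZ i'))))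

/-- adjacency condition -/
def formAdj (i i' : ℕ) : Fm := formLe (.inf (.x 0) (.x 1)) (.sup (formZ i) (formZ i'))

/-- forbidden pair condition -/
def formFor (i l t i' l' t' : ℕ) : Fm :=
  formLe (.x 2) (.sup (.sup (formT i l t) (formT i' l' t')) (.x 0))

/-- independence condition -/
def formInd (i i' l : ℕ) : Fm :=
  formImp (.and (formSplit (formZ i) (.y 0) (.y 1)) (.and (formSplit (formZ i') (.y 2) (.y 3))
    (formSplit (formZ l) (.y 4) (.y 5)))) (.neg (formLe (.x 2) (.sup (.sup (.y 0) (.y 2)) (.y 4))))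

theorem form_succ {h k : α → ℕ} (hh : Primrec h) (hk : Primrec k) :
    FormPF fun a => formSucc (h a) (k a) :=
  form_imp (form_split (form_Z hh) (form_constT _) (form_constT _))
    (form_neg (form_le (form_constT _) (form_sup (form_constT _) (form_Z hk))))

theorem form_adj {h k : α → ℕ} (hh : Primrec h) (hk : Primrec k) :
    FormPF fun a => formAdj (h a) (k a) :=
  form_le (form_constT _) (form_sup (form_Z hh) (form_Z hk))

theorem form_for {i l t i' l' t' : α → ℕ} (h1 : Primrec i) (h2 : Primrec l) (h3 : Primrec t)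
    (h4 : Primrec i') (h5 : Primrec l') (h6 : Primrec t') :
    FormPF fun a => formFor (i a) (l a) (t a) (i' a) (l' a) (t' a) :=
  form_le (form_constT _) (form_sup (form_sup (form_T h1 h2 h3) (form_T h4 h5 h6))
    (form_constT _))

theorem form_ind {i i' l : α → ℕ} (h1 : Primrec i) (h2 : Primrec i') (h3 : Primrec l) :
    FormPF fun a => formInd (i a) (i' a) (l a) :=
  form_imp (form_and (form_split (form_Z h1) (form_constT _) (form_constT _))
    (form_and (form_split (form_Z h2) (form_constT _) (form_constT _))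
      (form_split (form_Z h3) (form_constT _) (form_constT _))))
    (form_neg (form_le (form_constT _) (form_constT _)))

end Fam2

/-! ### primitive recursive predicates -/

theorem form_constP {α : Type} [Primcodable α] (c : Prop) : PrimrecPred fun _ : α => c := by
  classical
  exact ⟨fun _ => inferInstance, Primrec.const _⟩

theorem form_bdd (Q : ℕ → Prop) (B : ℕ) : PrimrecPred fun n => n < B ∧ Q n := by
  induction B with
  | zero => exact (form_constP False).of_eq fun n => by simp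
  | succ B ih =>
    refine (ih.or ((Primrec.eq.comp Primrec.id (Primrec.const B)).and
      (form_constP (Q B)))).of_eq fun n => ?_
    constructor
    · rintro (⟨h1, h2⟩ | ⟨h1, h2⟩)
      · exact ⟨Nat.lt_succ_of_lt h1, h2⟩
      · have h1' : n = B := h1
        exact ⟨h1' ▸ Nat.lt_succ_self n, h1' ▸ h2⟩
    · rintro ⟨h1, h2⟩
      rcases Nat.lt_succ_iff_lt_or_eq.1 h1 with h | h
      · exact Or.inl ⟨h, h2⟩
      · exact Or.inr ⟨h, h ▸ h2⟩

/-! ### the conditions -/

section Cond

variable (d : TMData)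

/-- membership in `Lab` (which does not depend on the input) -/
def FormLab (i l t : ℕ) : Prop := t ∈ (d.sys 0).Lab i l

theorem form_lab_iff (m i l t : ℕ) : t ∈ (d.sys m).Lab i l ↔ FormLab d i l t := Iff.rfl

/-- the number of cells -/
noncomputable def formK : ℕ := Fintype.card (Cell d.Γ d.Λ)

theorem form_num_lt (c : Cell d.Γ d.Λ) : d.num c < formK d := (Fintype.equivFin _ c).2

theorem form_lab_ex (i l t : ℕ) : FormLab d i l t ↔ ∃ c, d.Allowed i l c ∧ d.num c = t := by
  classical
  show t ∈ (Finset.univ.filter (fun c : Cell d.Γ d.Λ => d.Allowed i l c)).image d.num ↔ _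
  rw [Finset.mem_image]
  constructor
  · rintro ⟨c, hc, h⟩
    exact ⟨c, (Finset.mem_filter.1 hc).2, h⟩
  · rintro ⟨c, hc, h⟩
    exact ⟨c, Finset.mem_filter.2 ⟨Finset.mem_univ _, hc⟩, h⟩

theorem form_lab_lt (i l t : ℕ) (h : FormLab d i l t) : t < formK d := by
  obtain ⟨c, -, hc⟩ := (form_lab_ex d i l t).1 h
  exact hc ▸ form_num_lt d c

theorem form_initSym (i : ℕ) : d.initSym (min i 12) = d.initSym i := by
  unfold TMData.initSym
  rcases Nat.lt_or_ge i 12 with h | h
  · rw [Nat.min_eq_left (le_of_lt h)]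
  · rw [Nat.min_eq_right h]
    have h1 : ¬ i < 10 := by omega
    have h2 : ¬ i = 10 := by omega
    have h3 : ¬ i = 11 := by omega
    simp [h1, h2, h3]

theorem form_allowed (i l : ℕ) (c : Cell d.Γ d.Λ) :
    d.Allowed (min i 12) (min l 7) c ↔ d.Allowed i l c := by
  unfold TMData.Allowed
  rw [form_initSym]
  have h1 : min l 7 = 6 ↔ l = 6 := by omega
  have h2 : min i 12 = 10 ↔ i = 10 := by omega
  simp only [h1, h2, Ne]

theorem form_lab_min (i l t : ℕ) : FormLab d (min i 12) (min l 7) t ↔ FormLab d i l t := by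
  rw [form_lab_ex, form_lab_ex]
  constructor
  · rintro ⟨c, hc, h⟩
    exact ⟨c, (form_allowed d i l c).1 hc, h⟩
  · rintro ⟨c, hc, h⟩
    exact ⟨c, (form_allowed d i l c).2 hc, h⟩

theorem form_pair_bdd (a b c a' b' c' : ℕ) (h1 : a ≤ a') (h2 : b ≤ b') (h3 : c ≤ c') :
    Nat.pair a (Nat.pair b c) < ((Finset.range (a' + 1)).sup fun a => (Finset.range (b' + 1)).sup
      fun b => (Finset.range (c' + 1)).sup fun c => Nat.pair a (Nat.pair b c)) + 1 := by
  refine Nat.lt_succ_of_le ?_
  refine le_trans ?_ (Finset.le_sup (f := fun a => (Finset.range (b' + 1)).sup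
      fun b => (Finset.range (c' + 1)).sup fun c => Nat.pair a (Nat.pair b c))
      (Finset.mem_range.2 (Nat.lt_succ_of_le h1)))
  refine le_trans ?_ (Finset.le_sup (f := fun b => (Finset.range (c' + 1)).sup fun c =>
    Nat.pair a (Nat.pair b c)) (Finset.mem_range.2 (Nat.lt_succ_of_le h2)))
  exact Finset.le_sup (f := fun c => Nat.pair a (Nat.pair b c))
    (Finset.mem_range.2 (Nat.lt_succ_of_le h3))

/-- a relation with finite support is primitive recursive -/
theorem form_fin3 {α : Type} [Primcodable α] {h k t : α → ℕ} (hh : Primrec h) (hk : Primrec k)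
    (ht : Primrec t) (Q : ℕ → ℕ → ℕ → Prop) (a b c : ℕ)
    (H : ∀ x, Q (h x) (k x) (t x) → h x ≤ a ∧ k x ≤ b ∧ t x ≤ c) :
    PrimrecPred fun x => Q (h x) (k x) (t x) := by
  have h1 := (form_bdd (fun n => Q n.unpair.1 n.unpair.2.unpair.1 n.unpair.2.unpair.2)
    (((Finset.range (a + 1)).sup fun a => (Finset.range (b + 1)).sup
      fun b => (Finset.range (c + 1)).sup fun c => Nat.pair a (Nat.pair b c)) + 1)).comp
    (Primrec₂.natPair.comp hh (Primrec₂.natPair.comp hk ht))
  refine h1.of_eq fun x => ?_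
  simp only [Nat.unpair_pair]
  constructor
  · rintro ⟨-, h⟩
    exact h
  · intro h
    obtain ⟨e1, e2, e3⟩ := H x h
    exact ⟨form_pair_bdd _ _ _ _ _ _ e1 e2 e3, h⟩

theorem form_prim_lab {α : Type} [Primcodable α] {i l t : α → ℕ} (hi : Primrec i) (hl : Primrec l)
    (ht : Primrec t) : PrimrecPred fun x => FormLab d (i x) (l x) (t x) := by
  have h := form_fin3 (Primrec.nat_min.comp hi (Primrec.const 12))
    (Primrec.nat_min.comp hl (Primrec.const 7)) ht (FormLab d) 12 7 (formK d)
    (fun x hx => ⟨Nat.min_le_right _ _, Nat.min_le_right _ _, le_of_lt (form_lab_lt d _ _ _ hx)⟩)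
  exact h.of_eq fun x => form_lab_min d _ _ _

theorem form_prim_rel {α : Type} [Primcodable α] {t t' : α → ℕ} (ht : Primrec t)
    (ht' : Primrec t') (R : Cell d.Γ d.Λ → Cell d.Γ d.Λ → Prop) :
    PrimrecPred fun x => ∃ a b : Cell d.Γ d.Λ, d.num a = t x ∧ d.num b = t' x ∧ R a b := by
  refine form_fin3 (Primrec.const 0) ht ht' (fun _ t t' => ∃ a b : Cell d.Γ d.Λ, d.num a = t ∧
    d.num b = t' ∧ R a b) 0 (formK d) (formK d) ?_
  rintro x ⟨a, b, h1, h2, -⟩
  exact ⟨le_refl _, h1 ▸ le_of_lt (form_num_lt d a), h2 ▸ le_of_lt (form_num_lt d b)⟩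

/-- column edges, as a predicate on `m, i, i'` -/
theorem form_prim_EC {α : Type} [Primcodable α] {m i j : α → ℕ} (hm : Primrec m) (hi : Primrec i)
    (hj : Primrec j) : PrimrecPred fun x => (d.sys (m x)).EC (i x) (j x) := by
  have e : ∀ {f : α → ℕ} (_ : Primrec f) (c : ℕ), PrimrecPred fun x => f x = c :=
    fun hf c => Primrec.eq.comp hf (Primrec.const c)
  exact ((e hi 0).and (e hj 1)).or (((e hi 1).and (e hj 2)).or (((e hi 2).and (e hj 0)).or
    (((e hi 3).and (e hj 4)).or (((e hi 4).and (e hj 5)).or (((e hi 5).and (e hj 3)).or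
    (((e hi 10).and (e hj 3)).or
    (((Primrec.nat_le.comp (Primrec.const 10) hi).and
      ((Primrec.nat_le.comp hi (Primrec.nat_add.comp hm (Primrec.const 10))).and
        (Primrec.eq.comp hj (Primrec.nat_add.comp hi (Primrec.const 1))))).or
    ((Primrec.eq.comp hi (Primrec.nat_add.comp hm (Primrec.const 11))).and (e hj 0)))))))))

theorem form_prim_ER {α : Type} [Primcodable α] {m i j : α → ℕ} (hi : Primrec i)
    (hj : Primrec j) : PrimrecPred fun x => (d.sys (m x)).ER (i x) (j x) := by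
  have e : ∀ {f : α → ℕ} (_ : Primrec f) (c : ℕ), PrimrecPred fun x => f x = c :=
    fun hf c => Primrec.eq.comp hf (Primrec.const c)
  exact ((e hi 6).and (e hj 7)).or (((e hi 7).and (e hj 8)).or (((e hi 8).and (e hj 9)).or
    ((e hi 9).and (e hj 7))))

theorem form_prim_KC {α : Type} [Primcodable α] {m i : α → ℕ} (hm : Primrec m) (hi : Primrec i) :
    PrimrecPred fun x => (d.sys (m x)).KC (i x) :=
  (Primrec.nat_lt.comp hi (Primrec.const 6)).or
    ((Primrec.nat_le.comp (Primrec.const 10) hi).and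
      (Primrec.nat_le.comp hi (Primrec.nat_add.comp hm (Primrec.const 11))))

theorem form_prim_KR {α : Type} [Primcodable α] {m i : α → ℕ} (hi : Primrec i) :
    PrimrecPred fun x => (d.sys (m x)).KR (i x) :=
  (Primrec.nat_le.comp (Primrec.const 6) hi).and (Primrec.nat_le.comp hi (Primrec.const 9))

theorem form_prim_FC {α : Type} [Primcodable α] {m i i' l t t' : α → ℕ} (hi : Primrec i')
    (ht : Primrec t) (ht' : Primrec t') :
    PrimrecPred fun x => (d.sys (m x)).FC (i x) (i' x) (l x) (t x) (t' x) := by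
  have h0 : PrimrecPred fun x => 3 ≤ i' x ∧ i' x ≤ 5 :=
    (Primrec.nat_le.comp (Primrec.const 3) hi).and (Primrec.nat_le.comp hi (Primrec.const 5))
  refine ((h0.and (form_prim_rel d ht ht' fun a b => ¬ d.HOK b a)).or
    (h0.not.and (form_prim_rel d ht ht' fun a b => ¬ d.HOK a b))).of_eq fun x => ?_
  constructor
  · rintro (⟨⟨h1, h2⟩, a, b, ha, hb, h⟩ | ⟨h0, a, b, ha, hb, h⟩)
    · exact ⟨a, b, ha, hb, Or.inl ⟨h1, h2, h⟩⟩
    · exact ⟨a, b, ha, hb, Or.inr ⟨h0, h⟩⟩
  · rintro ⟨a, b, ha, hb, ⟨h1, h2, h⟩ | ⟨h0, h⟩⟩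
    · exact Or.inl ⟨⟨h1, h2⟩, a, b, ha, hb, h⟩
    · exact Or.inr ⟨h0, a, b, ha, hb, h⟩

theorem form_prim_FR {α : Type} [Primcodable α] {m i i' l t t' : α → ℕ}
    (ht : Primrec t) (ht' : Primrec t') :
    PrimrecPred fun x => (d.sys (m x)).FR (i x) (i' x) (l x) (t x) (t' x) :=
  form_prim_rel d ht ht' fun a b => ¬ d.VOK a b

/-! ### the formula -/

/-- the conjunct for the tuple `(i, i', l, t, t')` -/
noncomputable def formBlock (m i i' l t t' : ℕ) : Fm :=
  .and (formIf ((d.sys m).EC i i') (.and (formSucc i i') (formAdj i i'))) <|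
  .and (formIf ((d.sys m).ER i i') (.and (formSucc i i') (formAdj i i'))) <|
  .and (formIf ((d.sys m).KC i ∧ (d.sys m).KR l)
    (formImp (formConj (fun s => formIf (FormLab d i l s) (formLe (.y 0) (formT i l s))) (formK d))
      (formLe (.y 0) (.sup (formZ i) (formZ l))))) <|
  .and (formIf ((d.sys m).EC i i' ∧ (d.sys m).KR l ∧ FormLab d i l t ∧ FormLab d i' l t' ∧
    (d.sys m).FC i i' l t t') (formFor i l t i' l t')) <|
  .and (formIf ((d.sys m).ER i i' ∧ (d.sys m).KC l ∧ FormLab d l i t ∧ FormLab d l i' t' ∧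
    (d.sys m).FR i i' l t t') (formFor l i t l i' t')) <|
  .and (formIf ((d.sys m).EC i i' ∧ (d.sys m).KR l) (formInd i i' l))
    (formIf ((d.sys m).ER i i' ∧ (d.sys m).KC l) (formInd i i' l))

theorem form_block {α : Type} [Primcodable α] {m i i' l t t' : α → ℕ} (hm : Primrec m)
    (hi : Primrec i) (hi' : Primrec i') (hl : Primrec l) (ht : Primrec t) (ht' : Primrec t') :
    FormPF fun x => formBlock d (m x) (i x) (i' x) (l x) (t x) (t' x) := by
  have hEC := form_prim_EC d hm hi hi'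
  have hER := form_prim_ER d (m := m) hi hi'
  refine form_and (form_if hEC (form_and (form_succ hi hi') (form_adj hi hi'))) ?_
  refine form_and (form_if hER (form_and (form_succ hi hi') (form_adj hi hi'))) ?_
  refine form_and (form_if ((form_prim_KC d hm hi).and (form_prim_KR d (m := m) hl))
    (form_imp (form_conj (F := fun x s => formIf (FormLab d (i x) (l x) s)
      (formLe (.y 0) (formT (i x) (l x) s))) (Primrec.const _) ?_)
      (form_le (form_constT _) (form_sup (form_Z hi) (form_Z hl))))) ?_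
  · exact form_if (form_prim_lab d (hi.comp Primrec.fst) (hl.comp Primrec.fst) Primrec.snd)
      (form_le (form_constT _) (form_T (hi.comp Primrec.fst) (hl.comp Primrec.fst) Primrec.snd))
  refine form_and (form_if (hEC.and ((form_prim_KR d (m := m) hl).and
    ((form_prim_lab d hi hl ht).and ((form_prim_lab d hi' hl ht').and
      (form_prim_FC d (m := m) (i := i) (l := l) hi' ht ht')))))
    (form_for hi hl ht hi' hl ht')) ?_
  refine form_and (form_if (hER.and ((form_prim_KC d hm hl).and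
    ((form_prim_lab d hl hi ht).and ((form_prim_lab d hl hi' ht').and
      (form_prim_FR d (m := m) (i := i) (i' := i') (l := l) ht ht')))))
    (form_for hl hi ht hl hi' ht')) ?_
  exact form_and (form_if (hEC.and (form_prim_KR d (m := m) hl)) (form_ind hi hi' hl))
    (form_if (hER.and (form_prim_KC d hm hl)) (form_ind hi hi' hl))

/-- the bound -/
noncomputable def formB (m : ℕ) : ℕ := m + (12 + formK d)

/-- the formula -/
noncomputable def formG (m : ℕ) : Fm :=
  .and (.neg (formLe (.x 2) (formZ 10))) <| .and (.neg (formLe (.x 2) (formZ 6))) <|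
    formConj (fun i => formConj (fun i' => formConj (fun l => formConj (fun t => formConj (fun t' =>
      formBlock d m i i' l t t') (formB d m)) (formB d m)) (formB d m)) (formB d m)) (formB d m)

theorem form_G : FormPF fun m => formG d m := by
  have hB : Primrec (formB d) := Primrec.nat_add.comp Primrec.id (Primrec.const _)
  refine form_and (form_constF _) (form_and (form_constF _) ?_)
  refine form_conj (F := fun m i => formConj (fun i' => formConj (fun l => formConj (fun t =>
    formConj (fun t' => formBlock d m i i' l t t') (formB d m)) (formB d m)) (formB d m))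
      (formB d m)) hB ?_
  have h1 : Primrec fun p : ℕ × ℕ => formB d p.1 := hB.comp Primrec.fst
  refine form_conj (F := fun (p : ℕ × ℕ) i' => formConj (fun l => formConj (fun t =>
    formConj (fun t' => formBlock d p.1 p.2 i' l t t') (formB d p.1)) (formB d p.1))
      (formB d p.1)) h1 ?_
  have h2 : Primrec fun p : (ℕ × ℕ) × ℕ => formB d p.1.1 := h1.comp Primrec.fst
  refine form_conj (F := fun (p : (ℕ × ℕ) × ℕ) l => formConj (fun t =>
    formConj (fun t' => formBlock d p.1.1 p.1.2 p.2 l t t') (formB d p.1.1)) (formB d p.1.1)) h2 ?_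
  have h3 : Primrec fun p : ((ℕ × ℕ) × ℕ) × ℕ => formB d p.1.1.1 := h2.comp Primrec.fst
  refine form_conj (F := fun (p : ((ℕ × ℕ) × ℕ) × ℕ) t =>
    formConj (fun t' => formBlock d p.1.1.1 p.1.1.2 p.1.2 p.2 t t') (formB d p.1.1.1)) h3 ?_
  have h4 : Primrec fun p : (((ℕ × ℕ) × ℕ) × ℕ) × ℕ => formB d p.1.1.1.1 := h3.comp Primrec.fst
  refine form_conj (F := fun (p : (((ℕ × ℕ) × ℕ) × ℕ) × ℕ) t' =>
    formBlock d p.1.1.1.1 p.1.1.1.2 p.1.1.2 p.1.2 p.2 t') h4 ?_
  have f1 : Primrec fun p : ((((ℕ × ℕ) × ℕ) × ℕ) × ℕ) × ℕ => p.1 := Primrec.fst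
  have f2 : Primrec fun p : ((((ℕ × ℕ) × ℕ) × ℕ) × ℕ) × ℕ => p.1.1 := Primrec.fst.comp f1
  have f3 : Primrec fun p : ((((ℕ × ℕ) × ℕ) × ℕ) × ℕ) × ℕ => p.1.1.1 := Primrec.fst.comp f2
  have f4 : Primrec fun p : ((((ℕ × ℕ) × ℕ) × ℕ) × ℕ) × ℕ => p.1.1.1.1 := Primrec.fst.comp f3
  exact form_block d (Primrec.fst.comp f4) (Primrec.snd.comp f4) (Primrec.snd.comp f3)
    (Primrec.snd.comp f2) (Primrec.snd.comp f1) Primrec.snd

/-- assignments of the universally quantified variables -/
def formY {L : Type} (a0 a1 a2 a3 a4 a5 : L) : ℕ → L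
  | 0 => a0
  | 1 => a1
  | 2 => a2
  | 3 => a3
  | 4 => a4
  | _ => a5

theorem form_ec_lt {m i i' : ℕ} (h : (d.sys m).EC i i') : i < m + 12 ∧ i' < m + 12 := by
  rcases h with h | h | h | h | h | h | h | h | h <;> omega

theorem form_er_lt {m i i' : ℕ} (h : (d.sys m).ER i i') : i < 12 ∧ i' < 12 := by
  rcases h with h | h | h | h <;> omega

theorem form_kc_lt {m i : ℕ} (h : (d.sys m).KC i) : i < m + 12 := by
  rcases h with h | h <;> omega

theorem form_kr_lt {m i : ℕ} (h : (d.sys m).KR i) : i < 12 := by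
  have h' : 6 ≤ i ∧ i ≤ 9 := h
  omega

section Sem

variable {L : Type} [Lattice L] (x : ℕ → L)

/-- `Z i` as read off from the assignment -/
def formXZ (i : ℕ) : L := x (2 * i + 3)

/-- `T i l t` as read off from the assignment -/
def formXT (i l t : ℕ) : L := x (2 * Nat.pair i (Nat.pair l t) + 4)

theorem form_sat_block (y : ℕ → L) (m i i' l t t' : ℕ) :
    (formBlock d m i i' l t t').Sat x y ↔
    ((d.sys m).EC i i' → (Split (formXZ x i) (y 0) (y 1) → ¬ x 1 ≤ y 0 ⊔ formXZ x i') ∧
      x 0 ⊓ x 1 ≤ formXZ x i ⊔ formXZ x i') ∧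
    ((d.sys m).ER i i' → (Split (formXZ x i) (y 0) (y 1) → ¬ x 1 ≤ y 0 ⊔ formXZ x i') ∧
      x 0 ⊓ x 1 ≤ formXZ x i ⊔ formXZ x i') ∧
    ((d.sys m).KC i ∧ (d.sys m).KR l → (∀ s < formK d, FormLab d i l s → y 0 ≤ formXT x i l s) →
      y 0 ≤ formXZ x i ⊔ formXZ x l) ∧
    ((d.sys m).EC i i' ∧ (d.sys m).KR l ∧ FormLab d i l t ∧ FormLab d i' l t' ∧
      (d.sys m).FC i i' l t t' → x 2 ≤ formXT x i l t ⊔ formXT x i' l t' ⊔ x 0) ∧
    ((d.sys m).ER i i' ∧ (d.sys m).KC l ∧ FormLab d l i t ∧ FormLab d l i' t' ∧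
      (d.sys m).FR i i' l t t' → x 2 ≤ formXT x l i t ⊔ formXT x l i' t' ⊔ x 0) ∧
    ((d.sys m).EC i i' ∧ (d.sys m).KR l → Split (formXZ x i) (y 0) (y 1) ∧
      Split (formXZ x i') (y 2) (y 3) ∧ Split (formXZ x l) (y 4) (y 5) →
      ¬ x 2 ≤ y 0 ⊔ y 2 ⊔ y 4) ∧
    ((d.sys m).ER i i' ∧ (d.sys m).KC l → Split (formXZ x i) (y 0) (y 1) ∧
      Split (formXZ x i') (y 2) (y 3) ∧ Split (formXZ x l) (y 4) (y 5) →
      ¬ x 2 ≤ y 0 ⊔ y 2 ⊔ y 4) := by
  unfold formBlock formSucc formAdj formFor formInd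
  simp only [form_sat_and, form_sat_if, form_sat_imp, form_sat_split, form_sat_neg, form_sat_le,
    form_sat_conj]
  exact Iff.rfl

theorem form_sat_G (y : ℕ → L) (m : ℕ) : (formG d m).Sat x y ↔
    ¬ x 2 ≤ formXZ x 10 ∧ ¬ x 2 ≤ formXZ x 6 ∧ ∀ i < formB d m, ∀ i' < formB d m,
      ∀ l < formB d m, ∀ t < formB d m, ∀ t' < formB d m,
        (formBlock d m i i' l t t').Sat x y := by
  unfold formG
  simp only [form_sat_and, form_sat_neg, form_sat_le, form_sat_conj]
  exact Iff.rfl

theorem form_ax_of_sat (m : ℕ) (h : ∀ y : ℕ → L, (formG d m).Sat x y) :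
    (d.sys m).Ax (x 0) (x 1) (x 2) (formXZ x) (formXT x) := by
  have hb : ∀ (y : ℕ → L) i i' l t t', i < m + 12 → i' < m + 12 → l < m + 12 → t < formK d + 1 →
      t' < formK d + 1 → (formBlock d m i i' l t t').Sat x y := by
    intro y i i' l t t' h1 h2 h3 h4 h5
    have hB : formB d m = m + (12 + formK d) := rfl
    exact ((form_sat_G d x y m).1 (h y)).2.2 i (by omega) i' (by omega) l (by omega) t (by omega)
      t' (by omega)
  have h0 := (form_sat_G d x x m).1 (h x)
  have hlt : ∀ {a : ℕ}, a < 12 → a < m + 12 := fun h => by omega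
  have hlt' : ∀ {a : ℕ}, a < formK d → a < formK d + 1 := fun h => by omega
  constructor
  · exact h0.1
  · exact h0.2.1
  · intro i i' he y y' hs
    exact (((form_sat_block d x (formY y y' y y y y) m i i' 0 0 0).1 (hb _ _ _ _ _ _
      (form_ec_lt d he).1 (form_ec_lt d he).2 (by omega) (by omega) (by omega))).1 he).1 hs
  · intro i i' he y y' hs
    exact (((form_sat_block d x (formY y y' y y y y) m i i' 0 0 0).1 (hb _ _ _ _ _ _
      (hlt (form_er_lt d he).1) (hlt (form_er_lt d he).2) (by omega) (by omega)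
      (by omega))).2.1 he).1 hs
  · intro i i' he
    exact (((form_sat_block d x x m i i' 0 0 0).1 (hb _ _ _ _ _ _
      (form_ec_lt d he).1 (form_ec_lt d he).2 (by omega) (by omega) (by omega))).1 he).2
  · intro i i' he
    exact (((form_sat_block d x x m i i' 0 0 0).1 (hb _ _ _ _ _ _
      (hlt (form_er_lt d he).1) (hlt (form_er_lt d he).2) (by omega) (by omega)
      (by omega))).2.1 he).2
  · intro i l hi hl z hz
    exact ((form_sat_block d x (formY z z z z z z) m i 0 l 0 0).1 (hb _ _ _ _ _ _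
      (form_kc_lt d hi) (by omega) (hlt (form_kr_lt d hl)) (by omega)
      (by omega))).2.2.1 ⟨hi, hl⟩ (fun s _ hs => hz s hs)
  · intro i i' l t t' he hl ht ht' hf
    exact ((form_sat_block d x x m i i' l t t').1 (hb _ _ _ _ _ _
      (form_ec_lt d he).1 (form_ec_lt d he).2 (hlt (form_kr_lt d hl))
      (hlt' (form_lab_lt d _ _ _ ht)) (hlt' (form_lab_lt d _ _ _ ht')))).2.2.2.1
      ⟨he, hl, ht, ht', hf⟩
  · intro l l' i t t' he hi ht ht' hf
    exact ((form_sat_block d x x m l l' i t t').1 (hb _ _ _ _ _ _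
      (hlt (form_er_lt d he).1) (hlt (form_er_lt d he).2) (form_kc_lt d hi)
      (hlt' (form_lab_lt d _ _ _ ht)) (hlt' (form_lab_lt d _ _ _ ht')))).2.2.2.2.1
      ⟨he, hi, ht, ht', hf⟩
  · intro i i' l he hl a a' b b' c c' h1 h2 h3
    exact ((form_sat_block d x (formY a a' b b' c c') m i i' l 0 0).1 (hb _ _ _ _ _ _
      (form_ec_lt d he).1 (form_ec_lt d he).2 (hlt (form_kr_lt d hl)) (by omega)
      (by omega))).2.2.2.2.2.1 ⟨he, hl⟩ ⟨h1, h2, h3⟩
  · intro l l' i he hi a a' b b' c c' h1 h2 h3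
    exact ((form_sat_block d x (formY a a' b b' c c') m l l' i 0 0).1 (hb _ _ _ _ _ _
      (hlt (form_er_lt d he).1) (hlt (form_er_lt d he).2) (form_kc_lt d hi) (by omega)
      (by omega))).2.2.2.2.2.2 ⟨he, hi⟩ ⟨h1, h2, h3⟩

theorem form_sat_of_ax (m : ℕ) (h : (d.sys m).Ax (x 0) (x 1) (x 2) (formXZ x) (formXT x))
    (y : ℕ → L) : (formG d m).Sat x y := by
  refine (form_sat_G d x y m).2 ⟨h.start_i, h.start_l, ?_⟩
  intro i _ i' _ l _ t _ t' _
  refine (form_sat_block d x y m i i' l t t').2 ⟨?_, ?_, ?_, ?_, ?_, ?_, ?_⟩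
  · exact fun he => ⟨fun hs => h.succC i i' he _ _ hs, h.adjC i i' he⟩
  · exact fun he => ⟨fun hs => h.succR i i' he _ _ hs, h.adjR i i' he⟩
  · exact fun hk hs => h.labs i l hk.1 hk.2 (y 0) fun t ht => hs t (form_lab_lt d _ _ _ ht) ht
  · exact fun hk => h.forC i i' l t t' hk.1 hk.2.1 hk.2.2.1 hk.2.2.2.1 hk.2.2.2.2
  · exact fun hk => h.forR i i' l t t' hk.1 hk.2.1 hk.2.2.1 hk.2.2.2.1 hk.2.2.2.2
  · exact fun hk hs => h.indC i i' l hk.1 hk.2 _ _ _ _ _ _ hs.1 hs.2.1 hs.2.2
  · exact fun hk hs => h.indR i i' l hk.1 hk.2 _ _ _ _ _ _ hs.1 hs.2.1 hs.2.2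

end Sem

/-- the assignment built from `A, N, D, Z, T` -/
def formX {L : Type} (A N D : L) (Z : ℕ → L) (T : ℕ → ℕ → ℕ → L) (n : ℕ) : L :=
  if n = 0 then A else if n = 1 then N else if n = 2 then D else
    if n % 2 = 1 then Z ((n - 3) / 2) else
      T ((n - 4) / 2).unpair.1 ((n - 4) / 2).unpair.2.unpair.1 ((n - 4) / 2).unpair.2.unpair.2

theorem form_X_Z {L : Type} (A N D : L) (Z : ℕ → L) (T : ℕ → ℕ → ℕ → L) :
    formXZ (formX A N D Z T) = Z := by
  funext i
  unfold formXZ formX
  rw [if_neg (by omega), if_neg (by omega), if_neg (by omega), if_pos (by omega)]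
  have : (2 * i + 3 - 3) / 2 = i := by omega
  rw [this]

theorem form_X_T {L : Type} (A N D : L) (Z : ℕ → L) (T : ℕ → ℕ → ℕ → L) :
    formXT (formX A N D Z T) = T := by
  funext i l t
  unfold formXT formX
  rw [if_neg (by omega), if_neg (by omega), if_neg (by omega), if_neg (by omega)]
  have : (2 * Nat.pair i (Nat.pair l t) + 4 - 4) / 2 = Nat.pair i (Nat.pair l t) := by omega
  rw [this]
  simp only [Nat.unpair_pair]

end Cond

theorem exists_formula (d : TMData) : ∃ g : ℕ → Fm, Computable (fun m => (g m).code) ∧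
    ∀ (m : ℕ) (L : Type) [Lattice L],
      (∃ x : ℕ → L, ∀ y : ℕ → L, (g m).Sat x y) ↔
        ∃ (A N D : L) (Z : ℕ → L) (T : ℕ → ℕ → ℕ → L), (d.sys m).Ax A N D Z T := by
  refine ⟨formG d, Primrec.to_comp (form_G d), ?_⟩
  intro m L _
  constructor
  · rintro ⟨x, hx⟩
    exact ⟨x 0, x 1, x 2, formXZ x, formXT x, form_ax_of_sat d x m hx⟩
  · rintro ⟨A, N, D, Z, T, h⟩
    refine ⟨formX A N D Z T, fun y => form_sat_of_ax d _ m ?_ y⟩
    rw [form_X_Z, form_X_T]
    exact h

end Pool.Agent.Lib.MUD
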