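/-
MP_9f7f62_lc, module A2: property (G) of the lattice of Medvedev degrees.
-/
import Pool.Agent.Lib.MP_9f7f62_lc.Base

namespace Pool.Agent.Lib.MUD

theorem goodP_pre_length (f : ℕ → Bool) (n : ℕ) : (pre f n).length = n := by
  simp [pre]

theorem goodP_pre_succ (f : ℕ → Bool) (n : ℕ) : pre f (n + 1) = pre f n ++ [f n] := by
  simp [pre, List.range_succ]

theorem goodP_pre_eq_iff (f g : ℕ → Bool) (n : ℕ) : pre f n = pre g n ↔ ∀ i < n, f i = g i := by
  simp [pre, List.map_inj_left]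

theorem goodP_mem_cyl {P : Set (ℕ → Bool)} {f g : ℕ → Bool} {n : ℕ} :
    g ∈ cyl P (pre f n) ↔ g ∈ P ∧ ∀ i < n, g i = f i := by
  rw [cyl, Set.mem_sep_iff, goodP_pre_length, goodP_pre_eq_iff]

/-- the part of a class above an initial segment of one of its elements -/
def goodP_cylE (P : ECl) (f : ℕ → Bool) (hf : f ∈ P.carrier) (n : ℕ) : ECl :=
  ⟨cyl P.carrier (pre f n), isPi01_cyl P.pi01 _, ⟨f, goodP_mem_cyl.2 ⟨hf, fun _ _ => rfl⟩⟩⟩

/-- the prime ideal of a point -/
def goodP_idl (P : ECl) (f : ℕ → Bool) (hf : f ∈ P.carrier) : Set MedDeg :=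
  {z | ∃ n, z ≤ (goodP_cylE P f hf n).deg}

theorem goodP_cylE_mono (P : ECl) (f : ℕ → Bool) (hf : f ∈ P.carrier) {n m : ℕ} (h : n ≤ m) :
    (goodP_cylE P f hf n).deg ≤ (goodP_cylE P f hf m).deg := by
  rw [deg_le]
  refine med_of_subset ?_
  intro g hg
  rw [goodP_cylE, goodP_mem_cyl] at *
  exact ⟨hg.1, fun i hi => hg.2 i (by omega)⟩

/-- the functional that removes the first output bit -/
def goodP_tail (Φ : Functional) : Functional where
  map σ := (Φ.map σ).tail
  computable := (Primrec.list_tail.to_comp).comp Φ.computable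
  mono σ τ h := by
    obtain ⟨t, ht⟩ := Φ.mono σ τ h
    rw [← ht]
    cases h' : Φ.map σ with
    | nil => simp
    | cons a l => simp

theorem goodP_tail_computes {Φ : Functional} {g f : ℕ → Bool} (h : Φ.Computes g f) :
    (goodP_tail Φ).Computes g (fun n => f (n + 1)) := by
  refine ⟨fun k => ?_, fun n => ?_⟩
  · obtain ⟨n, hn⟩ := h.1 k
    refine ⟨n - 1, ?_⟩
    simp only [goodP_tail, hn]
    cases n with
    | zero => simp [pre]
    | succ n =>
      simp only [pre, Nat.add_sub_cancel]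
      rw [List.range_succ_eq_map]
      simp [Function.comp_def]
  · obtain ⟨k, hk⟩ := h.2 (n + 1)
    refine ⟨k, ?_⟩
    simp only [goodP_tail, List.length_tail]
    omega

theorem goodP_first {Φ : Functional} {g f : ℕ → Bool} (h : Φ.Computes g f) :
    ∃ k, ∀ g' f' : ℕ → Bool, (∀ i < k, g' i = g i) → Φ.Computes g' f' → f' 0 = f 0 := by
  obtain ⟨k, hk⟩ := h.2 1
  refine ⟨k, fun g' f' hg hf' => ?_⟩
  have h1 : pre g' k = pre g k := (goodP_pre_eq_iff _ _ _).2 hg
  obtain ⟨n, hn⟩ := h.1 k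
  obtain ⟨n', hn'⟩ := hf'.1 k
  rw [h1] at hn'
  have h2 : n = n' := by
    have := congrArg List.length (hn.symm.trans hn')
    simpa [goodP_pre_length] using this
  subst h2
  rw [hn, goodP_pre_length] at hk
  exact ((goodP_pre_eq_iff _ _ _).1 (hn'.symm.trans hn)) 0 (by omega)

theorem goodP_prime (P : ECl) (f : ℕ → Bool) (hf : f ∈ P.carrier) : IsPId (goodP_idl P f hf) where
  nonempty := ⟨_, 0, le_rfl⟩
  lower a b hab hb := by
    obtain ⟨n, hn⟩ := hb
    exact ⟨n, hab.trans hn⟩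
  sup a b ha hb := by
    obtain ⟨n, hn⟩ := ha
    obtain ⟨m, hm⟩ := hb
    exact ⟨max n m, sup_le (hn.trans (goodP_cylE_mono P f hf (le_max_left _ _)))
      (hm.trans (goodP_cylE_mono P f hf (le_max_right _ _)))⟩
  prime a b hab := by
    obtain ⟨n, hn⟩ := hab
    obtain ⟨A, rfl⟩ := deg_surj a
    obtain ⟨B, rfl⟩ := deg_surj b
    rw [deg_inf, deg_le] at hn
    obtain ⟨Φ, hΦ⟩ := hn
    obtain ⟨f', hf', hc⟩ := hΦ f (goodP_mem_cyl.2 ⟨hf, fun _ _ => rfl⟩)
    obtain ⟨k, hk⟩ := goodP_first hc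
    cases hb : f' 0 with
    | false =>
      left
      refine ⟨max n k, ?_⟩
      rw [deg_le]
      refine ⟨goodP_tail Φ, fun g hg => ?_⟩
      obtain ⟨hgP, hgf⟩ := goodP_mem_cyl.1 hg
      obtain ⟨f'', hf'', hc''⟩ := hΦ g (goodP_mem_cyl.2 ⟨hgP, fun i hi => hgf i (by omega)⟩)
      have h0 := hk g f'' (fun i hi => hgf i (by omega)) hc''
      rcases hf'' with h1 | h1
      · exact ⟨_, h1.2, goodP_tail_computes hc''⟩
      · rw [h0, hb] at h1
        exact absurd h1.1 (by simp)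
    | true =>
      right
      refine ⟨max n k, ?_⟩
      rw [deg_le]
      refine ⟨goodP_tail Φ, fun g hg => ?_⟩
      obtain ⟨hgP, hgf⟩ := goodP_mem_cyl.1 hg
      obtain ⟨f'', hf'', hc''⟩ := hΦ g (goodP_mem_cyl.2 ⟨hgP, fun i hi => hgf i (by omega)⟩)
      have h0 := hk g f'' (fun i hi => hgf i (by omega)) hc''
      rcases hf'' with h1 | h1
      · rw [h0, hb] at h1
        exact absurd h1.1 (by simp)
      · exact ⟨_, h1.2, goodP_tail_computes hc''⟩

/-- interleaving of two sequences -/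
def goodP_mix (f g : ℕ → Bool) : ℕ → Bool := fun n => if n % 2 = 0 then f (n / 2) else g (n / 2)

theorem goodP_mix_even (f g : ℕ → Bool) (n : ℕ) : goodP_mix f g (2 * n) = f n := by
  simp [goodP_mix]

theorem goodP_mix_odd (f g : ℕ → Bool) (n : ℕ) : goodP_mix f g (2 * n + 1) = g n := by
  have h1 : (2 * n + 1) % 2 = 1 := by omega
  have h2 : (2 * n + 1) / 2 = n := by omega
  simp [goodP_mix, h1, h2]

theorem goodP_mix_mem {P Q : ECl} {f g : ℕ → Bool} (hf : f ∈ P.carrier) (hg : g ∈ Q.carrier) :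
    goodP_mix f g ∈ (P.join Q).carrier := by
  refine ⟨?_, ?_⟩
  · simpa only [goodP_mix_even] using hf
  · simpa only [goodP_mix_odd] using hg

theorem goodP_join (P Q : ECl) (f g : ℕ → Bool) (hf : f ∈ P.carrier) (hg : g ∈ Q.carrier) :
    JoinId (goodP_idl P f hf) (goodP_idl Q g hg) =
      goodP_idl (P.join Q) (goodP_mix f g) (goodP_mix_mem hf hg) := by
  ext c
  constructor
  · rintro ⟨a, ⟨n, hn⟩, b, ⟨m, hm⟩, hc⟩
    refine ⟨2 * max n m, hc.trans ((sup_le_sup hn hm).trans ?_)⟩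
    rw [deg_sup, deg_le]
    refine med_of_subset ?_
    intro h hh
    obtain ⟨hPQ, hh⟩ := goodP_mem_cyl.1 hh
    refine ⟨goodP_mem_cyl.2 ⟨hPQ.1, fun i hi => ?_⟩, goodP_mem_cyl.2 ⟨hPQ.2, fun i hi => ?_⟩⟩
    · have := hh (2 * i) (by omega)
      rwa [goodP_mix_even] at this
    · have := hh (2 * i + 1) (by omega)
      rwa [goodP_mix_odd] at this
  · rintro ⟨n, hn⟩
    refine ⟨_, ⟨n, le_rfl⟩, _, ⟨n, le_rfl⟩, hn.trans ?_⟩
    rw [deg_sup, deg_le]
    refine med_of_subset ?_
    rintro h ⟨h1, h2⟩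
    obtain ⟨h1, h1'⟩ := goodP_mem_cyl.1 h1
    obtain ⟨h2, h2'⟩ := goodP_mem_cyl.1 h2
    refine goodP_mem_cyl.2 ⟨⟨h1, h2⟩, fun i hi => ?_⟩
    rcases Nat.even_or_odd' i with ⟨j, rfl | rfl⟩
    · rw [goodP_mix_even]
      exact h1' j (by omega)
    · rw [goodP_mix_odd]
      exact h2' j (by omega)

/-- the functional that copies its oracle with the bit number `n` in front -/
def goodP_copy (n : ℕ) : Functional where
  map σ := match σ[n]? with
    | none => []
    | some b => b :: σ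
  computable := by
    have h1 : Computable (fun σ : List Bool => σ[n]?) :=
      (Primrec.list_getElem?.comp Primrec.id (Primrec.const n)).to_comp
    have h2 : Computable₂ (fun (σ : List Bool) (b : Bool) => b :: σ) :=
      (Primrec.list_cons.comp Primrec.snd Primrec.fst).to_comp
    refine (Computable.option_casesOn h1 (Computable.const []) h2).of_eq fun σ => ?_
    cases h : σ[n]? <;> simp
  mono σ τ h := by
    obtain ⟨t, rfl⟩ := h
    by_cases hn : n < σ.length
    · have h1 : (σ ++ t)[n]? = σ[n]? := List.getElem?_append_left hn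
      rw [h1, List.getElem?_eq_getElem hn]
      simp
    · rw [List.getElem?_eq_none (by omega : σ.length ≤ n)]
      exact List.nil_prefix

theorem goodP_copy_computes (n : ℕ) (f : ℕ → Bool) :
    (goodP_copy n).Computes f (fun i => if i = 0 then f n else f (i - 1)) := by
  have key : ∀ k, (goodP_copy n).map (pre f k) = if n < k then f n :: pre f k else [] := by
    intro k
    simp only [goodP_copy]
    by_cases h : n < k
    · have : (pre f k)[n]? = some (f n) := by
        simp [pre, h]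
      rw [this, if_pos h]
    · have : (pre f k)[n]? = none := by
        simp [pre]
        omega
      rw [this, if_neg h]
  refine ⟨fun k => ?_, fun m => ?_⟩
  · rw [key]
    by_cases h : n < k
    · refine ⟨k + 1, ?_⟩
      rw [if_pos h]
      simp only [pre]
      rw [List.range_succ_eq_map]
      simp [Function.comp_def]
    · refine ⟨0, ?_⟩
      rw [if_neg h]
      simp [pre]
  · refine ⟨n + 1 + m, ?_⟩
    rw [key, if_pos (by omega)]
    simp only [List.length_cons, goodP_pre_length]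
    omega

theorem goodP_split (A B C : Set (ℕ → Bool)) (n : ℕ)
    (h : ∀ f ∈ C, (f n = false → f ∈ A) ∧ (f n = true → f ∈ B)) : Med (meetSet A B) C := by
  refine ⟨goodP_copy n, fun g hg => ⟨_, ?_, goodP_copy_computes n g⟩⟩
  cases hb : g n with
  | false =>
    left
    refine ⟨by simp, ?_⟩
    simpa using (h g hg).1 hb
  | true =>
    right
    refine ⟨by simp, ?_⟩
    simpa using (h g hg).2 hb

/-- a string above which the class is nonempty with degree outside of `F` -/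
def goodP_ok (Q : ECl) (F : Set MedDeg) (σ : List Bool) : Prop :=
  ∃ h : (cyl Q.carrier σ).Nonempty, (⟨cyl Q.carrier σ, isPi01_cyl Q.pi01 σ, h⟩ : ECl).deg ∉ F

theorem goodP_mem_cyl_append {P : Set (ℕ → Bool)} {σ : List Bool} {b : Bool} {f : ℕ → Bool} :
    f ∈ cyl P (σ ++ [b]) ↔ f ∈ cyl P σ ∧ f σ.length = b := by
  simp only [cyl, Set.mem_sep_iff, List.length_append, List.length_cons, List.length_nil, zero_add,
    goodP_pre_succ]
  constructor
  · rintro ⟨h1, h2⟩
    have h3 := List.append_inj h2 (by rw [goodP_pre_length])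
    refine ⟨⟨h1, h3.1⟩, by simpa using h3.2⟩
  · rintro ⟨⟨h1, h2⟩, h3⟩
    exact ⟨h1, by rw [h2, h3]⟩

theorem goodP_ok_step (Q : ECl) (F : Set MedDeg) (hF : IsFilt F) (σ : List Bool)
    (h : goodP_ok Q F σ) : ∃ b, goodP_ok Q F (σ ++ [b]) := by
  obtain ⟨hne, hdeg⟩ := h
  by_contra hcon
  push Not at hcon
  by_cases h0 : (cyl Q.carrier (σ ++ [false])).Nonempty
  · by_cases h1 : (cyl Q.carrier (σ ++ [true])).Nonempty
    · have e0 : (⟨cyl Q.carrier (σ ++ [false]), isPi01_cyl Q.pi01 _, h0⟩ : ECl).deg ∈ F := by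
        by_contra h'
        exact hcon false ⟨h0, h'⟩
      have e1 : (⟨cyl Q.carrier (σ ++ [true]), isPi01_cyl Q.pi01 _, h1⟩ : ECl).deg ∈ F := by
        by_contra h'
        exact hcon true ⟨h1, h'⟩
      refine hdeg (hF.upper _ _ ?_ (hF.inf _ _ e0 e1))
      rw [deg_inf, deg_le]
      refine goodP_split _ _ _ σ.length fun f hf => ⟨fun hb => ?_, fun hb => ?_⟩
      · exact goodP_mem_cyl_append.2 ⟨hf, hb⟩
      · exact goodP_mem_cyl_append.2 ⟨hf, hb⟩
    · refine hcon false ⟨h0, fun h' => hdeg (hF.upper _ _ ?_ h')⟩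
      rw [deg_le]
      refine med_of_subset fun f hf => ?_
      cases hb : f σ.length with
      | false => exact goodP_mem_cyl_append.2 ⟨hf, hb⟩
      | true => exact absurd ⟨f, goodP_mem_cyl_append.2 ⟨hf, hb⟩⟩ h1
  · obtain ⟨f, hf⟩ := hne
    have h1 : (cyl Q.carrier (σ ++ [true])).Nonempty := by
      refine ⟨f, goodP_mem_cyl_append.2 ⟨hf, ?_⟩⟩
      by_contra hb
      exact h0 ⟨f, goodP_mem_cyl_append.2 ⟨hf, by simpa using hb⟩⟩
    refine hcon true ⟨h1, fun h' => hdeg (hF.upper _ _ ?_ h')⟩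
    rw [deg_le]
    refine med_of_subset fun f hf => ?_
    cases hb : f σ.length with
    | false => exact absurd ⟨f, goodP_mem_cyl_append.2 ⟨hf, hb⟩⟩ h0
    | true => exact goodP_mem_cyl_append.2 ⟨hf, hb⟩

theorem goodP_cyl_nil (P : Set (ℕ → Bool)) : cyl P [] = P := by
  ext f
  simp [cyl, pre]

theorem goodP_path (Q : ECl) (F : Set MedDeg) (hF : IsFilt F) (hQ : Q.deg ∉ F) :
    ∃ g ∈ Q.carrier, ∀ n, goodP_ok Q F (pre g n) := by
  have h0 : goodP_ok Q F [] := by
    have hne : (cyl Q.carrier []).Nonempty := by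
      rw [goodP_cyl_nil]
      exact Q.nonempty
    refine ⟨hne, fun h => hQ (hF.upper _ _ ?_ h)⟩
    rw [deg_le]
    refine med_of_subset ?_
    show Q.carrier ⊆ cyl Q.carrier []
    rw [goodP_cyl_nil]
  choose b hb using fun s : {σ // goodP_ok Q F σ} => goodP_ok_step Q F hF s.1 s.2
  let seq : ℕ → {σ // goodP_ok Q F σ} :=
    fun n => Nat.rec ⟨[], h0⟩ (fun _ s => ⟨s.1 ++ [b s], hb s⟩) n
  have hs : ∀ n, pre (fun n => b (seq n)) n = (seq n).1 := by
    intro n
    induction n with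
    | zero => rfl
    | succ n ih =>
      rw [goodP_pre_succ, ih]
  refine ⟨fun n => b (seq n), ?_, fun n => ?_⟩
  · obtain ⟨T, hT⟩ := Q.pi01
    rw [hT]
    intro n
    obtain ⟨⟨f, hf, hfn⟩, -⟩ := (seq n).2
    rw [hT] at hf
    rw [hs, ← hfn]
    exact hf _
  · rw [hs]
    exact (seq n).2

theorem goodPts : GoodPts MedDeg := by
  refine ⟨{I | ∃ (P : ECl) (f : ℕ → Bool) (hf : f ∈ P.carrier), I = goodP_idl P f hf}, ?_, ?_, ?_⟩
  · rintro I ⟨P, f, hf, rfl⟩
    exact goodP_prime P f hf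
  · rintro I ⟨P, f, hf, rfl⟩ J ⟨Q, g, hg, rfl⟩
    exact ⟨P.join Q, goodP_mix f g, goodP_mix_mem hf hg, goodP_join P Q f g hf hg⟩
  · intro q F hF hq
    obtain ⟨Q, rfl⟩ := deg_surj q
    obtain ⟨g, hg, hok⟩ := goodP_path Q F hF hq
    refine ⟨_, ⟨Q, g, hg, rfl⟩, ⟨0, ?_⟩, ?_⟩
    · rw [deg_le]
      refine med_of_subset ?_
      intro f hf
      exact hf.1
    · rintro z ⟨n, hn⟩ hz
      obtain ⟨hne, hdeg⟩ := hok n
      exact hdeg (hF.upper _ _ hn hz)

end Pool.Agent.Lib.MUD
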