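/-
MP_9f7f62_lc, module D1a: the stage construction is computable.
-/
import Pool.Agent.Lib.MP_9f7f62_lc.Defs

namespace Pool.Agent.Lib.MUD

open Primrec

lemma prio1_lastHigher : Primrec₂ lastHigher := by
  have h : Primrec fun a : ℕ × List Entry =>
      a.2.foldr (fun e m => (fun (a : ℕ × List Entry) (p : Entry × ℕ) =>
        if p.1.1 < a.1 then max (p.1.2.1 + 1) p.2 else p.2) a (e, m)) 0 := by
    refine list_foldr (f := fun a : ℕ × List Entry => a.2) (g := fun _ => 0)
      (h := fun (a : ℕ × List Entry) (p : Entry × ℕ) =>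
        if p.1.1 < a.1 then max (p.1.2.1 + 1) p.2 else p.2) snd (const 0) ?_
    refine Primrec.ite ?_ ?_ ?_
    · exact nat_lt.comp (fst.comp (fst.comp snd)) (fst.comp fst)
    · exact nat_max.comp (succ.comp (fst.comp (snd.comp (fst.comp snd)))) (snd.comp snd)
    · exact snd.comp snd
  exact h

lemma prio1_acted : Primrec fun a : (ℕ × ℕ) × List Entry => acted a.1.1 a.1.2 a.2 := by
  have h : Primrec fun a : (ℕ × ℕ) × List Entry =>
      a.2.foldr (fun e b => (fun (a : (ℕ × ℕ) × List Entry) (p : Entry × Bool) =>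
        p.2 || (decide (p.1.1 = a.1.1) && decide (a.1.2 ≤ p.1.2.1))) a (e, b)) false := by
    refine list_foldr (f := fun a : (ℕ × ℕ) × List Entry => a.2) (g := fun _ => false)
      (h := fun (a : (ℕ × ℕ) × List Entry) (p : Entry × Bool) =>
        p.2 || (decide (p.1.1 = a.1.1) && decide (a.1.2 ≤ p.1.2.1))) snd (const false) ?_
    refine Primrec.or.comp (snd.comp snd) (Primrec.and.comp ?_ ?_)
    · exact (Primrec.eq.comp (fst.comp (fst.comp snd)) (fst.comp (fst.comp fst))).decide
    · exact (nat_le.comp (snd.comp (fst.comp fst)) (fst.comp (snd.comp (fst.comp snd)))).decide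
  exact h

lemma prio1_zval : Primrec fun a : (ℕ × List Entry) × ℕ => zval a.1.1 a.1.2 a.2 := by
  have h : Primrec fun a : (ℕ × List Entry) × ℕ =>
      a.1.2.foldr (fun e b => (fun (a : (ℕ × List Entry) × ℕ) (p : Entry × Bool) =>
        p.2 || (decide (p.1.2.2.1 = a.2) && p.1.2.2.2)) a (e, b)) false := by
    refine list_foldr (f := fun a : (ℕ × List Entry) × ℕ => a.1.2) (g := fun _ => false)
      (h := fun (a : (ℕ × List Entry) × ℕ) (p : Entry × Bool) =>
        p.2 || (decide (p.1.2.2.1 = a.2) && p.1.2.2.2)) (snd.comp fst) (const false) ?_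
    refine Primrec.or.comp (snd.comp snd) (Primrec.and.comp ?_ ?_)
    · exact (Primrec.eq.comp (fst.comp (snd.comp (snd.comp (fst.comp snd)))) (snd.comp fst)).decide
    · exact snd.comp (snd.comp (snd.comp (fst.comp snd)))
  refine Primrec.and.comp (Primrec.not.comp ?_) h
  exact (Primrec.eq.comp (fst.comp (unpair.comp snd)) (fst.comp fst)).decide

lemma prio1_zpre : Primrec fun a : (ℕ × List Entry) × ℕ => zpre a.1.1 a.1.2 a.2 := by
  refine list_map (list_range.comp snd) ?_
  exact prio1_zval.comp (Primrec.pair (fst.comp fst) snd)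

lemma prio1_query : Primrec fun a : (ℕ × ℕ) × (ℕ × List Bool) =>
    query a.1.1 a.1.2 a.2.1 a.2.2 := by
  refine option_bind (f := fun a : (ℕ × ℕ) × (ℕ × List Bool) =>
    Nat.Partrec.Code.evaln a.1.2 (Denumerable.ofNat Nat.Partrec.Code a.1.1)
      (Encodable.encode a.2.2)) ?_ ?_
  · exact Nat.Partrec.Code.primrec_evaln.comp (Primrec.pair (Primrec.pair (snd.comp fst)
      ((Primrec.ofNat Nat.Partrec.Code).comp (fst.comp fst))) (Primrec.encode.comp (snd.comp snd)))
  · refine option_bind (f := fun p : ((ℕ × ℕ) × (ℕ × List Bool)) × ℕ =>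
      Encodable.decode (α := List Bool) p.2) (Primrec.decode.comp snd) ?_
    exact list_getElem?.comp snd (fst.comp (snd.comp (fst.comp fst)))

lemma prio1_posn : Primrec₂ posn := by
  exact Primrec₂.natPair.comp (fst.comp (unpair.comp fst))
    (Primrec₂.natPair.comp fst prio1_lastHigher)

lemma prio1_stepE : Primrec₂ stepE := by
  have u1 : Primrec fun a : ℕ × List Entry => a.1.unpair.1 := fst.comp (unpair.comp fst)
  have u2 : Primrec fun a : ℕ × List Entry => a.1.unpair.2 := snd.comp (unpair.comp fst)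
  have hposn : Primrec fun a : ℕ × List Entry => posn a.1.unpair.1 a.2 := prio1_posn.comp u1 snd
  have hz : Primrec fun a : ℕ × List Entry =>
      zpre a.1.unpair.1.unpair.1 a.2 a.1.unpair.2.unpair.1 :=
    prio1_zpre.comp (Primrec.pair (Primrec.pair (fst.comp (unpair.comp u1)) snd)
      (fst.comp (unpair.comp u2)))
  have hq : Primrec fun a : ℕ × List Entry =>
      query a.1.unpair.1.unpair.2 a.1.unpair.2.unpair.2.unpair.1 (posn a.1.unpair.1 a.2)
        (zpre a.1.unpair.1.unpair.1 a.2 a.1.unpair.2.unpair.1) :=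
    prio1_query.comp (Primrec.pair (Primrec.pair (snd.comp (unpair.comp u1))
      (fst.comp (unpair.comp (snd.comp (unpair.comp u2))))) (Primrec.pair hposn hz))
  have ha : Primrec fun a : ℕ × List Entry =>
      acted a.1.unpair.1 (lastHigher a.1.unpair.1 a.2) a.2 :=
    prio1_acted.comp (Primrec.pair (Primrec.pair u1 (prio1_lastHigher.comp u1 snd)) snd)
  have hc := option_casesOn (f := fun a : ℕ × List Entry => a.2)
    (g := fun (a : ℕ × List Entry) (v : Bool) =>
      (a.1.unpair.1, a.1, posn a.1.unpair.1 a.2, !v) :: a.2) hq snd (by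
      refine list_cons.comp (Primrec.pair (u1.comp fst) (Primrec.pair (fst.comp fst)
        (Primrec.pair (hposn.comp fst) (Primrec.not.comp snd)))) (snd.comp fst))
  have hmain := Primrec.cond ha (snd (α := ℕ) (β := List Entry)) hc
  refine hmain.of_eq fun a => ?_
  unfold stepE
  cases h1 : acted a.1.unpair.1 (lastHigher a.1.unpair.1 a.2) a.2
  · simp only [cond_false, Bool.false_eq_true, if_false]
    cases query a.1.unpair.1.unpair.2 a.1.unpair.2.unpair.2.unpair.1 (posn a.1.unpair.1 a.2)
        (zpre a.1.unpair.1.unpair.1 a.2 a.1.unpair.2.unpair.1) <;> rfl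
  · simp

theorem stage_primrec : Primrec stage := by
  have h := nat_rec₁ (f := fun s L => stepE s L) ([] : List Entry) prio1_stepE
  refine h.of_eq fun n => ?_
  induction n with
  | zero => rfl
  | succ n ih => rw [stage, ← ih]

theorem stage_computable : Computable stage := stage_primrec.to_comp

end Pool.Agent.Lib.MUD
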