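/-
MP_9f7f62_lc, module D1b: verification of the stage construction.
-/
import Pool.Agent.Lib.MP_9f7f62_lc.Defs

namespace Pool.Agent.Lib.MUD

/-! ### characterisations of the list folds -/

theorem prio2_acted_iff (r t : ℕ) (L : List Entry) :
    acted r t L = true ↔ ∃ e ∈ L, e.1 = r ∧ t ≤ e.2.1 := by
  unfold acted
  induction L with
  | nil => simp
  | cons e L ih =>
    simp only [List.foldr_cons, Bool.or_eq_true, Bool.and_eq_true, decide_eq_true_eq, ih,
      List.mem_cons, exists_eq_or_imp]
    exact or_comm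

theorem prio2_lastHigher_le_iff (r : ℕ) (L : List Entry) (b : ℕ) :
    lastHigher r L ≤ b ↔ ∀ e ∈ L, e.1 < r → e.2.1 + 1 ≤ b := by
  unfold lastHigher
  induction L with
  | nil => simp
  | cons e L ih =>
    simp only [List.foldr_cons, List.mem_cons, forall_eq_or_imp]
    split_ifs with h
    · rw [max_le_iff, ih]; tauto
    · rw [ih]; tauto

theorem prio2_lt_lastHigher {r : ℕ} {L : List Entry} {e : Entry} (he : e ∈ L) (h : e.1 < r) :
    e.2.1 + 1 ≤ lastHigher r L :=
  (prio2_lastHigher_le_iff r L _).1 le_rfl e he h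

theorem prio2_zval_iff (i : ℕ) (L : List Entry) (p : ℕ) :
    zval i L p = true ↔ p.unpair.1 ≠ i ∧ ∃ e ∈ L, e.2.2.1 = p ∧ e.2.2.2 = true := by
  unfold zval
  have : (L.foldr (fun e b => b || (decide (e.2.2.1 = p) && e.2.2.2)) false) = true ↔
      ∃ e ∈ L, e.2.2.1 = p ∧ e.2.2.2 = true := by
    induction L with
    | nil => simp
    | cons e L ih =>
      simp only [List.foldr_cons, Bool.or_eq_true, Bool.and_eq_true, decide_eq_true_eq, ih,
        List.mem_cons, exists_eq_or_imp]
      exact or_comm
  rw [Bool.and_eq_true, this]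
  simp

/-! ### entries of the stages -/

/-- entry `e` is added at stage `e.2.1` -/
structure Prio2Acts (e : Entry) : Prop where
  req : e.1 = e.2.1.unpair.1
  pos : e.2.2.1 = posn e.1 (stage e.2.1)
  act : acted e.1 (lastHigher e.1 (stage e.2.1)) (stage e.2.1) = false
  qry : query e.1.unpair.2 e.2.1.unpair.2.unpair.2.unpair.1 (posn e.1 (stage e.2.1))
      (zpre e.1.unpair.1 (stage e.2.1) e.2.1.unpair.2.unpair.1) = some (!e.2.2.2)

theorem prio2_stepE_cases (s : ℕ) (L : List Entry) :
    (stepE s L = L ∧ (acted s.unpair.1 (lastHigher s.unpair.1 L) L = true ∨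
      query s.unpair.1.unpair.2 s.unpair.2.unpair.2.unpair.1 (posn s.unpair.1 L)
        (zpre s.unpair.1.unpair.1 L s.unpair.2.unpair.1) = none)) ∨
    ∃ v, stepE s L = (s.unpair.1, s, posn s.unpair.1 L, !v) :: L ∧
      acted s.unpair.1 (lastHigher s.unpair.1 L) L = false ∧
      query s.unpair.1.unpair.2 s.unpair.2.unpair.2.unpair.1 (posn s.unpair.1 L)
        (zpre s.unpair.1.unpair.1 L s.unpair.2.unpair.1) = some v := by
  unfold stepE
  split_ifs with h
  · exact Or.inl ⟨rfl, Or.inl h⟩
  · cases hq : query s.unpair.1.unpair.2 s.unpair.2.unpair.2.unpair.1 (posn s.unpair.1 L)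
        (zpre s.unpair.1.unpair.1 L s.unpair.2.unpair.1) with
    | none => exact Or.inl ⟨rfl, Or.inr rfl⟩
    | some v => exact Or.inr ⟨v, rfl, by simpa using h, rfl⟩

theorem prio2_mem_stage (s : ℕ) (e : Entry) : e ∈ stage s ↔ e.2.1 < s ∧ Prio2Acts e := by
  induction s with
  | zero => simp [stage]
  | succ s ih =>
    rw [stage]
    rcases prio2_stepE_cases s (stage s) with ⟨h1, h2⟩ | ⟨v, h1, h2, h3⟩
    · rw [h1, ih]
      constructor
      · rintro ⟨h, h'⟩
        exact ⟨by omega, h'⟩
      · rintro ⟨h, h'⟩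
        refine ⟨?_, h'⟩
        rcases Nat.lt_succ_iff_lt_or_eq.1 h with h4 | h4
        · exact h4
        · exfalso
          obtain ⟨a1, a2, a3, a4⟩ := h'
          rw [h4] at a1 a2 a3 a4
          rw [a1] at a3 a4
          rcases h2 with h2 | h2
          · rw [h2] at a3; exact absurd a3 (by simp)
          · rw [h2] at a4; exact absurd a4 (by simp)
    · rw [h1, List.mem_cons, ih]
      constructor
      · rintro (h | ⟨h, h'⟩)
        · subst h
          exact ⟨Nat.lt_succ_self _, rfl, rfl, h2, by simpa using h3⟩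
        · exact ⟨by omega, h'⟩
      · rintro ⟨h, h'⟩
        rcases Nat.lt_succ_iff_lt_or_eq.1 h with h4 | h4
        · exact Or.inr ⟨h4, h'⟩
        · left
          obtain ⟨a1, a2, a3, a4⟩ := h'
          obtain ⟨e1, e2, e3, e4⟩ := e
          simp only at h4 a1 a2 a3 a4
          subst h4
          subst a1
          rw [h3] at a4
          have h5 : v = !e4 := by simpa using a4
          rw [a2, h5]
          simp

theorem stage_mono {s t : ℕ} (h : s ≤ t) : stage s ⊆ stage t := by
  intro e he
  rw [prio2_mem_stage] at he ⊢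
  exact ⟨by omega, he.2⟩

theorem prio2_lastHigher_mono (r : ℕ) {s t : ℕ} (h : s ≤ t) :
    lastHigher r (stage s) ≤ lastHigher r (stage t) := by
  rw [prio2_lastHigher_le_iff]
  intro e he h1
  exact prio2_lt_lastHigher (stage_mono h he) h1

theorem prio2_lastHigher_le (r s : ℕ) : lastHigher r (stage s) ≤ s := by
  rw [prio2_lastHigher_le_iff]
  intro e he _
  exact ((prio2_mem_stage s e).1 he).1

/-- two entries of the same requirement made with the same value of `lastHigher` are equal -/
theorem prio2_stage_eq {s : ℕ} {e e' : Entry} (he : e ∈ stage s) (he' : e' ∈ stage s)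
    (h : e.1 = e'.1) (h' : lastHigher e.1 (stage e.2.1) = lastHigher e.1 (stage e'.2.1)) :
    ¬ e.2.1 < e'.2.1 := by
  intro hlt
  have h1 := (prio2_mem_stage s e).1 he
  have h2 := (prio2_mem_stage s e').1 he'
  have h3 := h2.2.act
  rw [← h, ← h'] at h3
  have h4 : acted e.1 (lastHigher e.1 (stage e.2.1)) (stage e'.2.1) = true := by
    rw [prio2_acted_iff]
    exact ⟨e, (prio2_mem_stage _ e).2 ⟨hlt, h1.2⟩, rfl, prio2_lastHigher_le _ _⟩
  rw [h4] at h3
  exact absurd h3 (by simp)

theorem prio2_acts_unique {e e' : Entry} (h : Prio2Acts e) (h' : Prio2Acts e')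
    (hs : e.2.1 = e'.2.1) : e = e' := by
  obtain ⟨e1, e2, e3, e4⟩ := e
  obtain ⟨f1, f2, f3, f4⟩ := e'
  obtain ⟨a1, a2, a3, a4⟩ := h
  obtain ⟨b1, b2, b3, b4⟩ := h'
  simp only at hs a1 a2 a3 a4 b1 b2 b3 b4
  subst hs
  subst a1
  subst b1
  rw [b4] at a4
  have h5 : f4 = e4 := by simpa using a4
  rw [a2, b2, h5]

theorem stage_unique (s : ℕ) (e e' : Entry) (he : e ∈ stage s) (he' : e' ∈ stage s)
    (h : e.2.2.1 = e'.2.2.1) : e.2.2.2 = e'.2.2.2 := by
  have h1 := (prio2_mem_stage s e).1 he
  have h2 := (prio2_mem_stage s e').1 he'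
  rw [h1.2.pos, h2.2.pos, posn, posn, Nat.pair_eq_pair, Nat.pair_eq_pair] at h
  obtain ⟨-, h3, h4⟩ := h
  have h5 := prio2_stage_eq he he' h3 (by rw [h4, h3])
  have h6 := prio2_stage_eq he' he h3.symm (by rw [← h4, h3])
  rw [prio2_acts_unique h1.2 h2.2 (by omega)]

/-! ### finite injury -/

/-- every requirement acts finitely often -/
theorem prio2_finite (r : ℕ) : ∃ b, ∀ s, ∀ e ∈ stage s, e.1 = r → e.2.1 < b := by
  induction r using Nat.strong_induction_on with
  | _ r ih =>
    -- a common bound for the smaller requirements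
    have h1 : ∃ B, ∀ s, ∀ e ∈ stage s, e.1 < r → e.2.1 < B := by
      choose! b hb using ih
      refine ⟨(Finset.range r).sup b, fun s e he h => ?_⟩
      exact lt_of_lt_of_le (hb e.1 h s e he rfl)
        (Finset.le_sup (f := b) (Finset.mem_range.2 h))
    obtain ⟨B, hB⟩ := h1
    by_cases h2 : ∃ s, ∃ e ∈ stage s, e.1 = r ∧ B ≤ e.2.1
    · obtain ⟨s, e, he, h3, h4⟩ := h2
      refine ⟨e.2.1 + 1, fun s' e' he' h5 => ?_⟩
      by_contra h6
      have h7 : e.2.1 < e'.2.1 := by omega
      have h8 := prio2_stage_eq (s := max s s') (stage_mono (le_max_left _ _) he)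
        (stage_mono (le_max_right _ _) he') (by rw [h3, h5]) (by
          apply le_antisymm (prio2_lastHigher_mono _ h7.le)
          rw [prio2_lastHigher_le_iff]
          intro f hf h9
          have h10 := hB _ f hf (by rw [← h3]; exact h9)
          refine prio2_lt_lastHigher ?_ h9
          rw [prio2_mem_stage] at hf ⊢
          exact ⟨by omega, hf.2⟩)
      exact h8 h7
    · push Not at h2
      exact ⟨B, fun s e he h => h2 s e he h⟩

/-- the final value of `lastHigher` -/
theorem prio2_final (r : ℕ) : ∃ t s0, (∀ s, lastHigher r (stage s) ≤ t) ∧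
    ∀ s, s0 ≤ s → lastHigher r (stage s) = t := by
  have h1 : ∃ B, ∀ s, lastHigher r (stage s) ≤ B := by
    choose b hb using prio2_finite
    refine ⟨(Finset.range r).sup b, fun s => ?_⟩
    rw [prio2_lastHigher_le_iff]
    intro e he h
    exact lt_of_lt_of_le (hb e.1 s e he rfl)
      (Finset.le_sup (f := b) (Finset.mem_range.2 h))
  obtain ⟨B, hB⟩ := h1
  have h2 : ∃ t, (∃ s, lastHigher r (stage s) = t) ∧ ∀ s, lastHigher r (stage s) ≤ t := by
    classical
    let S : Finset ℕ := (Finset.range (B + 1)).filter (fun t => ∃ s, lastHigher r (stage s) = t)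
    have hS : S.Nonempty := ⟨lastHigher r (stage 0), by
      simp only [S, Finset.mem_filter, Finset.mem_range]
      exact ⟨Nat.lt_succ_of_le (hB 0), 0, rfl⟩⟩
    refine ⟨S.max' hS, ?_, fun s => ?_⟩
    · exact (Finset.mem_filter.1 (S.max'_mem hS)).2
    · apply S.le_max'
      simp only [S, Finset.mem_filter, Finset.mem_range]
      exact ⟨Nat.lt_succ_of_le (hB s), s, rfl⟩
  obtain ⟨t, ⟨s0, hs0⟩, ht⟩ := h2
  exact ⟨t, s0, ht, fun s hs => le_antisymm (ht s) (hs0 ▸ prio2_lastHigher_mono r hs)⟩

theorem prio2_exists_code (Φ : Functional) : ∃ c : ℕ,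
    ∀ σ : List Bool, (Denumerable.ofNat Nat.Partrec.Code c).eval (Encodable.encode σ) =
      Part.some (Encodable.encode (Φ.map σ)) := by
  have h1 : Computable (fun n : ℕ => ((Encodable.decode (α := List Bool) n).map
      (fun σ => Encodable.encode (Φ.map σ))).getD 0) :=
    Computable.option_getD (Computable.option_map (Computable.decode)
      ((Computable.encode.comp (Φ.computable.comp Computable.snd)).to₂)) (Computable.const 0)
  obtain ⟨c, hc⟩ := Nat.Partrec.Code.exists_code.1 (Partrec.nat_iff.1 h1)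
  refine ⟨Encodable.encode c, fun σ => ?_⟩
  rw [Denumerable.ofNat_encode, hc]
  simp [PFun.coe_val]

theorem prio2_query_some {Φ : Functional} {c : ℕ}
    (hc : ∀ σ : List Bool, (Denumerable.ofNat Nat.Partrec.Code c).eval (Encodable.encode σ) =
      Part.some (Encodable.encode (Φ.map σ))) {u n : ℕ} {σ : List Bool} {v : Bool}
    (h : query c u n σ = some v) : (Φ.map σ)[n]? = some v := by
  unfold query at h
  rw [Option.bind_eq_some_iff] at h
  obtain ⟨m, h1, h2⟩ := h
  rw [Option.bind_eq_some_iff] at h2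
  obtain ⟨τ, h3, h4⟩ := h2
  have h5 := Nat.Partrec.Code.evaln_sound h1
  rw [hc σ, Part.mem_some_iff] at h5
  rw [h5, Encodable.encodek] at h3
  rw [Option.some.inj h3]
  exact h4

theorem prio2_query_exists {Φ : Functional} {c : ℕ}
    (hc : ∀ σ : List Bool, (Denumerable.ofNat Nat.Partrec.Code c).eval (Encodable.encode σ) =
      Part.some (Encodable.encode (Φ.map σ))) {n : ℕ} {σ : List Bool}
    (h : n < (Φ.map σ).length) : ∃ u v, query c u n σ = some v := by
  have h1 : Encodable.encode (Φ.map σ) ∈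
      (Denumerable.ofNat Nat.Partrec.Code c).eval (Encodable.encode σ) := by
    rw [hc σ]; exact Part.mem_some _
  obtain ⟨u, hu⟩ := Nat.Partrec.Code.evaln_complete.1 h1
  refine ⟨u, (Φ.map σ)[n], ?_⟩
  unfold query
  rw [Option.bind_eq_some_iff]
  refine ⟨_, hu, ?_⟩
  rw [Encodable.encodek, Option.bind_some]
  exact List.getElem?_eq_getElem h

theorem prio2_pre_get (X : ℕ → Bool) {m n : ℕ} {v : Bool} (h : (pre X m)[n]? = some v) :
    X n = v := by
  unfold pre at h
  rw [List.getElem?_map, Option.map_eq_some_iff] at h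
  obtain ⟨a, h1, h2⟩ := h
  rw [List.getElem?_eq_some_iff] at h1
  obtain ⟨h3, h4⟩ := h1
  rw [List.getElem_range] at h4
  rw [h4]
  exact h2

theorem stage_indep (i : ℕ) (Φ : Functional) : ∃ Z : ℕ → Bool,
    (∀ s, ∀ e ∈ stage s, (Nat.unpair e.2.2.1).1 ≠ i → Z e.2.2.1 = e.2.2.2) ∧
    ∀ X : ℕ → Bool, (∀ s, ∀ e ∈ stage s, (Nat.unpair e.2.2.1).1 = i → X e.2.2.1 = e.2.2.2) →
      ¬ Φ.Computes Z X := by
  classical
  let Z : ℕ → Bool := fun p => decide (p.unpair.1 ≠ i ∧ ∃ s, ∃ e ∈ stage s,
    e.2.2.1 = p ∧ e.2.2.2 = true)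
  have hZ : ∀ p, Z p = true ↔ (p.unpair.1 ≠ i ∧ ∃ s, ∃ e ∈ stage s,
    e.2.2.1 = p ∧ e.2.2.2 = true) := fun p => decide_eq_true_iff
  refine ⟨Z, fun s e he hne => ?_, fun X hX hΦ => ?_⟩
  · by_cases h : e.2.2.2 = true
    · rw [h, hZ]
      exact ⟨hne, s, e, he, rfl, h⟩
    · rw [Bool.not_eq_true] at h
      rw [h, ← Bool.not_eq_true, hZ]
      rintro ⟨-, s', e', he', h1, h2⟩
      have h3 := stage_unique (max s s') e e' (stage_mono (le_max_left _ _) he)
        (stage_mono (le_max_right _ _) he') h1.symm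
      rw [h, h2] at h3
      exact absurd h3 (by simp)
  obtain ⟨c, hc⟩ := prio2_exists_code Φ
  obtain ⟨t, s0, ht1, ht2⟩ := prio2_final (Nat.pair i c)
  by_cases hact : ∃ s, ∃ e ∈ stage s, e.1 = Nat.pair i c ∧ t ≤ e.2.1
  · -- the requirement has acted with the final position
    obtain ⟨s, e, he, h1, h2⟩ := hact
    obtain ⟨h3, h4⟩ := (prio2_mem_stage s e).1 he
    -- the value of lastHigher at that stage
    have hu1 : e.1.unpair.1 = i := by rw [h1, Nat.unpair_pair]
    have hu2 : e.1.unpair.2 = c := by rw [h1, Nat.unpair_pair]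
    have hk : e.2.1.unpair.2.unpair.1 ≤ e.2.1 :=
      le_trans (Nat.unpair_left_le _) (Nat.unpair_right_le _)
    have hpre : zpre i (stage e.2.1) e.2.1.unpair.2.unpair.1 =
        pre Z e.2.1.unpair.2.unpair.1 := by
      unfold zpre pre
      apply List.map_congr_left
      intro p hp
      rw [List.mem_range] at hp
      rw [Bool.eq_iff_iff, prio2_zval_iff, hZ]
      constructor
      · rintro ⟨h5, f, hf, h6⟩
        exact ⟨h5, _, f, hf, h6⟩
      · rintro ⟨h5, s', f, hf, h6, h7⟩
        refine ⟨h5, f, ?_, h6, h7⟩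
        obtain ⟨h8, h9⟩ := (prio2_mem_stage s' f).1 hf
        rw [prio2_mem_stage]
        refine ⟨?_, h9⟩
        by_contra h10
        push Not at h10
        have h11 : e.2.1 < f.2.1 ∨ f.2.1 = e.2.1 := by omega
        rcases h11 with h11 | h11
        · rcases lt_trichotomy f.1 (Nat.pair i c) with h12 | h12 | h12
          · have := prio2_lt_lastHigher hf h12
            have := ht1 s'
            omega
          · have h13 := h9.act
            have h14 : lastHigher f.1 (stage f.2.1) ≤ t := h12 ▸ ht1 _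
            have h15 : acted f.1 (lastHigher f.1 (stage f.2.1)) (stage f.2.1) = true := by
              rw [prio2_acted_iff]
              exact ⟨e, (prio2_mem_stage _ e).2 ⟨h11, h4⟩, by rw [h1, h12], by omega⟩
            rw [h15] at h13
            exact absurd h13 (by simp)
          · have h13 : e.2.1 + 1 ≤ lastHigher f.1 (stage f.2.1) :=
              prio2_lt_lastHigher ((prio2_mem_stage _ e).2 ⟨h11, h4⟩) (by rw [h1]; exact h12)
            have h14 : lastHigher f.1 (stage f.2.1) ≤ p := by
              rw [← h6, h9.pos, posn]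
              exact le_trans (Nat.right_le_pair _ _) (Nat.right_le_pair _ _)
            omega
        · have h12 := prio2_acts_unique h9 h4 h11
          apply h5
          rw [← h6, h12, h4.pos, posn, Nat.unpair_pair]
          exact hu1
    have hq := h4.qry
    rw [hu1, hu2, hpre] at hq
    have h5 := prio2_query_some hc hq
    obtain ⟨n', hn'⟩ := hΦ.1 e.2.1.unpair.2.unpair.1
    rw [hn'] at h5
    have h6 := prio2_pre_get X h5
    have h7 := hX s e he (by rw [h4.pos, posn, Nat.unpair_pair]; exact hu1)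
    rw [← h4.pos, h7] at h6
    exact absurd h6 (by simp)
  · -- the requirement never acts with the final position
    push Not at hact
    obtain ⟨k, hk⟩ := hΦ.2 (Nat.pair i (Nat.pair (Nat.pair i c) t) + 1)
    obtain ⟨u, v, huv⟩ := prio2_query_exists hc (σ := pre Z k)
      (n := Nat.pair i (Nat.pair (Nat.pair i c) t)) (by omega)
    -- the oracle string is eventually correct
    have hlim : ∀ k, ∃ s1, ∀ s, s1 ≤ s → zpre i (stage s) k = pre Z k := by
      intro k
      induction k with
      | zero => exact ⟨0, fun s _ => rfl⟩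
      | succ k ih =>
        obtain ⟨s1, hs1⟩ := ih
        have h1 : ∃ s2, ∀ s, s2 ≤ s → zval i (stage s) k = Z k := by
          by_cases h : Z k = true
          · obtain ⟨h1, s2, f, hf, h2⟩ := (hZ k).1 h
            refine ⟨s2, fun s hs => ?_⟩
            rw [h, prio2_zval_iff]
            exact ⟨h1, f, stage_mono hs hf, h2⟩
          · refine ⟨0, fun s _ => ?_⟩
            rw [Bool.eq_iff_iff, prio2_zval_iff, hZ]
            constructor
            · rintro ⟨h5, f, hf, h6⟩
              exact ⟨h5, _, f, hf, h6⟩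
            · intro h'
              exact absurd ((hZ k).2 h') h
        obtain ⟨s2, hs2⟩ := h1
        refine ⟨max s1 s2, fun s hs => ?_⟩
        have h3 := hs1 s (le_trans (le_max_left _ _) hs)
        have h4 := hs2 s (le_trans (le_max_right _ _) hs)
        unfold zpre pre at h3 ⊢
        rw [List.range_succ, List.map_append, List.map_append, h3, List.map_singleton,
          List.map_singleton, h4]
    obtain ⟨s1, hs1⟩ := hlim k
    let s := Nat.pair (Nat.pair i c) (Nat.pair k (Nat.pair u (max s0 s1)))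
    have hs : max s0 s1 ≤ s :=
      le_trans (Nat.right_le_pair _ _) (le_trans (Nat.right_le_pair _ _) (Nat.right_le_pair _ _))
    have e1 : s.unpair.1 = Nat.pair i c := by simp [s]
    have e2 : s.unpair.2.unpair.1 = k := by simp [s]
    have e3 : s.unpair.2.unpair.2.unpair.1 = u := by simp [s]
    have e4 : lastHigher (Nat.pair i c) (stage s) = t := ht2 s (le_trans (le_max_left _ _) hs)
    have e5 : zpre i (stage s) k = pre Z k := hs1 s (le_trans (le_max_right _ _) hs)
    have e6 : posn (Nat.pair i c) (stage s) = Nat.pair i (Nat.pair (Nat.pair i c) t) := by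
      rw [posn, e4, Nat.unpair_pair]
    have e7 : t ≤ s := e4 ▸ prio2_lastHigher_le _ _
    rcases prio2_stepE_cases s (stage s) with ⟨-, h2 | h2⟩ | ⟨v', h1, -, -⟩
    · rw [e1, prio2_acted_iff] at h2
      obtain ⟨f, hf, h3, h4⟩ := h2
      rw [e4] at h4
      exact absurd (hact s f hf h3) (by omega)
    · rw [e1, e2, e3, e6, Nat.unpair_pair, e5] at h2
      simp only at h2
      rw [huv] at h2
      exact absurd h2 (by simp)
    · have h3 : ((s.unpair.1, s, posn s.unpair.1 (stage s), !v') : Entry) ∈ stage (s + 1) := by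
        rw [stage, h1]
        exact List.mem_cons_self
      have h4 := hact (s + 1) _ h3 e1
      simp only at h4
      omega

end Pool.Agent.Lib.MUD
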