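/-
MP_9f7f62_lc, module D2: property (H) of the lattice of Medvedev degrees.
-/
import Pool.Agent.Lib.MP_9f7f62_lc.Base
import Pool.Agent.Lib.MP_9f7f62_lc.Prio1
import Pool.Agent.Lib.MP_9f7f62_lc.Prio2

namespace Pool.Agent.Lib.MUD

/-! ### strings -/

lemma indep_pre_length (f : ℕ → Bool) (n : ℕ) : (pre f n).length = n := by
  simp [pre]

lemma indep_pre_get (f : ℕ → Bool) {n p : ℕ} (h : p < n) : (pre f n)[p]? = some (f p) := by
  simp [pre, h]

lemma indep_pre_getD (f : ℕ → Bool) {n p : ℕ} (h : p < n) : (pre f n).getD p false = f p := by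
  rw [List.getD_eq_getElem?_getD, indep_pre_get f h]; rfl

lemma indep_range_map_prefix {a b : ℕ} (h : a ≤ b) (f g : ℕ → Bool) (hfg : ∀ p < a, f p = g p) :
    (List.range a).map f <+: (List.range b).map g := by
  have h1 : (List.range a).map f = (List.range a).map g := by
    apply List.map_congr_left
    intro p hp
    exact hfg p (List.mem_range.mp hp)
  rw [h1]
  obtain ⟨c, rfl⟩ := Nat.exists_eq_add_of_le h
  rw [List.range_add, List.map_append]
  exact List.prefix_append _ _

lemma indep_prefix_getD {σ τ : List Bool} (h : σ <+: τ) {p : ℕ} (hp : p < σ.length) :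
    σ.getD p false = τ.getD p false := by
  obtain ⟨ρ, rfl⟩ := h
  rw [List.getD_eq_getElem?_getD, List.getD_eq_getElem?_getD, List.getElem?_append_left hp]

/-- a functional given by its bits -/
def indepFun (L : ℕ → ℕ) (hL : Primrec L) (hmono : Monotone L) (v : List Bool → ℕ → Bool)
    (hv : Primrec₂ v) (hvm : ∀ σ τ : List Bool, σ <+: τ → ∀ p < L σ.length, v σ p = v τ p) :
    Functional where
  map τ := (List.range (L τ.length)).map (v τ)
  computable := (Primrec.list_map (Primrec.list_range.comp (hL.comp Primrec.list_length))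
    hv).to_comp
  mono σ τ h := indep_range_map_prefix (hmono h.length_le) _ _ (hvm σ τ h)

lemma indepFun_computes {L : ℕ → ℕ} {hL : Primrec L} {hmono : Monotone L}
    {v : List Bool → ℕ → Bool} {hv : Primrec₂ v}
    {hvm : ∀ σ τ : List Bool, σ <+: τ → ∀ p < L σ.length, v σ p = v τ p}
    (hun : ∀ n, ∃ k, n ≤ L k) {g f : ℕ → Bool}
    (h : ∀ k, ∀ p < L k, v (pre g k) p = f p) :
    (indepFun L hL hmono v hv hvm).Computes g f := by
  constructor
  · intro k
    refine ⟨L k, ?_⟩
    simp only [indepFun, indep_pre_length]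
    unfold pre
    apply List.map_congr_left
    intro p hp
    exact h k p (List.mem_range.mp hp)
  · intro n
    obtain ⟨k, hk⟩ := hun n
    refine ⟨k, ?_⟩
    simpa [indepFun, indep_pre_length] using hk

/-- dropping the first bit -/
def indepTail (Φ : Functional) : Functional where
  map τ := (Φ.map τ).tail
  computable := Primrec.list_tail.to_comp.comp Φ.computable
  mono σ τ h := by
    obtain ⟨ρ, hρ⟩ := Φ.mono σ τ h
    rw [← hρ]
    cases Φ.map σ with
    | nil => simp
    | cons a l => simp

lemma indepTail_computes {Φ : Functional} {g f : ℕ → Bool} (h : Φ.Computes g f) :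
    (indepTail Φ).Computes g (fun n => f (n + 1)) := by
  have key : ∀ n, (pre f n).tail = pre (fun n => f (n + 1)) (n - 1) := by
    intro n
    cases n with
    | zero => rfl
    | succ n =>
      unfold pre
      rw [List.range_succ_eq_map, List.map_cons, List.tail_cons, List.map_map]
      rfl
  constructor
  · intro k
    obtain ⟨n, hn⟩ := h.1 k
    refine ⟨n - 1, ?_⟩
    simp only [indepTail]
    rw [hn, key]
  · intro n
    obtain ⟨k, hk⟩ := h.2 (n + 1)
    refine ⟨k, ?_⟩
    simp only [indepTail, List.length_tail]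
    omega

/-! ### the classes -/

/-- the class of all sequences extending the constructed partial function on the columns in `U` -/
def SU (U : Finset ℕ) : Set (ℕ → Bool) :=
  {Z | ∀ s, ∀ e ∈ stage s, (Nat.unpair e.2.2.1).1 ∈ U → Z e.2.2.1 = e.2.2.2}

/-- membership in a finite set, as a boolean -/
noncomputable def inU (U : Finset ℕ) (n : ℕ) : Bool := U.toList.foldr (fun a b => b || decide (a = n)) false

lemma inU_iff (U : Finset ℕ) (n : ℕ) : inU U n = true ↔ n ∈ U := by
  have h : ∀ l : List ℕ, l.foldr (fun a b => b || decide (a = n)) false = true ↔ n ∈ l := by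
    intro l
    induction l with
    | nil => simp
    | cons a l ih =>
      rw [List.foldr_cons, Bool.or_eq_true, ih, decide_eq_true_iff, List.mem_cons]
      constructor
      · rintro (h | h)
        · exact Or.inr h
        · exact Or.inl h.symm
      · rintro (h | h)
        · exact Or.inr h.symm
        · exact Or.inl h
  unfold inU
  rw [h, Finset.mem_toList]

lemma inU_primrec (U : Finset ℕ) : Primrec (inU U) := by
  refine Primrec.list_foldr (f := fun _ : ℕ => U.toList) (g := fun _ => false)
    (h := fun (n : ℕ) (p : ℕ × Bool) => p.2 || decide (p.1 = n)) (Primrec.const _)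
    (Primrec.const _) ?_
  exact Primrec.or.comp (Primrec.snd.comp Primrec.snd)
    (Primrec.eq.comp (Primrec.fst.comp Primrec.snd) Primrec.fst).decide

/-- the test for one entry -/
noncomputable def okE (U : Finset ℕ) (σ : List Bool) (e : Entry) : Bool :=
  !(inU U e.2.2.1.unpair.1) || !(decide (σ[e.2.2.1]? = some (!e.2.2.2)))

lemma okE_iff (U : Finset ℕ) (σ : List Bool) (e : Entry) :
    okE U σ e = true ↔ (e.2.2.1.unpair.1 ∈ U → σ[e.2.2.1]? ≠ some (!e.2.2.2)) := by
  unfold okE
  rw [Bool.or_eq_true, Bool.not_eq_true', Bool.not_eq_true', decide_eq_false_iff_not]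
  constructor
  · rintro (h | h) hU
    · rw [(inU_iff U _).mpr hU] at h
      exact absurd h (by simp)
    · exact h
  · intro h
    by_cases hU : e.2.2.1.unpair.1 ∈ U
    · exact Or.inr (h hU)
    · left
      rw [← Bool.not_eq_true, inU_iff]
      exact hU

lemma okE_primrec (U : Finset ℕ) : Primrec₂ (okE U) := by
  have hp : Primrec fun a : List Bool × Entry => a.2.2.2.1 :=
    Primrec.fst.comp (Primrec.snd.comp (Primrec.snd.comp Primrec.snd))
  refine Primrec.or.comp (Primrec.not.comp ((inU_primrec U).comp
    (Primrec.fst.comp (Primrec.unpair.comp hp)))) (Primrec.not.comp ?_)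
  refine (Primrec.eq.comp (Primrec.list_getElem?.comp Primrec.fst hp) ?_).decide
  exact Primrec.option_some.comp (Primrec.not.comp
    (Primrec.snd.comp (Primrec.snd.comp (Primrec.snd.comp Primrec.snd))))

/-- the tree of the class -/
noncomputable def treeU (U : Finset ℕ) (σ : List Bool) : Bool :=
  (stage σ.length).foldr (fun e b => b && okE U σ e) true

lemma treeU_iff (U : Finset ℕ) (σ : List Bool) :
    treeU U σ = true ↔ ∀ e ∈ stage σ.length, okE U σ e = true := by
  have h : ∀ l : List Entry, l.foldr (fun e b => b && okE U σ e) true = true ↔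
      ∀ e ∈ l, okE U σ e = true := by
    intro l
    induction l with
    | nil => simp
    | cons a l ih =>
      rw [List.foldr_cons, Bool.and_eq_true, ih, List.forall_mem_cons]
      exact And.comm
  exact h _

lemma treeU_primrec (U : Finset ℕ) : Primrec (treeU U) := by
  refine Primrec.list_foldr (f := fun σ : List Bool => stage σ.length) (g := fun _ => true)
    (h := fun (σ : List Bool) (p : Entry × Bool) => p.2 && okE U σ p.1)
    (stage_primrec.comp Primrec.list_length) (Primrec.const _) ?_
  exact Primrec.and.comp (Primrec.snd.comp Primrec.snd)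
    ((okE_primrec U).comp Primrec.fst (Primrec.fst.comp Primrec.snd))

lemma SU_pi01 (U : Finset ℕ) : IsPi01 (SU U) := by
  refine ⟨⟨treeU U, (treeU_primrec U).to_comp, ?_⟩, ?_⟩
  · intro σ τ hστ h
    rw [treeU_iff] at h ⊢
    intro e he
    have h1 := h e (stage_mono hστ.length_le he)
    rw [okE_iff] at h1 ⊢
    intro hU hc
    apply h1 hU
    obtain ⟨ρ, rfl⟩ := hστ
    have hlt : e.2.2.1 < σ.length := by
      by_contra hcon
      rw [List.getElem?_eq_none (by omega)] at hc
      exact absurd hc (by simp)
    rw [List.getElem?_append_left hlt]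
    exact hc
  · ext Z
    simp only [SU, CompTree.paths, Set.mem_ofPred_eq]
    constructor
    · intro h n
      rw [treeU_iff]
      intro e he
      rw [okE_iff]
      intro hU hc
      have h1 := h _ e he hU
      by_cases hlt : e.2.2.1 < n
      · rw [indep_pre_get Z hlt, h1] at hc
        simp at hc
      · rw [List.getElem?_eq_none (by rw [indep_pre_length]; omega)] at hc
        exact absurd hc (by simp)
    · intro h s e he hU
      have h1 := h (max s (e.2.2.1 + 1))
      rw [treeU_iff] at h1
      have h2 := h1 e (by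
        rw [indep_pre_length]
        exact stage_mono (le_max_left _ _) he)
      rw [okE_iff] at h2
      have h3 := h2 hU
      rw [indep_pre_get Z (lt_of_lt_of_le (Nat.lt_succ_self _) (le_max_right _ _))] at h3
      by_contra hcon
      apply h3
      congr 1
      exact Bool.eq_not_of_ne hcon

lemma SU_nonempty (U : Finset ℕ) : (SU U).Nonempty := by
  classical
  refine ⟨fun p => decide (∃ s, ∃ e ∈ stage s, e.2.2.1 = p ∧ e.2.2.2 = true), ?_⟩
  intro s e he _
  by_cases hv : e.2.2.2 = true
  · rw [hv, decide_eq_true_iff]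
    exact ⟨s, e, he, rfl, hv⟩
  · rw [Bool.not_eq_true] at hv
    rw [hv, decide_eq_false_iff_not]
    rintro ⟨s', e', he', h1, h2⟩
    have h3 := stage_unique (max s s') e' e (stage_mono (le_max_right _ _) he')
      (stage_mono (le_max_left _ _) he) h1
    rw [h2, hv] at h3
    exact absurd h3 (by simp)

/-- the class as an element of `ECl` -/
def clU (U : Finset ℕ) : ECl := ⟨SU U, SU_pi01 U, SU_nonempty U⟩

/-- merging two sequences -/
lemma med_union (U W : Finset ℕ) : Med (SU (U ∪ W)) (joinSet (SU U) (SU W)) := by
  classical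
  set u : ℕ → ℕ := fun p => if inU U p.unpair.1 = true then 2 * p else 2 * p + 1 with hu
  have hup : Primrec u := by
    refine Primrec.ite ?_ ?_ ?_
    · exact Primrec.eq.comp ((inU_primrec U).comp (Primrec.fst.comp Primrec.unpair))
        (Primrec.const true)
    · exact Primrec.nat_mul.comp (Primrec.const 2) Primrec.id
    · exact Primrec.succ.comp (Primrec.nat_mul.comp (Primrec.const 2) Primrec.id)
  have hul : ∀ p, u p < 2 * p + 2 := by
    intro p
    simp only [hu]
    split_ifs <;> omega
  refine ⟨indepFun (fun n => n / 2) (Primrec.nat_div2 : Primrec fun n => n / 2)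
    (fun a b h => Nat.div_le_div_right h) (fun τ p => τ.getD (u p) false)
    ((Primrec.list_getD false).comp Primrec.fst (hup.comp Primrec.snd)) ?_, ?_⟩
  · intro σ τ h p hp
    have h1 := hul p
    exact indep_prefix_getD h (by omega)
  · rintro h ⟨h1, h2⟩
    refine ⟨fun p => h (u p), ?_, ?_⟩
    · intro s e he hU
      simp only [hu]
      by_cases hm : inU U e.2.2.1.unpair.1 = true
      · rw [if_pos hm]
        exact h1 s e he ((inU_iff U _).mp hm)
      · rw [if_neg hm]
        rw [inU_iff] at hm
        exact h2 s e he ((Finset.mem_union.mp hU).resolve_left hm)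
    · refine indepFun_computes (fun n => ⟨2 * n, by omega⟩) ?_
      intro k p hp
      have h3 := hul p
      exact indep_pre_getD h (by omega)

/-- overwriting -/
lemma med_overwrite (U : Finset ℕ) {g : ℕ → Bool} (hg : g ∈ SU U) (k : ℕ) :
    Med (cyl (SU U) (pre g k)) (SU U) := by
  classical
  refine ⟨indepFun (fun n => n) Primrec.id monotone_id
    (fun τ p => if p < k then (pre g k).getD p false else τ.getD p false) ?_ ?_, ?_⟩
  · refine Primrec.ite ?_ ?_ ?_
    · exact Primrec.nat_lt.comp Primrec.snd (Primrec.const k)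
    · exact (Primrec.list_getD false).comp (Primrec.const _) Primrec.snd
    · exact (Primrec.list_getD false).comp Primrec.fst Primrec.snd
  · intro σ τ h p hp
    split_ifs
    · rfl
    · exact indep_prefix_getD h hp
  · intro h hh
    refine ⟨fun p => if p < k then g p else h p, ⟨?_, ?_⟩, ?_⟩
    · intro s e he hU
      show (if e.2.2.1 < k then g e.2.2.1 else h e.2.2.1) = e.2.2.2
      split_ifs
      · exact hg s e he hU
      · exact hh s e he hU
    · rw [indep_pre_length]
      unfold pre
      apply List.map_congr_left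
      intro p hp
      rw [if_pos (List.mem_range.mp hp)]
    · refine indepFun_computes (fun n => ⟨n, le_rfl⟩) ?_
      intro m p hp
      show (if p < k then (pre g k).getD p false else (pre h m).getD p false) =
        if p < k then g p else h p
      split_ifs with hpk
      · exact indep_pre_getD g hpk
      · exact indep_pre_getD h hp

lemma SU_prime (U : Finset ℕ) (P Q : Set (ℕ → Bool)) (h : Med (meetSet P Q) (SU U)) :
    Med P (SU U) ∨ Med Q (SU U) := by
  obtain ⟨Φ, hΦ⟩ := h
  obtain ⟨g, hg⟩ := SU_nonempty U
  obtain ⟨f, hf, hgf⟩ := hΦ g hg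
  obtain ⟨k, hk⟩ := hgf.2 1
  obtain ⟨n, hn⟩ := hgf.1 k
  have hn1 : 1 ≤ n := by
    rw [hn, indep_pre_length] at hk; exact hk
  -- all elements of the cylinder give the same first bit
  have hbit : ∀ g' ∈ cyl (SU U) (pre g k), ∀ f' : ℕ → Bool, Φ.Computes g' f' → f' 0 = f 0 := by
    intro g' hg' f' hf'
    obtain ⟨n', hn'⟩ := hf'.1 k
    have h1 : pre g' k = pre g k := by
      have := hg'.2
      rwa [indep_pre_length] at this
    rw [h1, hn] at hn'
    have h2 : n = n' := by
      have := congrArg List.length hn'
      rwa [indep_pre_length, indep_pre_length] at this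
    subst h2
    have h3 := congrArg (fun l : List Bool => l[0]?) hn'
    simp only [indep_pre_get f (show 0 < n by omega), indep_pre_get f' (show 0 < n by omega),
      Option.some.injEq] at h3
    exact h3.symm
  rcases hf with ⟨h0, -⟩ | ⟨h0, -⟩
  · left
    refine med_trans ⟨indepTail Φ, fun g' hg' => ?_⟩ (med_overwrite U hg k)
    obtain ⟨f', hf', hc⟩ := hΦ g' hg'.1
    refine ⟨fun n => f' (n + 1), ?_, indepTail_computes hc⟩
    have h1 := hbit g' hg' f' hc
    rcases hf' with ⟨-, h2⟩ | ⟨h2, -⟩
    · exact h2
    · rw [h1, h0] at h2; exact absurd h2 (by simp)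
  · right
    refine med_trans ⟨indepTail Φ, fun g' hg' => ?_⟩ (med_overwrite U hg k)
    obtain ⟨f', hf', hc⟩ := hΦ g' hg'.1
    refine ⟨fun n => f' (n + 1), ?_, indepTail_computes hc⟩
    have h1 := hbit g' hg' f' hc
    rcases hf' with ⟨h2, -⟩ | ⟨-, h2⟩
    · rw [h1, h0] at h2; exact absurd h2 (by simp)
    · exact h2

theorem indepFam : IndepFam MedDeg := by
  refine ⟨fun U => (clU U).deg, ?_, ?_, ?_⟩
  · intro U W
    rw [deg_sup]
    apply le_antisymm
    · exact deg_le.mpr (med_union U W)
    · rw [← deg_sup]
      refine sup_le (deg_le.mpr (med_of_subset ?_)) (deg_le.mpr (med_of_subset ?_))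
      · intro Z hZ s e he hU
        exact hZ s e he (Finset.mem_union_left _ hU)
      · intro Z hZ s e he hU
        exact hZ s e he (Finset.mem_union_right _ hU)
  · intro U x y hxy
    obtain ⟨P, rfl⟩ := deg_surj x
    obtain ⟨Q, rfl⟩ := deg_surj y
    rw [deg_inf, deg_le] at hxy
    exact SU_prime U P.carrier Q.carrier hxy
  · intro U W h i hi
    by_contra hiW
    rw [deg_le] at h
    obtain ⟨Φ, hΦ⟩ := h
    obtain ⟨Z, hZ1, hZ2⟩ := stage_indep i Φ
    have hZW : Z ∈ SU W := by
      intro s e he hW
      exact hZ1 s e he (fun hc => hiW (hc ▸ hW))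
    obtain ⟨X, hX, hc⟩ := hΦ Z hZW
    exact hZ2 X (fun s e he hei => hX s e he (hei ▸ hi)) hc

end Pool.Agent.Lib.MUD
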