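/-
MP_9f7f62_lc, module F: a Turing machine whose two halting sets are computably inseparable.
-/
import Pool.Agent.Lib.MP_9f7f62_lc.Defs

namespace Pool.Agent.Lib.MUD

namespace Mach

open Turing

/-! ### from a TM0 machine to a machine with absolute positions -/

section Transfer

variable {Γ Q : Type} [Inhabited Γ] [Inhabited Q]

/-- translation of actions -/
def conv : TM0.Stmt Γ → Act Γ
  | .move .left => .left
  | .move .right => .right
  | .write a => .write a

open Classical in
/-- restriction of a machine to a finite set of states -/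
noncomputable def restr (f : TM0.Machine Γ Q) (S : Finset Q) (q : {q // q ∈ S}) (a : Γ) :
    Option ({q // q ∈ S} × Act Γ) :=
  (f q.1 a).bind fun p => if h : p.1 ∈ S then some (⟨p.1, h⟩, conv p.2) else none

/-- the relation between configurations -/
def Rel (S : Finset Q) (c : TM0.Cfg Γ Q) (a : ACfg Γ {q // q ∈ S}) : Prop :=
  a.q.1 = c.q ∧ ∀ i : ℤ, a.tape (a.h + i) = c.Tape.nth i

lemma rel_step {f : TM0.Machine Γ Q} {S : Finset Q}
    (hS : ∀ q a q' s, f q a = some (q', s) → q ∈ S → q' ∈ S)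
    {c : TM0.Cfg Γ Q} {a : ACfg Γ {q // q ∈ S}} (h : Rel S c a) {c' : TM0.Cfg Γ Q}
    (hc : TM0.step f c = some c') : ∃ a', astep (restr f S) a = some a' ∧ Rel S c' a' := by
  classical
  obtain ⟨q, T⟩ := c
  obtain ⟨q1, hd, tp⟩ := a
  obtain ⟨h1, h2⟩ := h
  simp only at h1 h2
  have h0 : tp hd = T.1 := by simpa using h2 0
  rcases hf : f q T.1 with _ | ⟨q', s⟩
  · simp [TM0.step, hf] at hc
  have hq' : q' ∈ S := hS q T.1 q' s hf (h1 ▸ q1.2)
  have hr : restr f S q1 (tp hd) = some (⟨q', hq'⟩, conv s) := by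
    rw [restr, h0, h1, hf]
    simp [hq']
  simp only [TM0.step, hf, Option.map_some, Option.some.injEq] at hc
  subst hc
  rcases s with d | b
  · cases d with
    | left =>
      refine ⟨⟨⟨q', hq'⟩, hd - 1, tp⟩, ?_, rfl, fun i => ?_⟩
      · simp only [astep, hr, conv]
      · simp only [Tape.move_left_nth]
        rw [← h2]
        congr 1
        ring
    | right =>
      refine ⟨⟨⟨q', hq'⟩, hd + 1, tp⟩, ?_, rfl, fun i => ?_⟩
      · simp only [astep, hr, conv]
      · simp only [Tape.move_right_nth]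
        rw [← h2]
        congr 1
        ring
  · refine ⟨⟨⟨q', hq'⟩, hd, Function.update tp hd b⟩, ?_, rfl, fun i => ?_⟩
    · simp only [astep, hr, conv]
    · simp only [Tape.write_nth]
      by_cases hi : i = 0
      · subst hi; simp
      · rw [if_neg hi, ← h2, Function.update_of_ne]
        omega

lemma rel_halt {f : TM0.Machine Γ Q} {S : Finset Q}
    {c : TM0.Cfg Γ Q} {a : ACfg Γ {q // q ∈ S}} (h : Rel S c a)
    (hc : TM0.step f c = none) : astep (restr f S) a = none := by
  classical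
  obtain ⟨q, T⟩ := c
  obtain ⟨q1, hd, tp⟩ := a
  obtain ⟨h1, h2⟩ := h
  simp only at h1 h2
  have h0 : tp hd = T.1 := by simpa using h2 0
  have hf : f q T.1 = none := by
    simpa [TM0.step] using hc
  have hr : restr f S q1 (tp hd) = none := by
    rw [restr, h0, h1, hf]
    rfl
  simp only [astep, hr]

lemma arun_of_reaches {f : TM0.Machine Γ Q} {S : Finset Q}
    (hS : ∀ q a q' s, f q a = some (q', s) → q ∈ S → q' ∈ S)
    {c c' : TM0.Cfg Γ Q} (hr : StateTransition.Reaches (TM0.step f) c c')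
    {a : ACfg Γ {q // q ∈ S}} (h : Rel S c a) :
    ∃ n a', arun (restr f S) a n = some a' ∧ Rel S c' a' := by
  induction hr with
  | refl => exact ⟨0, a, rfl, h⟩
  | tail _ hbc ih =>
    obtain ⟨n, a', hn, ha'⟩ := ih
    obtain ⟨a'', h1, h2⟩ := rel_step hS ha' hbc
    refine ⟨n + 1, a'', ?_, h2⟩
    rw [arun, hn]
    exact h1

end Transfer

/-! ### the chain of simulations -/

open PartrecToTM2

instance instFintypeK : Fintype PartrecToTM2.K' := ⟨{.main, .rev, .aux, .stack}, fun x => by cases x <;> simp⟩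

/-- tape alphabet -/
abbrev GA : Type := TM2to1.Γ' PartrecToTM2.K' (fun _ => PartrecToTM2.Γ')

/-- the underlying TM1 program -/
abbrev P1 := TM2to1.tr PartrecToTM2.tr

/-- states -/
abbrev QA : Type := TM1to0.Λ' P1

/-- the TM0 machine (for all codes simultaneously) -/
noncomputable def M0 : TM0.Machine GA QA := TM1to0.tr P1

/-- the initial state for the code `c` -/
noncomputable def start (c : ToPartrec.Code) : QA :=
  (some (P1 (TM2to1.Λ'.normal (trNormal c Cont'.halt))), none)

lemma exists_supp (c : ToPartrec.Code) : ∃ S : Finset QA, start c ∈ S ∧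
    ∀ q a q' s, M0 q a = some (q', s) → q ∈ S → q' ∈ S := by
  have h1 := PartrecToTM2.tr_supports c Cont'.halt
  let this : Inhabited PartrecToTM2.Λ' := ⟨trNormal c Cont'.halt⟩
  have h2 := @TM2to1.tr_supports _ _ _ _ _ PartrecToTM2.tr this _ h1
  have h3 := TM1to0.tr_supports _ h2
  refine ⟨_, h3.1, fun q a q' s h hq => h3.2 h hq⟩

lemma elim_eq (v : List ℕ) : K'.elim (trList v) [] [] [] =
    Function.update (fun _ => []) K'.main (trList v) := by
  funext k
  cases k <;> simp [K'.elim]

lemma run_chain {c : ToPartrec.Code} {v w : List ℕ} (h : w ∈ c.eval v) :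
    ∃ L' : ListBlank (∀ _ : PartrecToTM2.K', Option PartrecToTM2.Γ'),
      (∀ k, L'.map (proj k) = ListBlank.mk ((K'.elim (trList w) [] [] [] k).map some).reverse) ∧
      StateTransition.Reaches (TM0.step M0) ⟨start c, Tape.mk₁ (TM2to1.trInit K'.main (trList v))⟩
        ⟨((none : Option _), (none : Option PartrecToTM2.Γ')), Tape.mk' ∅ (TM2to1.addBottom L')⟩ ∧
      TM0.step M0 ⟨((none : Option _), (none : Option PartrecToTM2.Γ')),
        Tape.mk' ∅ (TM2to1.addBottom L')⟩ = none := by
  have h1 : PartrecToTM2.halt w ∈ StateTransition.eval (TM2.step PartrecToTM2.tr)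
      (PartrecToTM2.init c v) := by
    rw [PartrecToTM2.tr_eval]
    exact Part.mem_map _ h
  let this : Inhabited PartrecToTM2.Λ' := ⟨trNormal c Cont'.halt⟩
  have h2 := TM2to1.trCfg_init (Λ := PartrecToTM2.Λ') (σ := Option PartrecToTM2.Γ') (Γ := fun _ : PartrecToTM2.K' => PartrecToTM2.Γ') K'.main (trList v)
  have h3 : (TM2.init K'.main (trList v) : TM2.Cfg (fun _ : PartrecToTM2.K' => PartrecToTM2.Γ') PartrecToTM2.Λ' (Option PartrecToTM2.Γ')) = PartrecToTM2.init c v := by
    unfold TM2.init PartrecToTM2.init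
    rw [elim_eq]
    rfl
  rw [h3] at h2
  obtain ⟨b, hb1, hb2⟩ := StateTransition.tr_eval (TM2to1.tr_respects PartrecToTM2.tr) h2 h1
  obtain ⟨b', hb3, hb4⟩ := StateTransition.tr_eval (TM1to0.tr_respects P1) rfl hb2
  rw [← hb3] at hb4
  unfold PartrecToTM2.halt at hb1
  cases hb1 with
  | mk L hL =>
    rw [StateTransition.mem_eval] at hb4
    exact ⟨L, hL, hb4.1, hb4.2⟩


/-! ### inputs and outputs -/

lemma trNat_two_pow (m : ℕ) : trNat (2 ^ m) = List.replicate m Γ'.bit0 ++ [Γ'.bit1] := by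
  have key : ∀ m : ℕ, ∃ p : PosNum, (p : ℕ) = 2 ^ m ∧
      trPosNum p = List.replicate m Γ'.bit0 ++ [Γ'.bit1] := by
    intro m
    induction m with
    | zero => exact ⟨PosNum.one, by simp, by simp [trPosNum]⟩
    | succ m ih =>
      obtain ⟨p, h1, h2⟩ := ih
      refine ⟨PosNum.bit0 p, ?_, ?_⟩
      · rw [PosNum.cast_bit0, h1, pow_succ]; ring
      · rw [trPosNum, h2, List.replicate_succ]; rfl
  obtain ⟨p, h1, h2⟩ := key m
  have h3 : ((2 ^ m : ℕ) : Num) = Num.pos p := by
    rw [← h1]
    have := Num.of_to_nat (Num.pos p)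
    exact_mod_cast this
  rw [trNat, h3, trNum, h2]

/-- letter `x` of the main stack on the tape -/
def sym (x : PartrecToTM2.Γ') : GA := (false, Function.update (fun _ => none) K'.main (some x))

/-- letter `x` of the main stack at the bottom position -/
def symB (x : PartrecToTM2.Γ') : GA := (true, Function.update (fun _ => none) K'.main (some x))

lemma trInit_eq (m : ℕ) : TM2to1.trInit K'.main (trList [2 ^ m]) =
    symB Γ'.cons :: sym Γ'.bit1 :: List.replicate m (sym Γ'.bit0) := by
  have : (trList [2 ^ m]).reverse = Γ'.cons :: Γ'.bit1 :: List.replicate m Γ'.bit0 := by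
    simp [trNat_two_pow]
  have h2 : (Γ'.cons :: Γ'.bit1 :: List.replicate m Γ'.bit0).map sym =
      sym Γ'.cons :: sym Γ'.bit1 :: List.replicate m (sym Γ'.bit0) := by
    simp
  rw [← this] at h2
  exact congrArg (fun L' : List GA => ((true, L'.headI.2) : GA) :: L'.tail) h2

lemma tape_nth (m : ℕ) (i : ℤ) :
    (Tape.mk₁ (TM2to1.trInit K'.main (trList [2 ^ m]))).nth i =
      open Classical in if i = 0 then symB Γ'.cons else if i = 1 then sym Γ'.bit1
        else if 2 ≤ i ∧ i ≤ m + 1 then sym Γ'.bit0 else (default : GA) := by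
  classical
  rw [trInit_eq]
  rcases lt_or_ge i 0 with hi | hi
  · obtain ⟨n, rfl⟩ := Int.eq_negSucc_of_lt_zero hi
    rw [if_neg (by omega), if_neg (by omega), if_neg (by omega)]
    simp [Tape.nth, Tape.mk₁, Tape.mk₂, Tape.mk']
  · obtain ⟨n, rfl⟩ := Int.eq_ofNat_of_zero_le hi
    unfold Tape.mk₁ Tape.mk₂
    rw [Tape.mk'_nth_nat, ListBlank.nth_mk]
    rcases n with _ | _ | n
    · simp
    · simp
    · rw [if_neg (by push_cast; omega), if_neg (by push_cast; omega)]
      rw [List.getI_cons_succ, List.getI_cons_succ]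
      by_cases h : n < m
      · rw [if_pos (by push_cast; omega), List.getI_eq_getElem _ (by simpa using h)]
        simp
      · rw [if_neg (by push_cast; omega), List.getI_eq_default _ (by simpa using h)]

lemma out_nth {w : List ℕ} {L' : ListBlank (∀ _ : PartrecToTM2.K', Option PartrecToTM2.Γ')}
    (hL : ∀ k, L'.map (proj k) = ListBlank.mk ((K'.elim (trList w) [] [] [] k).map some).reverse) :
    (Tape.mk' ∅ (TM2to1.addBottom L')).nth 1 =
      ((false, fun k => (K'.elim (trList w) [] [] [] k).reverse[1]?) : GA) := by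
  have h1 : (Tape.mk' ∅ (TM2to1.addBottom L')).nth 1 = (TM2to1.addBottom L').nth 1 := by
    have := Tape.mk'_nth_nat ∅ (TM2to1.addBottom L') 1
    exact_mod_cast this
  rw [h1]
  refine Prod.ext ?_ ?_
  · exact TM2to1.addBottom_nth_succ_fst L' 0
  · rw [TM2to1.addBottom_nth_snd]
    funext k
    exact TM2to1.stk_nth_val 1 (hL k)

lemma out_one {L' : ListBlank (∀ _ : PartrecToTM2.K', Option PartrecToTM2.Γ')}
    (hL : ∀ k, L'.map (proj k) = ListBlank.mk ((K'.elim (trList [1]) [] [] [] k).map some).reverse) :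
    (Tape.mk' ∅ (TM2to1.addBottom L')).nth 1 = sym Γ'.bit1 := by
  rw [out_nth hL]
  have h1 : trNat 1 = [Γ'.bit1] := by
    simpa using trNat_two_pow 0
  refine Prod.ext rfl ?_
  funext k
  cases k <;> simp [sym, h1, Function.update]

lemma out_zero {L' : ListBlank (∀ _ : PartrecToTM2.K', Option PartrecToTM2.Γ')}
    (hL : ∀ k, L'.map (proj k) = ListBlank.mk ((K'.elim (trList [0]) [] [] [] k).map some).reverse) :
    (Tape.mk' ∅ (TM2to1.addBottom L')).nth 1 ≠ sym Γ'.bit1 := by
  rw [out_nth hL]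
  intro h
  have := congrFun (congrArg Prod.snd h) K'.main
  simp [sym] at this

/-! ### the diagonal function -/

/-- the diagonal function on the logarithm of the input -/
noncomputable def diag (n : ℕ) : Part ℕ :=
  ((Denumerable.ofNat Nat.Partrec.Code (Nat.findGreatest (fun k => 2 ^ k ≤ n) n)).eval
    (Nat.findGreatest (fun k => 2 ^ k ≤ n) n)).map fun x => 1 - x

lemma log_pow (m : ℕ) : Nat.findGreatest (fun k => 2 ^ k ≤ 2 ^ m) (2 ^ m) = m := by
  rw [Nat.findGreatest_eq_iff]
  refine ⟨Nat.lt_two_pow_self.le, fun _ => le_rfl, fun k hk _ h => ?_⟩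
  have := (Nat.pow_le_pow_iff_right (by norm_num : 1 < 2)).1 h
  omega

lemma pow_primrec : Primrec fun k : ℕ => 2 ^ k := by
  refine (Primrec.nat_rec₁ 1 (f := fun _ y => 2 * y) ?_).of_eq fun n => ?_
  · exact (Primrec.nat_mul.comp (Primrec.const 2) Primrec.snd).to₂
  · induction n with
    | zero => rfl
    | succ n ih => simp only [pow_succ] at *; simp [ih]; ring

lemma diag_partrec : Partrec diag := by
  have h1 : Primrec fun n : ℕ => Nat.findGreatest (fun k => 2 ^ k ≤ n) n := by
    have hp : PrimrecRel fun n k : ℕ => 2 ^ k ≤ n := by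
      exact Primrec.nat_le.comp₂ (pow_primrec.comp Primrec.snd).to₂ Primrec₂.left
    exact Primrec.nat_findGreatest Primrec.id hp
  have h2 : Partrec fun n : ℕ => (Denumerable.ofNat Nat.Partrec.Code
      (Nat.findGreatest (fun k => 2 ^ k ≤ n) n)).eval
    (Nat.findGreatest (fun k => 2 ^ k ≤ n) n) :=
    Nat.Partrec.Code.eval_part.comp ((Computable.ofNat _).comp h1.to_comp) h1.to_comp
  exact h2.map (Primrec.nat_sub.comp (Primrec.const 1) Primrec.snd).to_comp.to₂

lemma exists_code_diag : ∃ c : Turing.ToPartrec.Code, ∀ n : ℕ, c.eval [n] = pure <$> diag n := by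
  obtain ⟨c, hc⟩ := Turing.ToPartrec.Code.exists_code (Nat.Partrec'.part_iff₁.2 diag_partrec)
  exact ⟨c, fun n => hc ⟨[n], rfl⟩⟩

lemma no_sep (D : ℕ → Bool) (hD : Computable D) (h0 : ∀ m, 0 ∈ diag (2 ^ m) → D m = false)
    (h1 : ∀ m, 1 ∈ diag (2 ^ m) → D m = true) : False := by
  have hp : Nat.Partrec (fun n => Part.some ((D n).toNat)) := by
    have : Computable fun n => (D n).toNat := by
      exact (Primrec.dom_bool Bool.toNat).to_comp.comp hD
    exact Partrec.nat_iff.1 this.partrec
  obtain ⟨e, he⟩ := Nat.Partrec.Code.exists_code.1 hp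
  have key : ((1 - (D (Encodable.encode e)).toNat : ℕ)) ∈ diag (2 ^ (Encodable.encode e)) := by
    rw [diag, log_pow, Denumerable.ofNat_encode, he]
    simp
  cases hb : D (Encodable.encode e) with
  | false =>
    rw [hb] at key
    have := h1 _ key
    rw [hb] at this
    exact absurd this (by decide)
  | true =>
    rw [hb] at key
    have := h0 _ key
    rw [hb] at this
    exact absurd this (by decide)


/-! ### the machine -/

/-- the data of the machine of the code `c`, restricted to a finite set of states -/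
noncomputable def data (c : ToPartrec.Code) (S : Finset QA) (hS : start c ∈ S) : TMData where
  Γ := GA
  Λ := {q // q ∈ S}
  finΓ := TM2to1.Γ'.fintype
  finΛ := inferInstance
  M := restr M0 S
  q0 := ⟨start c, hS⟩
  blank := default
  s0 := symB Γ'.cons
  s1 := sym Γ'.bit1
  s2 := sym Γ'.bit0
  bad := sym Γ'.bit1

lemma data_run {c : ToPartrec.Code} {S : Finset QA} (hS : start c ∈ S)
    (hS' : ∀ q a q' s, M0 q a = some (q', s) → q ∈ S → q' ∈ S) {m : ℕ} {w : List ℕ}
    (h : w ∈ c.eval [2 ^ m]) :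
    ∃ (L' : ListBlank (∀ _ : PartrecToTM2.K', Option PartrecToTM2.Γ')) (n : ℕ)
      (a : ACfg GA {q // q ∈ S}),
      (∀ k, L'.map (proj k) = ListBlank.mk ((K'.elim (trList w) [] [] [] k).map some).reverse) ∧
      arun (restr M0 S) ((data c S hS).init m) n = some a ∧ astep (restr M0 S) a = none ∧
      a.tape (a.h + 1) = (Tape.mk' ∅ (TM2to1.addBottom L')).nth 1 := by
  obtain ⟨L', hL, hr, hh⟩ := run_chain h
  have h0 : Rel S ⟨start c, Tape.mk₁ (TM2to1.trInit K'.main (trList [2 ^ m]))⟩
      ((data c S hS).init m) := by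
    refine ⟨rfl, fun i => ?_⟩
    rw [tape_nth]
    simp only [TMData.init, data, zero_add]
  obtain ⟨n, a, hn, ha⟩ := arun_of_reaches hS' hr h0
  exact ⟨L', n, a, hL, hn, rel_halt ha hh, ha.2 1⟩

end Mach

theorem exists_insep : ∃ d : TMData, d.Insep := by
  obtain ⟨c, hc⟩ := Mach.exists_code_diag
  obtain ⟨S, hS, hS'⟩ := Mach.exists_supp c
  refine ⟨Mach.data c S hS, ?_⟩
  rintro ⟨D, hD, hg, hb⟩
  refine Mach.no_sep D hD (fun m h => hg m ?_) (fun m h => hb m ?_)
  · have h' : ([0] : List ℕ) ∈ c.eval [2 ^ m] := by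
      rw [hc]
      exact Part.mem_map _ h
    obtain ⟨L', n, a, hL, h1, h2, h3⟩ := Mach.data_run hS hS' h'
    exact ⟨n, a, h1, h2, by rw [h3]; exact Mach.out_zero hL⟩
  · have h' : ([1] : List ℕ) ∈ c.eval [2 ^ m] := by
      rw [hc]
      exact Part.mem_map _ h
    obtain ⟨L', n, a, hL, h1, h2, h3⟩ := Mach.data_run hS hS' h'
    exact ⟨n, a, h1, h2, by rw [h3]; exact Mach.out_one hL⟩

end Pool.Agent.Lib.MUD
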