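/-
MP_9f7f62_lc, module C: from the lattice axioms to a model of the local system.
-/
import Pool.Agent.Lib.MP_9f7f62_lc.Defs

namespace Pool.Agent.Lib.MUD

section Sound

variable {L : Type} [DistribLattice L]

/-- maximal filters avoiding an element -/
theorem sound_maxFilt (q : L) (F : Set L) (hF : IsFilt F) (hq : q ∉ F) (hne : F.Nonempty) :
    ∃ G : Set L, IsFilt G ∧ F ⊆ G ∧ q ∉ G ∧ ∀ z, z ∉ G → ∃ b ∈ G, b ⊓ z ≤ q := by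
  let S : Set (Set L) := {G | IsFilt G ∧ F ⊆ G ∧ q ∉ G}
  obtain ⟨G, hFG, hG⟩ := zorn_subset_nonempty S (by
    intro c hc hchain hcne
    refine ⟨⋃₀ c, ⟨⟨?_, ?_⟩, ?_, ?_⟩, fun s hs => Set.subset_sUnion_of_mem hs⟩
    · rintro a b hab ⟨G, hG, ha⟩
      exact ⟨G, hG, (hc hG).1.upper a b hab ha⟩
    · rintro a b ⟨G, hG, ha⟩ ⟨G', hG', hb⟩
      rcases hchain.total hG hG' with h | h
      · exact ⟨G', hG', (hc hG').1.inf a b (h ha) hb⟩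
      · exact ⟨G, hG, (hc hG).1.inf a b ha (h hb)⟩
    · obtain ⟨G, hG⟩ := hcne
      exact (hc hG).2.1.trans (Set.subset_sUnion_of_mem hG)
    · rintro ⟨G, hG, hqG⟩
      exact (hc hG).2.2 hqG) F ⟨hF, Set.Subset.rfl, hq⟩
  refine ⟨G, hG.prop.1, hFG, hG.prop.2.2, fun z hz => ?_⟩
  by_contra hcon
  push Not at hcon
  let G' : Set L := {c | ∃ b ∈ G, b ⊓ z ≤ c}
  have hGG' : G ⊆ G' := fun b hb => ⟨b, hb, inf_le_left⟩
  have hG'S : G' ∈ S := by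
    refine ⟨⟨?_, ?_⟩, hFG.trans hGG', ?_⟩
    · rintro a b hab ⟨c, hc, h⟩
      exact ⟨c, hc, h.trans hab⟩
    · rintro a b ⟨c, hc, h⟩ ⟨c', hc', h'⟩
      refine ⟨c ⊓ c', hG.prop.1.inf c c' hc hc', le_inf ?_ ?_⟩
      · exact (inf_le_inf_right z inf_le_left).trans h
      · exact (inf_le_inf_right z inf_le_right).trans h'
    · rintro ⟨b, hb, h⟩
      exact hcon b hb h
  have h1 : G' ⊆ G := hG.le_of_ge hG'S hGG'
  obtain ⟨f, hf⟩ := hne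
  exact hz (h1 ⟨f, hFG hf, inf_le_right⟩)

/-- essential ideals -/
def Ess (q : L) (I : Set L) : Prop := ∀ y ∈ I, ∃ y', Split q y y'

theorem sound_ess {𝒢 : Set (Set L)}
    (h𝒢 : ∀ (q : L) (F : Set L), IsFilt F → q ∉ F → ∃ I ∈ 𝒢, q ∈ I ∧ ∀ z ∈ I, z ∉ F)
    (q : L) (F : Set L) (hF : IsFilt F) (hq : q ∉ F) (hne : F.Nonempty) :
    ∃ I ∈ 𝒢, q ∈ I ∧ Ess q I ∧ ∀ z ∈ I, z ∉ F := by
  obtain ⟨G, hG, hFG, hqG, hmax⟩ := sound_maxFilt q F hF hq hne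
  obtain ⟨I, hI, hqI, hIG⟩ := h𝒢 q G hG hqG
  refine ⟨I, hI, hqI, fun y hy => ?_, fun z hz hzF => hIG z hz (hFG hzF)⟩
  obtain ⟨b, hb, h⟩ := hmax y (hIG y hy)
  exact ⟨b, by rwa [inf_comm], fun h' => hqG (hG.upper b q h' hb)⟩

theorem sound_start {𝒢 : Set (Set L)}
    (h𝒢 : ∀ (q : L) (F : Set L), IsFilt F → q ∉ F → ∃ I ∈ 𝒢, q ∈ I ∧ ∀ z ∈ I, z ∉ F)
    (q D : L) (h : ¬ D ≤ q) : ∃ I ∈ 𝒢, q ∈ I ∧ Ess q I := by
  obtain ⟨I, hI, hq, hE, -⟩ := sound_ess h𝒢 q {z | D ≤ z} ⟨fun a b hab ha => le_trans ha hab,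
    fun a b ha hb => le_inf ha hb⟩ h ⟨D, le_rfl⟩
  exact ⟨I, hI, hq, hE⟩

theorem sound_step {𝒢 : Set (Set L)}
    (h𝒢 : ∀ (q : L) (F : Set L), IsFilt F → q ∉ F → ∃ I ∈ 𝒢, q ∈ I ∧ ∀ z ∈ I, z ∉ F)
    (p q N : L) (I : Set L) (hI : IsPId I) (hE : Ess p I)
    (h : ∀ y y', Split p y y' → ¬ N ≤ y ⊔ q) :
    ∃ I' ∈ 𝒢, q ∈ I' ∧ Ess q I' ∧ N ∉ JoinId I I' := by
  obtain ⟨y0, hy0⟩ := hI.nonempty
  obtain ⟨I', hI', hq, hE', hav⟩ := sound_ess h𝒢 q {z | ∃ y ∈ I, N ≤ y ⊔ z} ⟨by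
      rintro a b hab ⟨y, hy, h'⟩
      exact ⟨y, hy, h'.trans (sup_le_sup_left hab y)⟩, by
      rintro a b ⟨y, hy, h1⟩ ⟨y', hy', h2⟩
      refine ⟨y ⊔ y', hI.sup y y' hy hy', ?_⟩
      rw [sup_inf_left]
      exact le_inf (h1.trans (sup_le_sup_right le_sup_left a))
        (h2.trans (sup_le_sup_right le_sup_right b))⟩ (by
      rintro ⟨y, hy, h'⟩
      obtain ⟨y', hy'⟩ := hE y hy
      exact h y y' hy' h') ⟨N, y0, hy0, le_sup_right⟩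
  refine ⟨I', hI', hq, hE', ?_⟩
  rintro ⟨a, ha, b, hb, h'⟩
  exact hav b hb ⟨a, ha, h'⟩

theorem sound_prime_inf' {K : Set L} (hK : IsPId K) (s : Finset ℕ) (hs : s.Nonempty) (f : ℕ → L)
    (h : s.inf' hs f ∈ K) : ∃ t ∈ s, f t ∈ K := by
  induction hs using Finset.Nonempty.cons_induction with
  | singleton a => exact ⟨a, by simp, by simpa using h⟩
  | cons a s ha hs ih =>
    rw [Finset.inf'_cons hs] at h
    rcases hK.prime _ _ h with h | h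
    · exact ⟨a, by simp, h⟩
    · obtain ⟨t, ht, h'⟩ := ih h
      exact ⟨t, by simp [ht], h'⟩

theorem sound (hG : GoodPts L) (S : Sys) (hS : S.Good)
    (A N D : L) (Z : ℕ → L) (T : ℕ → ℕ → ℕ → L) (h : S.Ax A N D Z T) :
    ∃ X Y : Type, Nonempty (S.Model X Y) := by
  classical
  obtain ⟨𝒢, hpid, hjoin, h𝒢⟩ := hG
  let X : Type := {p : ℕ × Set L // S.KC p.1 ∧ p.2 ∈ 𝒢 ∧ Z p.1 ∈ p.2 ∧ Ess (Z p.1) p.2}
  let Y : Type := {p : ℕ × Set L // S.KR p.1 ∧ p.2 ∈ 𝒢 ∧ Z p.1 ∈ p.2 ∧ Ess (Z p.1) p.2}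
  refine ⟨X, Y, ?_⟩
  obtain ⟨I0, hI0, hI0', hI0''⟩ := sound_start h𝒢 (Z S.i0) D h.start_i
  obtain ⟨J0, hJ0, hJ0', hJ0''⟩ := sound_start h𝒢 (Z S.l0) D h.start_l
  have hlab : ∀ (x : X) (y : Y), ∃ t ∈ S.Lab x.1.1 y.1.1, T x.1.1 y.1.1 t ∈ JoinId x.1.2 y.1.2 := by
    rintro ⟨⟨i, I⟩, hi, hI, hZi, hEi⟩ ⟨⟨l, J⟩, hl, hJ, hZl, hEl⟩
    have hK := hpid _ (hjoin I hI J hJ)
    refine sound_prime_inf' hK _ (hS.lab i l hi hl) (T i l) ?_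
    refine hK.lower _ (Z i ⊔ Z l) ?_ ⟨Z i, hZi, Z l, hZl, le_rfl⟩
    exact h.labs i l hi hl _ fun t ht => Finset.inf'_le _ ht
  choose lab hlab1 hlab2 using hlab
  refine ⟨{
    clX := fun x => x.1.1
    clY := fun y => y.1.1
    clX_mem := fun x => x.2.1
    clY_mem := fun y => y.2.1
    x0 := ⟨(S.i0, I0), hS.i0, hI0, hI0', hI0''⟩
    y0 := ⟨(S.l0, J0), hS.l0, hJ0, hJ0', hJ0''⟩
    clX_x0 := rfl
    clY_y0 := rfl
    adjX := fun x x' => A ∈ JoinId x.1.2 x'.1.2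
    adjY := fun y y' => A ∈ JoinId y.1.2 y'.1.2
    succX := ?_
    succY := ?_
    lab := lab
    lab_mem := hlab1
    conC := ?_
    conR := ?_ }⟩
  · rintro ⟨⟨i, I⟩, hi, hI, hZi, hEi⟩ i' hE
    obtain ⟨I', hI', hq, hE', hN⟩ := sound_step h𝒢 (Z i) (Z i') N I (hpid I hI) hEi (h.succC i i' hE)
    refine ⟨⟨(i', I'), (hS.ec i i' hE).2, hI', hq, hE'⟩, rfl, ?_⟩
    have hK := hpid _ (hjoin I hI I' hI')
    have h1 : A ⊓ N ∈ JoinId I I' := ⟨Z i, hZi, Z i', hq, h.adjC i i' hE⟩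
    exact (hK.prime _ _ h1).resolve_right hN
  · rintro ⟨⟨i, I⟩, hi, hI, hZi, hEi⟩ i' hE
    obtain ⟨I', hI', hq, hE', hN⟩ := sound_step h𝒢 (Z i) (Z i') N I (hpid I hI) hEi (h.succR i i' hE)
    refine ⟨⟨(i', I'), (hS.er i i' hE).2, hI', hq, hE'⟩, rfl, ?_⟩
    have hK := hpid _ (hjoin I hI I' hI')
    have h1 : A ⊓ N ∈ JoinId I I' := ⟨Z i, hZi, Z i', hq, h.adjR i i' hE⟩
    exact (hK.prime _ _ h1).resolve_right hN
  · intro x x' y hE hadj hF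
    have hD := h.forC _ _ _ _ _ hE y.2.1 (hlab1 x y) (hlab1 x' y) hF
    obtain ⟨a, ha, c, hc, h1⟩ := hlab2 x y
    obtain ⟨b, hb, c', hc', h2⟩ := hlab2 x' y
    obtain ⟨a', ha', b', hb', h3⟩ := hadj
    obtain ⟨u, hu⟩ := x.2.2.2.2 (a ⊔ a') ((hpid _ x.2.2.1).sup _ _ ha ha')
    obtain ⟨v, hv⟩ := x'.2.2.2.2 (b ⊔ b') ((hpid _ x'.2.2.1).sup _ _ hb hb')
    obtain ⟨w, hw⟩ := y.2.2.2.2 (c ⊔ c') ((hpid _ y.2.2.1).sup _ _ hc hc')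
    refine h.indC _ _ _ hE y.2.1 _ _ _ _ _ _ hu hv hw (hD.trans ?_)
    refine sup_le (sup_le (h1.trans ?_) (h2.trans ?_)) (h3.trans ?_)
    · exact sup_le (le_sup_of_le_left (le_sup_of_le_left le_sup_left))
        (le_sup_of_le_right le_sup_left)
    · exact sup_le (le_sup_of_le_left (le_sup_of_le_right le_sup_left))
        (le_sup_of_le_right le_sup_right)
    · exact sup_le (le_sup_of_le_left (le_sup_of_le_left le_sup_right))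
        (le_sup_of_le_left (le_sup_of_le_right le_sup_right))
  · intro y y' x hE hadj hF
    have hD := h.forR _ _ _ _ _ hE x.2.1 (hlab1 x y) (hlab1 x y') hF
    obtain ⟨c, hc, a, ha, h1⟩ := hlab2 x y
    obtain ⟨c', hc', b, hb, h2⟩ := hlab2 x y'
    obtain ⟨a', ha', b', hb', h3⟩ := hadj
    obtain ⟨u, hu⟩ := y.2.2.2.2 (a ⊔ a') ((hpid _ y.2.2.1).sup _ _ ha ha')
    obtain ⟨v, hv⟩ := y'.2.2.2.2 (b ⊔ b') ((hpid _ y'.2.2.1).sup _ _ hb hb')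
    obtain ⟨w, hw⟩ := x.2.2.2.2 (c ⊔ c') ((hpid _ x.2.2.1).sup _ _ hc hc')
    refine h.indR _ _ _ hE x.2.1 _ _ _ _ _ _ hu hv hw (hD.trans ?_)
    refine sup_le (sup_le (h1.trans ?_) (h2.trans ?_)) (h3.trans ?_)
    · exact sup_le (le_sup_of_le_right le_sup_left)
        (le_sup_of_le_left (le_sup_of_le_left le_sup_left))
    · exact sup_le (le_sup_of_le_right le_sup_right)
        (le_sup_of_le_left (le_sup_of_le_right le_sup_left))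
    · exact sup_le (le_sup_of_le_left (le_sup_of_le_left le_sup_right))
        (le_sup_of_le_left (le_sup_of_le_right le_sup_right))

end Sound

end Pool.Agent.Lib.MUD
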