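/-
MP_9f7f62_lc, module G1: side conditions, and no model if the machine halts with `bad`.
-/
import Pool.Agent.Lib.MP_9f7f62_lc.Defs

namespace Pool.Agent.Lib.MUD

theorem sys_good (d : TMData) (m : ℕ) : (d.sys m).Good where
  ec i i' h := by
    simp only [TMData.sys] at h ⊢
    omega
  er l l' h := by
    simp only [TMData.sys] at h ⊢
    omega
  ecAnti i i' h := by
    simp only [TMData.sys] at h ⊢
    omega
  erAnti l l' h := by
    simp only [TMData.sys] at h ⊢
    omega
  i0 := by
    simp only [TMData.sys]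
    omega
  l0 := by
    simp only [TMData.sys]
    omega
  disj i h := by
    simp only [TMData.sys] at h ⊢
    omega
  lab i l _ _ := by
    classical
    simp only [TMData.sys]
    rw [Finset.image_nonempty]
    by_cases h : i = 10
    · refine ⟨some (d.initSym i, St.head d.q0), ?_⟩
      rw [Finset.mem_filter]
      exact ⟨Finset.mem_univ _, fun _ => Or.inl ⟨h, rfl⟩⟩
    · refine ⟨some (d.initSym i, St.idle), ?_⟩
      rw [Finset.mem_filter]
      exact ⟨Finset.mem_univ _, fun _ => Or.inr ⟨h, St.idle, rfl, fun q hq => by cases hq⟩⟩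

section Tiles1

variable {d : TMData} {m : ℕ}

theorem tiles1_num_inj {a b : Cell d.Γ d.Λ} (h : d.num a = d.num b) : a = b := by
  unfold TMData.num at h
  exact (Fintype.equivFin (Cell d.Γ d.Λ)).injective (Fin.ext h)

/-- class of the column at distance `n` to the right -/
def tiles1R (m n : ℕ) : ℕ := if n ≤ m + 1 then 10 + n else (n - (m + 2)) % 3

/-- class of the column at distance `n` to the left -/
def tiles1L (n : ℕ) : ℕ := if n = 0 then 10 else 3 + (n - 1) % 3

/-- class of the row -/
def tiles1Y (t : ℕ) : ℕ := if t = 0 then 6 else 7 + (t - 1) % 3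

theorem tiles1R_edge (d : TMData) (m n : ℕ) :
    (d.sys m).EC (tiles1R m n) (tiles1R m (n + 1)) := by
  simp only [TMData.sys, tiles1R]
  split_ifs <;> first | contradiction | omega

theorem tiles1L_edge (d : TMData) (m n : ℕ) :
    (d.sys m).EC (tiles1L n) (tiles1L (n + 1)) := by
  simp only [TMData.sys, tiles1L]
  split_ifs <;> first | contradiction | omega

theorem tiles1Y_edge (d : TMData) (m t : ℕ) :
    (d.sys m).ER (tiles1Y t) (tiles1Y (t + 1)) := by
  simp only [TMData.sys, tiles1Y]
  split_ifs <;> first | contradiction | omega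

/-- sequences following edges -/
theorem tiles1_seq {X : Type} (cl : X → ℕ) (adj : X → X → Prop) (c : ℕ → ℕ)
    (h : ∀ n x, cl x = c n → ∃ x', cl x' = c (n + 1) ∧ adj x x') (x0 : X) (h0 : cl x0 = c 0) :
    ∃ f : ℕ → X, f 0 = x0 ∧ (∀ n, cl (f n) = c n) ∧ ∀ n, adj (f n) (f (n + 1)) := by
  choose! g hg1 hg2 using h
  let f : ℕ → X := fun n => Nat.rec x0 (fun k x => g k x) n
  have hf : ∀ n, cl (f n) = c n := by
    intro n
    induction n with
    | zero => exact h0
    | succ n ih => exact hg1 n (f n) ih
  exact ⟨f, rfl, hf, fun n => hg2 n (f n) (hf n)⟩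

/-- the columns, rows and cells of a model -/
theorem tiles1_grid {X Y : Type} (M : (d.sys m).Model X Y) :
    ∃ cell : ℤ → ℕ → Cell d.Γ d.Λ,
      (∀ p t, d.HOK (cell p t) (cell (p + 1) t)) ∧ (∀ p t, d.VOK (cell p t) (cell p (t + 1))) ∧
      ∀ p : ℤ, ∃ st, cell p 0 = some ((d.init m).tape p, st) ∧
        ∀ q, st = St.head q ↔ p = 0 ∧ q = d.q0 := by
  classical
  obtain ⟨R, hR0, hRc, hRa⟩ := tiles1_seq M.clX M.adjX (tiles1R m)
    (fun n x hx => M.succX x _ (by rw [hx]; exact tiles1R_edge d m n)) M.x0
    (by rw [M.clX_x0]; simp [TMData.sys, tiles1R])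
  obtain ⟨G, hG0, hGc, hGa⟩ := tiles1_seq M.clX M.adjX tiles1L
    (fun n x hx => M.succX x _ (by rw [hx]; exact tiles1L_edge d m n)) M.x0
    (by rw [M.clX_x0]; simp [TMData.sys, tiles1L])
  obtain ⟨W, hW0, hWc, hWa⟩ := tiles1_seq M.clY M.adjY tiles1Y
    (fun n y hy => M.succY y _ (by rw [hy]; exact tiles1Y_edge d m n)) M.y0
    (by rw [M.clY_y0]; simp [TMData.sys, tiles1Y])
  -- the columns
  let col : ℤ → X := fun p => if 0 ≤ p then R p.toNat else G (-p).toNat
  let cc : ℤ → ℕ := fun p => if 0 ≤ p then tiles1R m p.toNat else tiles1L (-p).toNat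
  have hcol : ∀ p, M.clX (col p) = cc p := by
    intro p
    simp only [col, cc]
    split_ifs
    · exact hRc _
    · exact hGc _
  have hcolR : ∀ n : ℕ, col n = R n := by
    intro n
    simp [col]
  have hcolL : ∀ n : ℕ, col (-n) = G n := by
    intro n
    rcases Nat.eq_zero_or_pos n with rfl | hn
    · simp [col, hR0, hG0]
    · have h1 : ¬ (0 : ℤ) ≤ -(n : ℤ) := by omega
      simp only [col, if_neg h1, neg_neg, Int.toNat_natCast]
  have hadj : ∀ p : ℤ, (0 ≤ p ∧ M.adjX (col p) (col (p + 1)) ∧
      (d.sys m).EC (M.clX (col p)) (M.clX (col (p + 1))) ∧ ¬ (3 ≤ M.clX (col (p + 1)) ∧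
        M.clX (col (p + 1)) ≤ 5)) ∨
      (p < 0 ∧ M.adjX (col (p + 1)) (col p) ∧
      (d.sys m).EC (M.clX (col (p + 1))) (M.clX (col p)) ∧ (3 ≤ M.clX (col p) ∧
        M.clX (col p) ≤ 5)) := by
    intro p
    rcases le_or_gt 0 p with hp | hp
    · left
      obtain ⟨n, rfl⟩ := Int.eq_ofNat_of_zero_le hp
      have h1 : ((n : ℤ) + 1) = ((n + 1 : ℕ) : ℤ) := by push_cast; ring
      rw [h1, hcolR, hcolR, hRc, hRc]
      refine ⟨by omega, hRa n, tiles1R_edge d m n, ?_⟩
      unfold tiles1R
      split_ifs <;> first | contradiction | omega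
    · right
      obtain ⟨n, hn⟩ : ∃ n : ℕ, p = -((n + 1 : ℕ) : ℤ) := ⟨(-p - 1).toNat, by omega⟩
      have h1 : p + 1 = -(n : ℤ) := by omega
      rw [h1, hn, hcolL, hcolL, hGc, hGc]
      refine ⟨by omega, hGa n, tiles1L_edge d m n, ?_⟩
      unfold tiles1L
      split_ifs <;> first | contradiction | omega
  -- the cells
  have hcell : ∀ p : ℤ, ∀ t : ℕ, ∃ c : Cell d.Γ d.Λ,
      d.Allowed (M.clX (col p)) (M.clY (W t)) c ∧ d.num c = M.lab (col p) (W t) := by
    intro p t
    have h1 := M.lab_mem (col p) (W t)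
    simp only [TMData.sys] at h1
    rw [Finset.mem_image] at h1
    obtain ⟨c, hc, hc2⟩ := h1
    rw [Finset.mem_filter] at hc
    exact ⟨c, hc.2, hc2⟩
  choose cell hall hnum using hcell
  refine ⟨cell, ?_, ?_, ?_⟩
  · intro p t
    rcases hadj p with ⟨_, h1, h2, h3⟩ | ⟨_, h1, h2, h3⟩
    · have h4 := M.conC _ _ (W t) h2 h1
      by_contra h5
      exact h4 ⟨cell p t, cell (p + 1) t, hnum p t, hnum (p + 1) t, Or.inr ⟨h3, h5⟩⟩
    · have h4 := M.conC _ _ (W t) h2 h1
      by_contra h5
      exact h4 ⟨cell (p + 1) t, cell p t, hnum (p + 1) t, hnum p t, Or.inl ⟨h3.1, h3.2, h5⟩⟩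
  · intro p t
    have h4 := M.conR _ _ (col p) (by rw [hWc, hWc]; exact tiles1Y_edge d m t) (hWa t)
    by_contra h5
    exact h4 ⟨cell p t, cell p (t + 1), hnum p t, hnum p (t + 1), h5⟩
  · intro p
    have h6 : M.clY (W 0) = 6 := by rw [hWc]; rfl
    have h7 : (d.init m).tape p = d.initSym (M.clX (col p)) := by
      rw [hcol]
      simp only [cc, TMData.init, TMData.initSym, tiles1R, tiles1L]
      split_ifs <;> first | rfl | omega
    have h8 : M.clX (col p) = 10 ↔ p = 0 := by
      rw [hcol]
      simp only [cc, tiles1R, tiles1L]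
      split_ifs <;> omega
    rcases hall p 0 h6 with ⟨h9, h10⟩ | ⟨h9, st, h10, h11⟩
    · refine ⟨St.head d.q0, by rw [h10, h7], fun q => ?_⟩
      constructor
      · intro hq
        injection hq with hq
        exact ⟨h8.1 h9, hq.symm⟩
      · rintro ⟨-, rfl⟩
        rfl
    · refine ⟨st, by rw [h10, h7], fun q => ?_⟩
      constructor
      · intro hq
        exact absurd hq (h11 q)
      · rintro ⟨h12, -⟩
        exact absurd (h8.2 h12) h9

/-- the row of a configuration -/
def tiles1Row (cell : ℤ → Cell d.Γ d.Λ) (c : ACfg d.Γ d.Λ) : Prop :=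
  ∀ p : ℤ, ∃ st, cell p = some (c.tape p, st) ∧ ∀ q, st = St.head q ↔ p = c.h ∧ q = c.q

theorem tiles1_live {row : ℤ → Cell d.Γ d.Λ} (hH : ∀ p, d.HOK (row p) (row (p + 1))) {p₀ : ℤ}
    (h0 : row p₀ ≠ none) (p : ℤ) : row p ≠ none := by
  have hr : ∀ p, row p ≠ none → row (p + 1) ≠ none := by
    intro p hp hn
    have h1 := hH p
    rw [hn] at h1
    cases h2 : row p with
    | none => exact hp h2
    | some a =>
      rw [h2] at h1
      obtain ⟨s, st⟩ := a
      exact h1
  have hl : ∀ p, row (p + 1) ≠ none → row p ≠ none := by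
    intro p hp hn
    have h1 := hH p
    rw [hn] at h1
    cases h2 : row (p + 1) with
    | none => exact hp h2
    | some a =>
      rw [h2] at h1
      obtain ⟨s, st⟩ := a
      exact h1
  have hr2 : ∀ n : ℕ, row (p₀ + n) ≠ none := by
    intro n
    induction n with
    | zero => simpa using h0
    | succ n ih =>
      have := hr _ ih
      rw [add_assoc] at this
      exact_mod_cast this
  have hl2 : ∀ n : ℕ, row (p₀ - n) ≠ none := by
    intro n
    induction n with
    | zero => simpa using h0
    | succ n ih =>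
      apply hl
      have h3 : p₀ - ((n + 1 : ℕ) : ℤ) + 1 = p₀ - n := by push_cast; ring
      rw [h3]
      exact ih
  rcases le_or_gt p₀ p with h | h
  · have := hr2 (p - p₀).toNat
    rwa [show p₀ + ((p - p₀).toNat : ℤ) = p by omega] at this
  · have := hl2 (p₀ - p).toNat
    rwa [show p₀ - ((p₀ - p).toNat : ℤ) = p by omega] at this

theorem tiles1_step {row row' : ℤ → Cell d.Γ d.Λ} {c c' : ACfg d.Γ d.Λ}
    (hH : ∀ p, d.HOK (row p) (row (p + 1))) (hH' : ∀ p, d.HOK (row' p) (row' (p + 1)))
    (hV : ∀ p, d.VOK (row p) (row' p)) (hrow : tiles1Row row c) (hs : astep d.M c = some c') :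
    tiles1Row row' c' := by
  choose st hst hhead using hrow
  have hh : st c.h = St.head c.q := (hhead c.h c.q).2 ⟨rfl, rfl⟩
  -- horizontal facts
  have hHR : ∀ p q', st (p + 1) = St.fromL q' ↔
      ∃ q, st p = St.head q ∧ d.M q (c.tape p) = some (q', Act.right) := by
    intro p
    have h1 := hH p
    rw [hst p, hst (p + 1)] at h1
    exact h1.1
  have hHL : ∀ p q', st p = St.fromR q' ↔
      ∃ q, st (p + 1) = St.head q ∧ d.M q (c.tape (p + 1)) = some (q', Act.left) := by
    intro p
    have h1 := hH p
    rw [hst p, hst (p + 1)] at h1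
    exact h1.2.1
  have hL' : ∀ p q', st p = St.fromL q' →
      p = c.h + 1 ∧ d.M c.q (c.tape c.h) = some (q', Act.right) := by
    intro p q' hp
    have h1 := (hHR (p - 1) q').1 (by rwa [sub_add_cancel])
    obtain ⟨q, h2, h3⟩ := h1
    obtain ⟨h4, rfl⟩ := (hhead _ _).1 h2
    rw [h4] at h3
    exact ⟨by omega, h3⟩
  have hR' : ∀ p q', st p = St.fromR q' →
      p = c.h - 1 ∧ d.M c.q (c.tape c.h) = some (q', Act.left) := by
    intro p q' hp
    obtain ⟨q, h2, h3⟩ := (hHL p q').1 hp
    obtain ⟨h4, rfl⟩ := (hhead _ _).1 h2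
    rw [h4] at h3
    exact ⟨by omega, h3⟩
  have hVh := hV c.h
  rw [hst c.h, hh] at hVh
  simp only [TMData.VOK] at hVh
  have hlive : ∀ p, row' p ≠ none := by
    apply tiles1_live hH' (p₀ := c.h)
    unfold astep at hs
    rcases hM : d.M c.q (c.tape c.h) with _ | ⟨q', a⟩
    · rw [hM] at hs
      simp at hs
    · rw [hM] at hVh
      cases a with
      | write a => simp only at hVh; rw [hVh]; simp
      | left => obtain ⟨s, h1, -⟩ := hVh; rw [h1]; simp
      | right => obtain ⟨s, h1, -⟩ := hVh; rw [h1]; simp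
  -- the idle cells
  have hidle : ∀ p, st p = St.idle → ∃ s, row' p = some (c.tape p, s) ∧ ∀ q, s ≠ St.head q := by
    intro p hp
    have h1 := hV p
    rw [hst p, hp] at h1
    simp only [TMData.VOK] at h1
    rcases h1 with h1 | h1
    · exact absurd h1 (hlive p)
    · exact h1
  have hfromL : ∀ p q', st p = St.fromL q' → row' p = some (c.tape p, St.head q') := by
    intro p q' hp
    have h1 := hV p
    rw [hst p, hp] at h1
    exact h1
  have hfromR : ∀ p q', st p = St.fromR q' → row' p = some (c.tape p, St.head q') := by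
    intro p q' hp
    have h1 := hV p
    rw [hst p, hp] at h1
    exact h1
  unfold astep at hs
  rcases hM : d.M c.q (c.tape c.h) with _ | ⟨q', a⟩
  · rw [hM] at hs
    simp at hs
  · rw [hM] at hs hVh
    cases a with
    | write a =>
      simp only [Option.some.injEq] at hs hVh
      subst hs
      intro p
      by_cases hp : p = c.h
      · subst hp
        refine ⟨St.head q', by rw [hVh]; simp, fun q => ?_⟩
        constructor
        · intro h; injection h with h; exact ⟨rfl, h.symm⟩
        · rintro ⟨-, rfl⟩; rfl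
      · have h2 : st p = St.idle := by
          cases h3 : st p with
          | idle => rfl
          | head q => exact absurd ((hhead p q).1 h3).1 hp
          | fromL q => have := (hL' p q h3).2; rw [hM] at this; simp at this
          | fromR q => have := (hR' p q h3).2; rw [hM] at this; simp at this
        obtain ⟨s, h3, h4⟩ := hidle p h2
        refine ⟨s, by rw [h3]; simp [Function.update_of_ne hp], fun q => ?_⟩
        constructor
        · intro h; exact absurd h (h4 q)
        · rintro ⟨h, -⟩; exact absurd h hp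
    | left =>
      simp only [Option.some.injEq] at hs
      subst hs
      intro p
      by_cases hp : p = c.h - 1
      · have h3 : st p = St.fromR q' := by
          refine (hHL p q').2 ⟨c.q, ?_, ?_⟩
          · rw [hp, sub_add_cancel]; exact hh
          · rw [hp, sub_add_cancel]; exact hM
        refine ⟨St.head q', hfromR p q' h3, fun q => ?_⟩
        constructor
        · intro h; injection h with h; exact ⟨hp, h.symm⟩
        · rintro ⟨-, rfl⟩; rfl
      · have h2 : ∃ s, row' p = some (c.tape p, s) ∧ ∀ q, s ≠ St.head q := by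
          cases h3 : st p with
          | idle => exact hidle p h3
          | head q =>
            obtain ⟨h4, -⟩ := (hhead p q).1 h3
            subst h4
            exact hVh
          | fromL q => have := (hL' p q h3).2; rw [hM] at this; simp at this
          | fromR q => exact absurd (hR' p q h3).1 hp
        obtain ⟨s, h3, h4⟩ := h2
        refine ⟨s, h3, fun q => ?_⟩
        constructor
        · intro h; exact absurd h (h4 q)
        · rintro ⟨h, -⟩; exact absurd h hp
    | right =>
      simp only [Option.some.injEq] at hs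
      subst hs
      intro p
      by_cases hp : p = c.h + 1
      · have h3 : st p = St.fromL q' := by
          rw [hp]
          exact (hHR c.h q').2 ⟨c.q, hh, hM⟩
        refine ⟨St.head q', hfromL p q' h3, fun q => ?_⟩
        constructor
        · intro h; injection h with h; exact ⟨hp, h.symm⟩
        · rintro ⟨-, rfl⟩; rfl
      · have h2 : ∃ s, row' p = some (c.tape p, s) ∧ ∀ q, s ≠ St.head q := by
          cases h3 : st p with
          | idle => exact hidle p h3
          | head q =>
            obtain ⟨h4, -⟩ := (hhead p q).1 h3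
            subst h4
            exact hVh
          | fromL q => exact absurd (hL' p q h3).1 hp
          | fromR q => have := (hR' p q h3).2; rw [hM] at this; simp at this
        obtain ⟨s, h3, h4⟩ := h2
        refine ⟨s, h3, fun q => ?_⟩
        constructor
        · intro h; exact absurd h (h4 q)
        · rintro ⟨h, -⟩; exact absurd h hp

end Tiles1

theorem no_model (d : TMData) (m : ℕ) (h : d.HaltsBad m) (X Y : Type) :
    IsEmpty ((d.sys m).Model X Y) := by
  constructor
  intro M
  obtain ⟨cell, hH, hV, h0⟩ := tiles1_grid M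
  obtain ⟨n, c, hn, hstop, hbad⟩ := h
  have hrow : ∀ t c, arun d.M (d.init m) t = some c → tiles1Row (fun p => cell p t) c := by
    intro t
    induction t with
    | zero =>
      intro c hc
      simp only [arun, Option.some.injEq] at hc
      subst hc
      exact h0
    | succ t ih =>
      intro c hc
      simp only [arun] at hc
      rw [Option.bind_eq_some_iff] at hc
      obtain ⟨c₁, hc₁, hc₂⟩ := hc
      exact tiles1_step (fun p => hH p t) (fun p => hH p (t + 1)) (fun p => hV p t) (ih c₁ hc₁) hc₂
  have h1 := hrow n c hn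
  obtain ⟨st, h2, h3⟩ := h1 c.h
  obtain ⟨st', h4, -⟩ := h1 (c.h + 1)
  have h5 := hH c.h n
  simp only at h2 h4
  rw [h2, h4] at h5
  have h6 : st = St.head c.q := (h3 c.q).2 ⟨rfl, rfl⟩
  refine h5.2.2 c.q h6 ?_ hbad
  unfold astep at hstop
  rcases hM : d.M c.q (c.tape c.h) with _ | ⟨q', a⟩
  · rfl
  · rw [hM] at hstop
    cases a <;> simp at hstop

end Pool.Agent.Lib.MUD
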