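/-
MP_9f7f62_lc, module G2: a finite model if the machine halts with a symbol different from `bad`.
-/
import Pool.Agent.Lib.MP_9f7f62_lc.Defs

namespace Pool.Agent.Lib.MUD

namespace Tiles2

variable (d : TMData)

lemma num_inj {a b : Cell d.Γ d.Λ} (h : d.num a = d.num b) : a = b := by
  unfold TMData.num at h
  exact (Fintype.equivFin (Cell d.Γ d.Λ)).injective (Fin.ext h)

/-- class of a column -/
def cX (m : ℕ) (p : ℤ) : ℕ :=
  if p < 0 then 3 + ((-p - 1) % 3).toNat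
  else if p ≤ m + 1 then 10 + p.toNat
  else ((p - m - 2) % 3).toNat

/-- class of a row -/
def cY (t : ℕ) : ℕ := if t = 0 then 6 else 7 + (t - 1) % 3

/-- status of a cell -/
def st (c : ACfg d.Γ d.Λ) (p : ℤ) : St d.Λ :=
  if p = c.h then St.head c.q
  else match d.M c.q (c.tape c.h) with
    | some (q', .right) => if p = c.h + 1 then St.fromL q' else St.idle
    | some (q', .left) => if p = c.h - 1 then St.fromR q' else St.idle
    | _ => St.idle

/-- configuration at time `t` -/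
noncomputable def conf (m t : ℕ) : ACfg d.Γ d.Λ := (arun d.M (d.init m) t).getD (d.init m)

/-- cell in row `t`, column `p` -/
noncomputable def cell (m T t : ℕ) (p : ℤ) : Cell d.Γ d.Λ :=
  if t ≤ T then some ((conf d m t).tape p, st d (conf d m t) p) else none

variable {d}

lemma st_at {c : ACfg d.Γ d.Λ} : st d c c.h = St.head c.q := by
  unfold st; rw [if_pos rfl]

lemma st_none {c : ACfg d.Γ d.Λ} {p : ℤ} (hp : p ≠ c.h) (h : d.M c.q (c.tape c.h) = none) :
    st d c p = St.idle := by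
  unfold st; rw [if_neg hp, h]

lemma st_write {c : ACfg d.Γ d.Λ} {p : ℤ} (hp : p ≠ c.h) {q' : d.Λ} {a : d.Γ}
    (h : d.M c.q (c.tape c.h) = some (q', .write a)) :
    st d c p = St.idle := by
  unfold st; rw [if_neg hp, h]

lemma st_right {c : ACfg d.Γ d.Λ} {p : ℤ} (hp : p ≠ c.h) {q' : d.Λ}
    (h : d.M c.q (c.tape c.h) = some (q', .right)) :
    st d c p = if p = c.h + 1 then St.fromL q' else St.idle := by
  unfold st; rw [if_neg hp, h]

lemma st_left {c : ACfg d.Γ d.Λ} {p : ℤ} (hp : p ≠ c.h) {q' : d.Λ}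
    (h : d.M c.q (c.tape c.h) = some (q', .left)) :
    st d c p = if p = c.h - 1 then St.fromR q' else St.idle := by
  unfold st; rw [if_neg hp, h]

lemma st_ne_head {c : ACfg d.Γ d.Λ} {p : ℤ} (hp : p ≠ c.h) (q : d.Λ) :
    st d c p ≠ St.head q := by
  rcases hM : d.M c.q (c.tape c.h) with _ | ⟨q', a | _ | _⟩
  · rw [st_none hp hM]; simp
  · rw [st_write hp hM]; simp
  · rw [st_left hp hM]
    by_cases h1 : p = c.h - 1
    · rw [if_pos h1]; simp
    · rw [if_neg h1]; simp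
  · rw [st_right hp hM]
    by_cases h1 : p = c.h + 1
    · rw [if_pos h1]; simp
    · rw [if_neg h1]; simp

lemma st_head {c : ACfg d.Γ d.Λ} {p : ℤ} {q : d.Λ} :
    st d c p = St.head q ↔ p = c.h ∧ q = c.q := by
  by_cases hp : p = c.h
  · subst hp
    rw [st_at]
    constructor
    · intro h; injection h with h; exact ⟨rfl, h.symm⟩
    · rintro ⟨_, rfl⟩; rfl
  · constructor
    · intro h; exact absurd h (st_ne_head hp q)
    · rintro ⟨h, _⟩; exact absurd h hp

lemma st_fromL {c : ACfg d.Γ d.Λ} {p : ℤ} {q' : d.Λ} :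
    st d c p = St.fromL q' ↔ p = c.h + 1 ∧ d.M c.q (c.tape c.h) = some (q', Act.right) := by
  by_cases hp : p = c.h
  · subst hp
    rw [st_at]
    constructor
    · intro h; exact absurd h (by simp)
    · rintro ⟨h, _⟩; omega
  · rcases hM : d.M c.q (c.tape c.h) with _ | ⟨q'', a | _ | _⟩
    · rw [st_none hp hM]; simp
    · rw [st_write hp hM]; simp
    · rw [st_left hp hM]
      by_cases h1 : p = c.h - 1
      · rw [if_pos h1]; simp
      · rw [if_neg h1]; simp
    · rw [st_right hp hM]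
      by_cases h1 : p = c.h + 1
      · rw [if_pos h1]; simp [h1]
      · rw [if_neg h1]; simp [h1]

lemma st_fromR {c : ACfg d.Γ d.Λ} {p : ℤ} {q' : d.Λ} :
    st d c p = St.fromR q' ↔ p = c.h - 1 ∧ d.M c.q (c.tape c.h) = some (q', Act.left) := by
  by_cases hp : p = c.h
  · subst hp
    rw [st_at]
    constructor
    · intro h; exact absurd h (by simp)
    · rintro ⟨h, _⟩; omega
  · rcases hM : d.M c.q (c.tape c.h) with _ | ⟨q'', a | _ | _⟩
    · rw [st_none hp hM]; simp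
    · rw [st_write hp hM]; simp
    · rw [st_left hp hM]
      by_cases h1 : p = c.h - 1
      · rw [if_pos h1]; simp [h1]
      · rw [if_neg h1]; simp [h1]
    · rw [st_right hp hM]
      by_cases h1 : p = c.h + 1
      · rw [if_pos h1]; simp
      · rw [if_neg h1]; simp

/-- horizontal neighbours in the row of a configuration -/
lemma hok (c : ACfg d.Γ d.Λ) (hc : d.M c.q (c.tape c.h) = none → c.tape (c.h + 1) ≠ d.bad)
    (p p' : ℤ) (hp : p' = p + 1) :
    d.HOK (some (c.tape p, st d c p)) (some (c.tape p', st d c p')) := by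
  subst hp
  refine ⟨fun q' => ?_, fun q' => ?_, fun q h1 h2 => ?_⟩
  · rw [st_fromL]
    constructor
    · rintro ⟨h1, h2⟩
      have h3 : p = c.h := by omega
      exact ⟨c.q, st_head.2 ⟨h3, rfl⟩, by rw [h3]; exact h2⟩
    · rintro ⟨q, h1, h2⟩
      obtain ⟨h3, rfl⟩ := st_head.1 h1
      rw [h3] at h2
      exact ⟨by omega, h2⟩
  · rw [st_fromR]
    constructor
    · rintro ⟨h1, h2⟩
      have h3 : p + 1 = c.h := by omega
      exact ⟨c.q, st_head.2 ⟨h3, rfl⟩, by rw [h3]; exact h2⟩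
    · rintro ⟨q, h1, h2⟩
      obtain ⟨h3, rfl⟩ := st_head.1 h1
      rw [h3] at h2
      exact ⟨by omega, h2⟩
  · obtain ⟨h3, rfl⟩ := st_head.1 h1
    rw [h3] at h2 ⊢
    exact hc h2

/-- far from the head -/
lemma st_idle {c : ACfg d.Γ d.Λ} {p : ℤ} (h1 : p ≠ c.h) (h2 : p ≠ c.h + 1) (h3 : p ≠ c.h - 1) :
    st d c p = St.idle := by
  rcases hM : d.M c.q (c.tape c.h) with _ | ⟨q'', a | _ | _⟩
  · rw [st_none h1 hM]
  · rw [st_write h1 hM]
  · rw [st_left h1 hM, if_neg h3]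
  · rw [st_right h1 hM, if_neg h2]

lemma hok_idle (s s' : d.Γ) : d.HOK (some (s, St.idle)) (some (s', St.idle)) := by
  refine ⟨fun q' => ?_, fun q' => ?_, fun q h1 _ => ?_⟩
  · constructor
    · intro h; exact absurd h (by simp)
    · rintro ⟨q, h, _⟩; exact absurd h (by simp)
  · constructor
    · intro h; exact absurd h (by simp)
    · rintro ⟨q, h, _⟩; exact absurd h (by simp)
  · exact absurd h1 (by simp)

/-- vertical neighbours -/
lemma vok {c c' : ACfg d.Γ d.Λ} (h : astep d.M c = some c') (p : ℤ) :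
    d.VOK (some (c.tape p, st d c p)) (some (c'.tape p, st d c' p)) := by
  unfold astep at h
  rcases hM : d.M c.q (c.tape c.h) with _ | ⟨q', a | _ | _⟩
  · rw [hM] at h; exact absurd h (by simp)
  · -- write
    rw [hM] at h
    simp only [Option.some.injEq] at h
    subst h
    by_cases hp : p = c.h
    · subst hp
      have h2 : st d (⟨q', c.h, Function.update c.tape c.h a⟩ : ACfg d.Γ d.Λ) c.h
          = St.head q' := st_head.2 ⟨rfl, rfl⟩
      rw [st_at, h2]
      show (match d.M c.q (c.tape c.h) with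
        | none => _
        | some (q', .write s') => _
        | some (_, .left) => _
        | some (_, .right) => _ : Prop)
      rw [hM]
      simp
    · rw [st_write hp hM]
      refine Or.inr ⟨st d (⟨q', c.h, Function.update c.tape c.h a⟩ : ACfg d.Γ d.Λ) p, ?_,
        fun q => st_ne_head (by show p ≠ c.h; exact hp) q⟩
      simp [Function.update_of_ne hp]
  · -- left
    rw [hM] at h
    simp only [Option.some.injEq] at h
    subst h
    by_cases hp : p = c.h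
    · subst hp
      rw [st_at]
      show (match d.M c.q (c.tape c.h) with
        | none => _
        | some (q', .write s') => _
        | some (_, .left) => _
        | some (_, .right) => _ : Prop)
      rw [hM]
      exact ⟨_, rfl, fun q => st_ne_head (by show c.h ≠ c.h - 1; omega) q⟩
    · rw [st_left hp hM]
      by_cases h1 : p = c.h - 1
      · rw [if_pos h1]
        show _ = _
        have h2 : st d (⟨q', c.h - 1, c.tape⟩ : ACfg d.Γ d.Λ) p = St.head q' :=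
          st_head.2 ⟨h1, rfl⟩
        rw [h2]
      · rw [if_neg h1]
        exact Or.inr ⟨_, rfl, fun q => st_ne_head (by show p ≠ c.h - 1; exact h1) q⟩
  · -- right
    rw [hM] at h
    simp only [Option.some.injEq] at h
    subst h
    by_cases hp : p = c.h
    · subst hp
      rw [st_at]
      show (match d.M c.q (c.tape c.h) with
        | none => _
        | some (q', .write s') => _
        | some (_, .left) => _
        | some (_, .right) => _ : Prop)
      rw [hM]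
      exact ⟨_, rfl, fun q => st_ne_head (by show c.h ≠ c.h + 1; omega) q⟩
    · rw [st_right hp hM]
      by_cases h1 : p = c.h + 1
      · rw [if_pos h1]
        show _ = _
        have h2 : st d (⟨q', c.h + 1, c.tape⟩ : ACfg d.Γ d.Λ) p = St.head q' :=
          st_head.2 ⟨h1, rfl⟩
        rw [h2]
      · rw [if_neg h1]
        exact Or.inr ⟨_, rfl, fun q => st_ne_head (by show p ≠ c.h + 1; exact h1) q⟩

lemma vok_last {c : ACfg d.Γ d.Λ} (h : astep d.M c = none) (p : ℤ) :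
    d.VOK (some (c.tape p, st d c p)) none := by
  unfold astep at h
  rcases hM : d.M c.q (c.tape c.h) with _ | ⟨q', a | _ | _⟩
  · by_cases hp : p = c.h
    · subst hp
      rw [st_at]
      show (match d.M c.q (c.tape c.h) with
        | none => _
        | some (q', .write s') => _
        | some (_, .left) => _
        | some (_, .right) => _ : Prop)
      rw [hM]
    · rw [st_none hp hM]
      exact Or.inl rfl
  · rw [hM] at h; exact absurd h (by simp)
  · rw [hM] at h; exact absurd h (by simp)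
  · rw [hM] at h; exact absurd h (by simp)

/-! ### the run -/

lemma arun_prev {m T t : ℕ} (h : (arun d.M (d.init m) T).isSome) (ht : t ≤ T) :
    (arun d.M (d.init m) t).isSome := by
  induction T with
  | zero =>
    have : t = 0 := by omega
    subst this; exact h
  | succ T ih =>
    rcases Nat.lt_or_ge t (T + 1) with h1 | h1
    · refine ih ?_ (by omega)
      rcases h2 : arun d.M (d.init m) T with _ | c
      · rw [arun, h2] at h; simp at h
      · rfl
    · have : t = T + 1 := by omega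
      subst this; exact h

lemma arun_conf {m t : ℕ} (h : (arun d.M (d.init m) t).isSome) :
    arun d.M (d.init m) t = some (conf d m t) := by
  rcases h1 : arun d.M (d.init m) t with _ | c
  · rw [h1] at h; simp at h
  · unfold conf; rw [h1]; rfl

lemma conf_step {m T t : ℕ} (h : (arun d.M (d.init m) T).isSome) (ht : t < T) :
    astep d.M (conf d m t) = some (conf d m (t + 1)) := by
  have h1 := arun_conf (arun_prev h (t := t) (by omega))
  have h2 := arun_conf (arun_prev h (t := t + 1) (by omega))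
  rw [arun, h1] at h2
  simpa using h2

lemma conf_zero (m : ℕ) : conf d m 0 = d.init m := rfl

lemma astep_h {c c' : ACfg d.Γ d.Λ} (h : astep d.M c = some c') :
    c'.h = c.h ∨ c'.h = c.h - 1 ∨ c'.h = c.h + 1 := by
  unfold astep at h
  rcases hM : d.M c.q (c.tape c.h) with _ | ⟨q', a | _ | _⟩
  · rw [hM] at h; exact absurd h (by simp)
  · rw [hM] at h
    simp only [Option.some.injEq] at h
    subst h; exact Or.inl rfl
  · rw [hM] at h
    simp only [Option.some.injEq] at h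
    subst h; exact Or.inr (Or.inl rfl)
  · rw [hM] at h
    simp only [Option.some.injEq] at h
    subst h; exact Or.inr (Or.inr rfl)

lemma conf_h {m T t : ℕ} (h : (arun d.M (d.init m) T).isSome) (ht : t ≤ T) :
    -(t : ℤ) ≤ (conf d m t).h ∧ (conf d m t).h ≤ t := by
  induction t with
  | zero => rw [conf_zero]; simp [TMData.init]
  | succ t ih =>
    have h1 := ih (by omega)
    have h2 := astep_h (conf_step h (t := t) (by omega))
    push_cast
    omega

lemma cell_pos {m T t : ℕ} {p : ℤ} (h : t ≤ T) :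
    cell d m T t p = some ((conf d m t).tape p, st d (conf d m t) p) := if_pos h

lemma cell_neg {m T t : ℕ} {p : ℤ} (h : ¬ t ≤ T) : cell d m T t p = none := if_neg h

lemma cell_hok {m T t : ℕ} (h : (arun d.M (d.init m) T).isSome)
    (hl : (conf d m T).tape ((conf d m T).h + 1) ≠ d.bad) (p p' : ℤ) (hp : p' = p + 1) :
    d.HOK (cell d m T t p) (cell d m T t p') := by
  by_cases ht : t ≤ T
  · rw [cell_pos ht, cell_pos ht]
    refine hok _ ?_ p p' hp
    intro h1
    rcases Nat.lt_or_ge t T with h2 | h2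
    · have h3 := conf_step h h2
      unfold astep at h3
      rw [h1] at h3
      exact absurd h3 (by simp)
    · have : t = T := by omega
      subst this; exact hl
  · rw [cell_neg ht, cell_neg ht]; trivial

lemma cell_hok_idle {m T t : ℕ} (h : (arun d.M (d.init m) T).isSome) (p p' : ℤ)
    (hp : (T : ℤ) + 2 ≤ |p|) (hp' : (T : ℤ) + 2 ≤ |p'|) :
    d.HOK (cell d m T t p) (cell d m T t p') := by
  by_cases ht : t ≤ T
  · rw [cell_pos ht, cell_pos ht]
    have h1 := conf_h h ht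
    have h2 : (t : ℤ) ≤ T := by exact_mod_cast ht
    have h3 : st d (conf d m t) p = St.idle := by
      rcases abs_cases p with ⟨h4, _⟩ | ⟨h4, _⟩ <;> rw [h4] at hp <;>
        exact st_idle (by omega) (by omega) (by omega)
    have h4 : st d (conf d m t) p' = St.idle := by
      rcases abs_cases p' with ⟨h4, _⟩ | ⟨h4, _⟩ <;> rw [h4] at hp' <;>
        exact st_idle (by omega) (by omega) (by omega)
    rw [h3, h4]
    exact hok_idle _ _
  · rw [cell_neg ht, cell_neg ht]; trivial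

lemma cell_vok {m T t : ℕ} (h : (arun d.M (d.init m) T).isSome)
    (hl : astep d.M (conf d m T) = none) (p : ℤ) :
    d.VOK (cell d m T t p) (cell d m T (t + 1) p) := by
  rcases Nat.lt_trichotomy t T with h1 | h1 | h1
  · rw [cell_pos h1.le, cell_pos (show t + 1 ≤ T by omega)]
    exact vok (conf_step h h1) p
  · subst h1
    rw [cell_pos le_rfl, cell_neg (by omega)]
    exact vok_last hl p
  · rw [cell_neg (by omega), cell_neg (by omega)]
    rfl

/-! ### the classes -/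

lemma cX_cases (m : ℕ) (p : ℤ) :
    (p < 0 ∧ (cX m p : ℤ) = 3 + (-p - 1) % 3) ∨ (0 ≤ p ∧ p ≤ m + 1 ∧ (cX m p : ℤ) = 10 + p) ∨
      (m + 1 < p ∧ (cX m p : ℤ) = (p - m - 2) % 3) := by
  unfold cX
  by_cases h1 : p < 0
  · left
    refine ⟨h1, ?_⟩
    rw [if_pos h1]
    push_cast
    rw [Int.toNat_of_nonneg (by omega)]
  · by_cases h2 : p ≤ m + 1
    · right; left
      refine ⟨by omega, h2, ?_⟩
      rw [if_neg h1, if_pos h2]
      push_cast
      rw [Int.toNat_of_nonneg (by omega)]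
    · right; right
      refine ⟨by omega, ?_⟩
      rw [if_neg h1, if_neg h2]
      rw [Int.toNat_of_nonneg (by omega)]

lemma cY_cases (t : ℕ) : (t = 0 ∧ cY t = 6) ∨ (0 < t ∧ cY t = 7 + (t - 1) % 3) := by
  unfold cY
  by_cases h : t = 0
  · left; exact ⟨h, if_pos h⟩
  · right; exact ⟨by omega, if_neg h⟩

/-- neighbours -/
def adjX (m T : ℕ) (p p' : ℤ) : Prop :=
  (0 ≤ p ∧ p < T + m + 4 ∧ p' = p + 1) ∨ (p = 0 ∧ p' = -1) ∨ (-(T + 4 : ℤ) < p ∧ p < 0 ∧ p' = p - 1) ∨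
    (p = T + m + 4 ∧ p' = T + m + 2) ∨ (p = -(T + 4) ∧ p' = -(T + 2))

/-- neighbours -/
def adjY (T : ℕ) (t t' : ℕ) : Prop := (t < T + 3 ∧ t' = t + 1) ∨ (t = T + 3 ∧ t' = T + 1)

lemma KC_cX (m : ℕ) (p : ℤ) : (d.sys m).KC (cX m p) := by
  show cX m p < 6 ∨ (10 ≤ cX m p ∧ cX m p ≤ m + 11)
  rcases cX_cases m p with ⟨h1, h2⟩ | ⟨h0, h1, h2⟩ | ⟨h1, h2⟩ <;> omega

lemma KR_cY (m t : ℕ) : (d.sys m).KR (cY t) := by
  show 6 ≤ cY t ∧ cY t ≤ 9
  rcases cY_cases t with ⟨h1, h2⟩ | ⟨h1, h2⟩ <;> omega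

lemma allowed (m T t : ℕ) (p : ℤ) : d.Allowed (cX m p) (cY t) (cell d m T t p) := by
  intro hl
  have ht : t = 0 := by
    rcases cY_cases t with ⟨h1, h2⟩ | ⟨h1, h2⟩
    · exact h1
    · omega
  subst ht
  have hs : (d.init m).tape p = d.initSym (cX m p) := by
    unfold TMData.init TMData.initSym
    dsimp only
    rcases cX_cases m p with ⟨h1, h2⟩ | ⟨h0, h1, h2⟩ | ⟨h1, h2⟩
    · rw [if_neg (by omega), if_neg (by omega), if_neg (by omega), if_pos (by omega)]
    · by_cases hp0 : p = 0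
      · rw [if_pos hp0, if_neg (by omega), if_pos (by omega)]
      · by_cases hp1 : p = 1
        · rw [if_neg hp0, if_pos hp1, if_neg (by omega), if_neg (by omega), if_pos (by omega)]
        · rw [if_neg hp0, if_neg hp1, if_pos (by omega), if_neg (by omega), if_neg (by omega),
            if_neg (by omega)]
    · rw [if_neg (by omega), if_neg (by omega), if_neg (by omega), if_pos (by omega)]
  rw [cell_pos (Nat.zero_le _), conf_zero, hs]
  by_cases hp : p = 0
  · left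
    refine ⟨?_, ?_⟩
    · rcases cX_cases m p with ⟨h1, h2⟩ | ⟨h0, h1, h2⟩ | ⟨h1, h2⟩ <;> omega
    · rw [st_head.2 (show p = (d.init m).h ∧ d.q0 = (d.init m).q from ⟨hp, rfl⟩)]
  · right
    refine ⟨?_, _, rfl, fun q => st_ne_head hp q⟩
    rcases cX_cases m p with ⟨h1, h2⟩ | ⟨h0, h1, h2⟩ | ⟨h1, h2⟩ <;> omega

lemma succX_aux (m T : ℕ) (p : ℤ) (hp : -(T + 4 : ℤ) ≤ p ∧ p ≤ T + m + 4) (i' : ℕ)
    (h : (d.sys m).EC (cX m p) i') :
    ∃ p' : ℤ, (-(T + 4 : ℤ) ≤ p' ∧ p' ≤ T + m + 4) ∧ cX m p' = i' ∧ adjX m T p p' := by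
  have key : ∀ p' : ℤ, (cX m p' : ℤ) = i' → (-(T + 4 : ℤ) ≤ p' ∧ p' ≤ T + m + 4) →
      adjX m T p p' → ∃ p' : ℤ, (-(T + 4 : ℤ) ≤ p' ∧ p' ≤ T + m + 4) ∧ cX m p' = i' ∧
        adjX m T p p' := fun p' h1 h2 h3 => ⟨p', h2, by exact_mod_cast h1, h3⟩
  have h' : (cX m p = 0 ∧ i' = 1) ∨ (cX m p = 1 ∧ i' = 2) ∨ (cX m p = 2 ∧ i' = 0) ∨
      (cX m p = 3 ∧ i' = 4) ∨ (cX m p = 4 ∧ i' = 5) ∨ (cX m p = 5 ∧ i' = 3) ∨
      (cX m p = 10 ∧ i' = 3) ∨ (10 ≤ cX m p ∧ cX m p ≤ m + 10 ∧ i' = cX m p + 1) ∨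
      (cX m p = m + 11 ∧ i' = 0) := h
  clear h
  rcases cX_cases m p with ⟨h1, h2⟩ | ⟨h0, h1, h2⟩ | ⟨h1, h2⟩
  · -- negative
    by_cases hend : p = -(T + 4)
    · refine key (-(T + 2)) ?_ (by omega) (Or.inr (Or.inr (Or.inr (Or.inr ⟨hend, rfl⟩))))
      rcases cX_cases m (-(T + 2)) with ⟨h3, h4⟩ | ⟨h3, h4, h5⟩ | ⟨h3, h4⟩ <;> omega
    · refine key (p - 1) ?_ (by omega) (Or.inr (Or.inr (Or.inl ⟨by omega, h1, rfl⟩)))
      rcases cX_cases m (p - 1) with ⟨h3, h4⟩ | ⟨h3, h4, h5⟩ | ⟨h3, h4⟩ <;> omega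
  · by_cases hi : i' = 3
    · refine key (-1) ?_ (by omega) (Or.inr (Or.inl ⟨by omega, rfl⟩))
      rcases cX_cases m (-1) with ⟨h3, h4⟩ | ⟨h3, h4, h5⟩ | ⟨h3, h4⟩ <;> omega
    · refine key (p + 1) ?_ (by omega) (Or.inl ⟨by omega, by omega, rfl⟩)
      rcases cX_cases m (p + 1) with ⟨h3, h4⟩ | ⟨h3, h4, h5⟩ | ⟨h3, h4⟩ <;> omega
  · by_cases hend : p = T + m + 4
    · refine key (T + m + 2) ?_ (by omega) (Or.inr (Or.inr (Or.inr (Or.inl ⟨hend, rfl⟩))))
      rcases cX_cases m (T + m + 2) with ⟨h3, h4⟩ | ⟨h3, h4, h5⟩ | ⟨h3, h4⟩ <;> omega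
    · refine key (p + 1) ?_ (by omega) (Or.inl ⟨by omega, by omega, rfl⟩)
      rcases cX_cases m (p + 1) with ⟨h3, h4⟩ | ⟨h3, h4, h5⟩ | ⟨h3, h4⟩ <;> omega

lemma succY_aux (m T t : ℕ) (ht : t ≤ T + 3) (l' : ℕ) (h : (d.sys m).ER (cY t) l') :
    ∃ t' : ℕ, t' ≤ T + 3 ∧ cY t' = l' ∧ adjY T t t' := by
  have h' : (cY t = 6 ∧ l' = 7) ∨ (cY t = 7 ∧ l' = 8) ∨ (cY t = 8 ∧ l' = 9) ∨
    (cY t = 9 ∧ l' = 7) := h
  clear h
  by_cases hend : t = T + 3
  · refine ⟨T + 1, by omega, ?_, Or.inr ⟨hend, rfl⟩⟩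
    rcases cY_cases t with ⟨h1, h2⟩ | ⟨h1, h2⟩ <;>
    rcases cY_cases (T + 1) with ⟨h3, h4⟩ | ⟨h3, h4⟩ <;> omega
  · refine ⟨t + 1, by omega, ?_, Or.inl ⟨by omega, rfl⟩⟩
    rcases cY_cases t with ⟨h1, h2⟩ | ⟨h1, h2⟩ <;>
    rcases cY_cases (t + 1) with ⟨h3, h4⟩ | ⟨h3, h4⟩ <;> omega

lemma conC_aux (m T t : ℕ) (h : (arun d.M (d.init m) T).isSome)
    (hl : (conf d m T).tape ((conf d m T).h + 1) ≠ d.bad) (p p' : ℤ)
    (h1 : adjX m T p p') :
    ¬ (d.sys m).FC (cX m p) (cX m p') (cY t) (d.num (cell d m T t p)) (d.num (cell d m T t p')) := by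
  rintro ⟨a, b, ha, hb, hab⟩
  have ha := num_inj d ha
  have hb := num_inj d hb
  subst ha hb
  rcases h1 with ⟨h2, h3, h4⟩ | ⟨h2, h4⟩ | ⟨h2, h3, h4⟩ | ⟨h2, h3⟩ | ⟨h2, h3⟩
  · rcases hab with ⟨h5, h6, _⟩ | ⟨_, h7⟩
    · rcases cX_cases m p' with ⟨h8, h9⟩ | ⟨h8, h9, h10⟩ | ⟨h8, h9⟩ <;> omega
    · exact h7 (cell_hok h hl p p' h4)
  · rcases hab with ⟨h5, h6, h7⟩ | ⟨h6, _⟩
    · exact h7 (cell_hok h hl p' p (by omega))
    · apply h6
      rcases cX_cases m p' with ⟨h8, h9⟩ | ⟨h8, h9, h10⟩ | ⟨h8, h9⟩ <;> omega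
  · rcases hab with ⟨h5, h6, h7⟩ | ⟨h6, _⟩
    · exact h7 (cell_hok h hl p' p (by omega))
    · apply h6
      rcases cX_cases m p' with ⟨h8, h9⟩ | ⟨h8, h9, h10⟩ | ⟨h8, h9⟩ <;> omega
  · have h8 : (T : ℤ) + 2 ≤ |p| := by rw [abs_of_nonneg (by omega)]; omega
    have h9 : (T : ℤ) + 2 ≤ |p'| := by rw [abs_of_nonneg (by omega)]; omega
    rcases hab with ⟨_, _, h7⟩ | ⟨_, h7⟩
    · exact h7 (cell_hok_idle h _ _ h9 h8)
    · exact h7 (cell_hok_idle h _ _ h8 h9)
  · have h8 : (T : ℤ) + 2 ≤ |p| := by rw [abs_of_nonpos (by omega)]; omega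
    have h9 : (T : ℤ) + 2 ≤ |p'| := by rw [abs_of_nonpos (by omega)]; omega
    rcases hab with ⟨_, _, h7⟩ | ⟨_, h7⟩
    · exact h7 (cell_hok_idle h _ _ h9 h8)
    · exact h7 (cell_hok_idle h _ _ h8 h9)

lemma conR_aux (m T t t' : ℕ) (h : (arun d.M (d.init m) T).isSome)
    (hl : astep d.M (conf d m T) = none) (p : ℤ) (h1 : adjY T t t') :
    ¬ (d.sys m).FR (cY t) (cY t') (cX m p) (d.num (cell d m T t p)) (d.num (cell d m T t' p)) := by
  rintro ⟨a, b, ha, hb, hab⟩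
  have ha := num_inj d ha
  have hb := num_inj d hb
  subst ha hb
  apply hab
  rcases h1 with ⟨h2, h3⟩ | ⟨h2, h3⟩
  · subst h3
    exact cell_vok h hl p
  · rw [cell_neg (by omega), cell_neg (by omega)]
    rfl

end Tiles2

open Tiles2 in
theorem fin_model (d : TMData) (m : ℕ) (h : d.HaltsGood m) :
    ∃ (X Y : Type) (_ : Finite X) (_ : Finite Y) (M : (d.sys m).Model X Y),
      (∀ i, (d.sys m).KC i → ∃ x, M.clX x = i) ∧ ∀ l, (d.sys m).KR l → ∃ y, M.clY y = l := by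
  obtain ⟨T, c, h1, h2, h3⟩ := h
  have hs : (arun d.M (d.init m) T).isSome := by rw [h1]; rfl
  have hc : conf d m T = c := by
    have := arun_conf hs
    rw [h1] at this
    exact (Option.some.inj this).symm
  subst hc
  refine ⟨{p : ℤ // -(T + 4 : ℤ) ≤ p ∧ p ≤ T + m + 4}, {t : ℕ // t ≤ T + 3},
    (Set.finite_Icc (-(T + 4 : ℤ)) (T + m + 4)).to_subtype, (Set.finite_Iic (T + 3)).to_subtype,
    { clX := fun x => cX m x.1
      clY := fun y => cY y.1
      clX_mem := fun x => KC_cX m x.1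
      clY_mem := fun y => KR_cY m y.1
      x0 := ⟨0, by omega⟩
      y0 := ⟨0, by omega⟩
      clX_x0 := ?_
      clY_y0 := rfl
      adjX := fun x x' => adjX m T x.1 x'.1
      adjY := fun y y' => adjY T y.1 y'.1
      succX := ?_
      succY := ?_
      lab := fun x y => d.num (cell d m T y.1 x.1)
      lab_mem := ?_
      conC := ?_
      conR := ?_ }, ?_, ?_⟩
  · show cX m 0 = 10
    rcases cX_cases m 0 with ⟨h4, h5⟩ | ⟨h0, h4, h5⟩ | ⟨h4, h5⟩ <;> omega
  · rintro ⟨p, hp⟩ i' hi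
    obtain ⟨p', h4, h5, h6⟩ := succX_aux m T p hp i' hi
    exact ⟨⟨p', h4⟩, h5, h6⟩
  · rintro ⟨t, ht⟩ l' hl
    obtain ⟨t', h4, h5, h6⟩ := succY_aux m T t ht l' hl
    exact ⟨⟨t', h4⟩, h5, h6⟩
  · rintro ⟨p, hp⟩ ⟨t, ht⟩
    show d.num (cell d m T t p) ∈ (d.sys m).Lab (cX m p) (cY t)
    unfold TMData.sys
    dsimp only
    classical
    exact Finset.mem_image.2 ⟨_, Finset.mem_filter.2 ⟨Finset.mem_univ _, allowed m T t p⟩, rfl⟩
  · rintro ⟨p, hp⟩ ⟨p', hp'⟩ ⟨t, ht⟩ _ hadj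
    exact conC_aux m T t hs h3 p p' hadj
  · rintro ⟨t, ht⟩ ⟨t', ht'⟩ ⟨p, hp⟩ _ hadj
    exact conR_aux m T t t' hs h2 p hadj
  · intro i hi
    have hi' : i < 6 ∨ (10 ≤ i ∧ i ≤ m + 11) := hi
    have key : ∀ p : ℤ, (cX m p : ℤ) = i → (-(T + 4 : ℤ) ≤ p ∧ p ≤ T + m + 4) →
        ∃ x : {p : ℤ // -(T + 4 : ℤ) ≤ p ∧ p ≤ T + m + 4}, cX m x.1 = i :=
      fun p h4 h5 => ⟨⟨p, h5⟩, by exact_mod_cast h4⟩
    show ∃ x : {p : ℤ // -(T + 4 : ℤ) ≤ p ∧ p ≤ T + m + 4}, cX m x.1 = i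
    by_cases hi1 : i < 3
    · refine key (m + 2 + i) ?_ (by omega)
      rcases cX_cases m (m + 2 + i) with ⟨h4, h5⟩ | ⟨h0, h4, h5⟩ | ⟨h4, h5⟩ <;> omega
    · by_cases hi2 : i < 6
      · refine key (2 - i) ?_ (by omega)
        rcases cX_cases m (2 - i) with ⟨h4, h5⟩ | ⟨h0, h4, h5⟩ | ⟨h4, h5⟩ <;> omega
      · refine key (i - 10) ?_ (by omega)
        rcases cX_cases m (i - 10) with ⟨h4, h5⟩ | ⟨h0, h4, h5⟩ | ⟨h4, h5⟩ <;> omega
  · intro l hl
    have hl' : 6 ≤ l ∧ l ≤ 9 := hl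
    show ∃ y : {t : ℕ // t ≤ T + 3}, cY y.1 = l
    refine ⟨⟨l - 6, by omega⟩, ?_⟩
    show cY (l - 6) = l
    rcases cY_cases (l - 6) with ⟨h4, h5⟩ | ⟨h4, h5⟩ <;> omega

end Pool.Agent.Lib.MUD

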