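/-
MP_9f7f62_lc: assembly.
-/
import Pool.Agent.Lib.MP_9f7f62_lc.GoodP
import Pool.Agent.Lib.MP_9f7f62_lc.Indep
import Pool.Agent.Lib.MP_9f7f62_lc.Sound
import Pool.Agent.Lib.MP_9f7f62_lc.Compl
import Pool.Agent.Lib.MP_9f7f62_lc.Mach
import Pool.Agent.Lib.MP_9f7f62_lc.Tiles1
import Pool.Agent.Lib.MP_9f7f62_lc.Tiles2
import Pool.Agent.Lib.MP_9f7f62_lc.Form

namespace Pool.Agent.Lib.MUD

/-- a general criterion: in a distributive lattice with the properties (G) and (H) the
forall-exists theory is undecidable -/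
theorem undecidable_of {L : Type} [DistribLattice L] (hG : GoodPts L) (hH : IndepFam L) :
    ¬ ∃ D : ℕ → Bool, Computable D ∧ ∀ φ : Fm, D φ.code = true ↔ Holds L φ := by
  rintro ⟨D, hD, hφ⟩
  obtain ⟨d, hd⟩ := exists_insep
  obtain ⟨g, hg, hg2⟩ := exists_formula d
  refine hd ⟨fun m => D (Fm.neg (g m)).code, ?_, ?_, ?_⟩
  · refine hD.comp ?_
    have h1 : Computable (fun n : ℕ => 4 * n + 1) :=
      (Primrec.nat_add.comp (Primrec.nat_mul.comp (Primrec.const 4) Primrec.id)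
        (Primrec.const 1)).to_comp
    exact h1.comp hg
  · intro m hm
    obtain ⟨X, Y, hX, hY, M, h1, h2⟩ := fin_model d m hm
    have h3 := compl hH (d.sys m) (sys_good d m) X Y M h1 h2
    obtain ⟨x, hx⟩ := (hg2 m L).2 h3
    rw [← Bool.not_eq_true, hφ]
    intro h
    obtain ⟨y, hy⟩ := h x
    exact hy (hx y)
  · intro m hm
    rw [hφ]
    intro x
    by_contra hcon
    push Not at hcon
    obtain ⟨A, N, D', Z, T, h4⟩ := (hg2 m L).1 ⟨x, fun y => by
      have := hcon y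
      simpa [Fm.Sat] using this⟩
    obtain ⟨X, Y, ⟨M⟩⟩ := sound hG (d.sys m) (sys_good d m) A N D' Z T h4
    exact (no_model d m hm X Y).false M

/-- **Main theorem.** -/
theorem main : ¬ ∃ D : ℕ → Bool, Computable D ∧ ∀ φ : Fm, D φ.code = true ↔ Holds MedDeg φ :=
  undecidable_of goodPts indepFam

end Pool.Agent.Lib.MUD
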